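import Mathlib

/-!
Averages over finite types, indicator functions, and operations on configurations
`β → Bool`.
-/

namespace Pool.Agent.Helper704_ZO

open Finset Function

/-- average over a finite type -/
noncomputable def Ex {Ω : Type*} [Fintype Ω] (f : Ω → ℝ) : ℝ := (∑ ω, f ω) / Fintype.card Ω

open Classical in
/-- indicator of a proposition -/
noncomputable def ind (P : Prop) : ℝ := if P then 1 else 0

section ind
variable {P Q : Prop}

theorem ind_true (h : P) : ind P = 1 := by simp [ind, h]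
theorem ind_false (h : ¬ P) : ind P = 0 := by simp [ind, h]
theorem ind_nonneg (P : Prop) : 0 ≤ ind P := by unfold ind; split_ifs <;> norm_num
theorem ind_le_one (P : Prop) : ind P ≤ 1 := by unfold ind; split_ifs <;> norm_num
theorem ind_mono (h : P → Q) : ind P ≤ ind Q := by
  by_cases hP : P
  · rw [ind_true hP, ind_true (h hP)]
  · rw [ind_false hP]; exact ind_nonneg _
theorem ind_congr (h : P ↔ Q) : ind P = ind Q := by
  rw [propext h]
theorem ind_and (P Q : Prop) : ind (P ∧ Q) = ind P * ind Q := by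
  by_cases hP : P <;> by_cases hQ : Q <;> simp [ind, hP, hQ]
theorem ind_not (P : Prop) : ind (¬ P) = 1 - ind P := by
  by_cases hP : P <;> simp [ind, hP]
theorem ind_or_le (P Q : Prop) : ind (P ∨ Q) ≤ ind P + ind Q := by
  by_cases hP : P <;> by_cases hQ : Q <;> simp [ind, hP, hQ]
theorem ind_mul_self (P : Prop) : ind P * ind P = ind P := by
  by_cases hP : P <;> simp [ind, hP]
theorem ind_exists_le {ι : Type*} (s : Finset ι) (P : ι → Prop) :
    ind (∃ i ∈ s, P i) ≤ ∑ i ∈ s, ind (P i) := by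
  classical
  by_cases h : ∃ i ∈ s, P i
  · obtain ⟨i, hi, hPi⟩ := h
    rw [ind_true ⟨i, hi, hPi⟩]
    calc (1 : ℝ) = ind (P i) := (ind_true hPi).symm
      _ ≤ ∑ i ∈ s, ind (P i) := Finset.single_le_sum (fun j _ => ind_nonneg (P j)) hi
  · rw [ind_false h]
    exact Finset.sum_nonneg (fun j _ => ind_nonneg _)
end ind

section Ex
variable {Ω Ω' : Type*} [Fintype Ω] [Fintype Ω']

theorem Ex_nonneg {f : Ω → ℝ} (h : ∀ ω, 0 ≤ f ω) : 0 ≤ Ex f :=
  div_nonneg (Finset.sum_nonneg fun ω _ => h ω) (Nat.cast_nonneg _)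

theorem Ex_mono {f g : Ω → ℝ} (h : ∀ ω, f ω ≤ g ω) : Ex f ≤ Ex g :=
  div_le_div_of_nonneg_right (Finset.sum_le_sum fun ω _ => h ω) (Nat.cast_nonneg _)

theorem Ex_congr {f g : Ω → ℝ} (h : ∀ ω, f ω = g ω) : Ex f = Ex g := by
  rw [funext h]

theorem Ex_add (f g : Ω → ℝ) : Ex (fun ω => f ω + g ω) = Ex f + Ex g := by
  unfold Ex; rw [Finset.sum_add_distrib, add_div]

theorem Ex_sub (f g : Ω → ℝ) : Ex (fun ω => f ω - g ω) = Ex f - Ex g := by
  unfold Ex; rw [Finset.sum_sub_distrib, sub_div]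

theorem Ex_ind (P : Ω → Prop) [DecidablePred P] :
    Ex (fun ω => ind (P ω)) = ((Finset.univ.filter P).card : ℝ) / Fintype.card Ω := by
  unfold Ex
  congr 1
  rw [Finset.card_filter]
  push_cast
  refine Finset.sum_congr rfl fun ω _ => ?_
  by_cases h : P ω <;> simp [ind, h]

theorem Ex_mul_left (a : ℝ) (f : Ω → ℝ) : Ex (fun ω => a * f ω) = a * Ex f := by
  unfold Ex; rw [← Finset.mul_sum, mul_div_assoc]

theorem Ex_mul_right (a : ℝ) (f : Ω → ℝ) : Ex (fun ω => f ω * a) = Ex f * a := by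
  unfold Ex; rw [← Finset.sum_mul]; ring

theorem Ex_const [Nonempty Ω] (a : ℝ) : Ex (fun _ : Ω => a) = a := by
  unfold Ex
  rw [Finset.sum_const, Finset.card_univ, nsmul_eq_mul, mul_comm, mul_div_assoc, div_self, mul_one]
  exact_mod_cast Fintype.card_ne_zero

theorem Ex_le_const [Nonempty Ω] {f : Ω → ℝ} {a : ℝ} (h : ∀ ω, f ω ≤ a) : Ex f ≤ a :=
  (Ex_mono h).trans_eq (Ex_const a)

theorem Ex_const_le [Nonempty Ω] {f : Ω → ℝ} {a : ℝ} (h : ∀ ω, a ≤ f ω) : a ≤ Ex f :=
  (Ex_const a).symm.trans_le (Ex_mono h)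

theorem Ex_sum {ι : Type*} (s : Finset ι) (f : ι → Ω → ℝ) :
    Ex (fun ω => ∑ i ∈ s, f i ω) = ∑ i ∈ s, Ex (f i) := by
  unfold Ex; rw [Finset.sum_comm, Finset.sum_div]

theorem Ex_comm (f : Ω → Ω' → ℝ) :
    Ex (fun ω => Ex (fun ω' => f ω ω')) = Ex (fun ω' => Ex (fun ω => f ω ω')) := by
  unfold Ex
  rw [← Finset.sum_div, ← Finset.sum_div, Finset.sum_comm, div_div, div_div, mul_comm]

theorem Ex_prod (f : Ω → Ω' → ℝ) :
    Ex (fun ω => Ex (fun ω' => f ω ω')) = Ex (fun p : Ω × Ω' => f p.1 p.2) := by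
  unfold Ex
  rw [← Finset.sum_div, div_div, Fintype.card_prod, Nat.cast_mul, Fintype.sum_prod_type, mul_comm]

theorem Ex_equiv (e : Ω ≃ Ω') (f : Ω' → ℝ) : Ex (fun ω => f (e ω)) = Ex f := by
  unfold Ex
  rw [Fintype.card_congr e, Equiv.sum_comp e]

end Ex

section cfg
variable {β : Type*} [DecidableEq β]

/-- the configuration which is `z` on `F` and `x` outside of `F` -/
def mix (F : Finset β) (z x : β → Bool) : β → Bool := fun b => if b ∈ F then z b else x b

/-- flip the bit `b` -/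
def flp (b : β) (x : β → Bool) : β → Bool := update x b (!x b)

theorem mix_of_mem {F : Finset β} {z x : β → Bool} {b : β} (h : b ∈ F) : mix F z x b = z b := by
  simp [mix, h]
theorem mix_of_notMem {F : Finset β} {z x : β → Bool} {b : β} (h : b ∉ F) :
    mix F z x b = x b := by
  simp [mix, h]
@[simp] theorem mix_empty (z x : β → Bool) : mix ∅ z x = x := by
  funext b; simp [mix]
@[simp] theorem flp_self (b : β) (x : β → Bool) : flp b x b = !x b := by simp [flp]
theorem flp_of_ne {b c : β} (h : c ≠ b) (x : β → Bool) : flp b x c = x c := by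
  simp [flp, h]
@[simp] theorem flp_flp (b : β) (x : β → Bool) : flp b (flp b x) = x := by
  funext c
  by_cases h : c = b
  · subst h; simp
  · rw [flp_of_ne h, flp_of_ne h]
theorem mix_self (F : Finset β) (x : β → Bool) : mix F x x = x := by
  funext b; simp [mix]
theorem flp_mix_of_notMem {F : Finset β} {z x : β → Bool} {b : β} (h : b ∉ F) :
    mix F z (flp b x) = flp b (mix F z x) := by
  funext c
  by_cases hc : c = b
  · subst hc; rw [mix_of_notMem h, flp_self, flp_self, mix_of_notMem h]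
  · rw [flp_of_ne hc]
    by_cases hF : c ∈ F
    · rw [mix_of_mem hF, mix_of_mem hF]
    · rw [mix_of_notMem hF, mix_of_notMem hF, flp_of_ne hc]
theorem flp_mix_of_mem {F : Finset β} {z x : β → Bool} {b : β} (h : b ∈ F) :
    mix F (flp b z) x = flp b (mix F z x) := by
  funext c
  by_cases hc : c = b
  · subst hc; rw [mix_of_mem h, flp_self, flp_self, mix_of_mem h]
  · rw [flp_of_ne hc]
    by_cases hF : c ∈ F
    · rw [mix_of_mem hF, mix_of_mem hF, flp_of_ne hc]
    · rw [mix_of_notMem hF, mix_of_notMem hF]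
theorem mix_flp_of_mem {F : Finset β} {z x : β → Bool} {b : β} (h : b ∈ F) :
    mix F z (flp b x) = mix F z x := by
  funext c
  by_cases hF : c ∈ F
  · rw [mix_of_mem hF, mix_of_mem hF]
  · rw [mix_of_notMem hF, mix_of_notMem hF, flp_of_ne]
    rintro rfl; exact hF h

variable [Fintype β]

/-- mixing two independent uniform configurations gives a uniform configuration -/
theorem Ex_mix (F : Finset β) (G : (β → Bool) → ℝ) :
    Ex (fun z : β → Bool => Ex (fun x : β → Bool => G (mix F z x))) = Ex G := by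
  rw [Ex_prod]
  have hinv : Involutive (fun p : (β → Bool) × (β → Bool) => (mix F p.1 p.2, mix F p.2 p.1)) := by
    rintro ⟨z, x⟩
    ext b
    · by_cases h : b ∈ F <;> simp [mix, h]
    · by_cases h : b ∈ F <;> simp [mix, h]
  have h1 := Ex_equiv (Function.Involutive.toPerm _ hinv) (fun p : (β → Bool) × (β → Bool) => G p.1)
  have h2 : Ex (fun p : (β → Bool) × (β → Bool) => G (mix F p.1 p.2)) =
      Ex (fun p => (fun q : (β → Bool) × (β → Bool) => G q.1) (Function.Involutive.toPerm _ hinv p)) := rfl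
  rw [h2, h1, ← Ex_prod (fun z _ => G z)]
  exact Ex_congr fun z => Ex_const _

end cfg

end Pool.Agent.Helper704_ZO
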