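import Pool.Agent.Helper704_ZO.Junta

/-!
The main lemma about random vertex restrictions.
-/

namespace Pool.Agent.Helper704_ZO

set_option linter.unusedSectionVars false
set_option linter.unusedVariables false

open Finset Function

theorem half_pow_bound {ℓ K a : ℕ} (ha : a ≤ 2 ^ ℓ) :
    (a : ℝ) * (1 / ((2 ^ ℓ : ℕ) : ℝ)) ^ (K + 2) ≤ (1 / 2 : ℝ) ^ ((K + 1) * ℓ) := by
  have h1 : (1 / ((2 ^ ℓ : ℕ) : ℝ)) ^ (K + 2) = (1 / 2 : ℝ) ^ ((K + 1) * ℓ) * (1 / 2 : ℝ) ^ ℓ := by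
    push_cast
    rw [← pow_add, one_div, one_div, inv_pow, inv_pow, ← pow_mul]
    congr 2
    ring
  rw [h1]
  have h2 : (a : ℝ) * (1 / 2 : ℝ) ^ ℓ ≤ 1 := by
    have : (a : ℝ) ≤ 2 ^ ℓ := by exact_mod_cast ha
    calc (a : ℝ) * (1 / 2 : ℝ) ^ ℓ ≤ 2 ^ ℓ * (1 / 2 : ℝ) ^ ℓ := by gcongr
      _ = 1 := by rw [← mul_pow]; norm_num
  calc (a : ℝ) * ((1 / 2 : ℝ) ^ ((K + 1) * ℓ) * (1 / 2 : ℝ) ^ ℓ)
      = (a : ℝ) * (1 / 2 : ℝ) ^ ℓ * (1 / 2 : ℝ) ^ ((K + 1) * ℓ) := by ring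
    _ ≤ 1 * (1 / 2 : ℝ) ^ ((K + 1) * ℓ) := by gcongr
    _ = _ := one_mul _

theorem two_half {ℓ K : ℕ} (hℓ : 1 ≤ ℓ) :
    (1 / 2 : ℝ) ^ ((K + 1) * ℓ) + (1 / 2 : ℝ) ^ ((K + 1) * ℓ) ≤ (1 / 2 : ℝ) ^ (K * ℓ) := by
  have h1 : (1 / 2 : ℝ) ^ ((K + 1) * ℓ) = (1 / 2 : ℝ) ^ (K * ℓ) * (1 / 2 : ℝ) ^ ℓ := by
    rw [← pow_add]; congr 1; ring
  have h2 : (1 / 2 : ℝ) ^ ℓ ≤ 1 / 2 := by
    calc (1 / 2 : ℝ) ^ ℓ ≤ (1 / 2 : ℝ) ^ 1 :=
          pow_le_pow_of_le_one (by norm_num) (by norm_num) hℓ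
      _ = 1 / 2 := pow_one _
  have h3 : (0 : ℝ) ≤ (1 / 2 : ℝ) ^ (K * ℓ) := by positivity
  rw [h1]
  nlinarith

theorem dnf_lemma (C : Type) [Fintype C] [DecidableEq C] (w : ℕ) : ∀ K : ℕ, ∃ c ℓ₀ : ℕ,
    ∀ ℓ ≥ ℓ₀, ∀ (V : Type) [Fintype V] [DecidableEq V] (Q : Type) [Fintype Q] [DecidableEq Q]
      (q0 : Q), Fintype.card Q = 2 ^ ℓ → ∀ g : Cfg V C → Prop, Cert w g →
        Ex (fun κ : V → Q => Ex (fun x : Cfg V C => ind (¬ Jun c g (KB (UU κ q0)) x))) ≤
          (1 / 2 : ℝ) ^ (K * ℓ) := by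
  induction w with
  | zero =>
    intro K
    refine ⟨0, 0, ?_⟩
    intro ℓ _ V _ _ Q _ _ q0 hQ g hg
    have hQne : Nonempty Q := ⟨q0⟩
    have hj : ∀ (F : Finset (Bit V C)) (x : Cfg V C), Jun 0 g F x := by
      intro F x
      refine ⟨∅, by simp, ?_⟩
      intro z z' _
      have hall : ∀ y, g y → ∀ y', g y' := by
        intro y hy y'
        obtain ⟨T, hT, hf⟩ := hg y hy
        have : T = ∅ := Finset.card_eq_zero.1 (Nat.le_zero.1 hT)
        subst this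
        exact hf y' (by simp)
      exact ⟨fun h => hall _ h _, fun h => hall _ h _⟩
    have hz : ∀ (κ : V → Q) (x : Cfg V C), ind (¬ Jun 0 g (KB (UU κ q0)) x) = 0 := by
      intro κ x
      exact ind_false (not_not.2 (hj _ _))
    simp only [hz, Ex_const]
    positivity
  | succ w ih =>
    intro K
    have hlt : (1 : ℝ) - (1 / 2) ^ (w + 1) < 1 := by
      have : (0 : ℝ) < (1 / 2) ^ (w + 1) := by positivity
      linarith
    have h0le : (0 : ℝ) ≤ 1 - (1 / 2) ^ (w + 1) := by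
      have : (1 / 2 : ℝ) ^ (w + 1) ≤ 1 := pow_le_one₀ (by norm_num) (by norm_num)
      linarith
    obtain ⟨A, hA⟩ := exists_pow_lt_of_lt_one
      (show (0 : ℝ) < (1 / 2) ^ (K + 2) by positivity) hlt
    set β := (K + 1) ^ 2 + Fintype.card C * (K + 1) with hβ
    set K' := K + 1 + (w + 1) * (A + 1) with hK'
    obtain ⟨c', ℓ₁, hih⟩ := ih K'
    obtain ⟨ℓ₂, hℓ₂⟩ := poly_le_exp (2 * (w + 1) * A) (2 * (w + 1) * β) (K + 2)
    refine ⟨β + 2 ^ β * c', max (max ℓ₁ ℓ₂) (max β 1), ?_⟩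
    intro ℓ hℓ V _ _ Q _ _ q0 hQ g hg
    have hQne : Nonempty Q := ⟨q0⟩
    have hℓ1 : ℓ₁ ≤ ℓ := le_trans (le_trans (le_max_left _ _) (le_max_left _ _)) hℓ
    have hℓ2 : ℓ₂ ≤ ℓ := le_trans (le_trans (le_max_right _ _) (le_max_left _ _)) hℓ
    have hℓ3 : β ≤ ℓ := le_trans (le_trans (le_max_left _ _) (le_max_right _ _)) hℓ
    have hℓ4 : 1 ≤ ℓ := le_trans (le_trans (le_max_right _ _) (le_max_right _ _)) hℓ
    set L := A * ℓ + β with hL
    -- few free vertices in a small set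
    have hfew : ∀ P : Finset V, P.card ≤ 2 * (L * (w + 1)) →
        Ex (fun κ : V → Q => ind (K + 2 ≤ (P ∩ UU κ q0).card)) ≤
          (1 / 2 : ℝ) ^ ((K + 1) * ℓ) := by
      intro P hP
      refine (Ex_many_UU q0 P (K + 2)).trans ?_
      rw [hQ]
      have h1 : P.card ^ (K + 2) ≤ 2 ^ ℓ := by
        refine le_trans (Nat.pow_le_pow_left ?_ _) (hℓ₂ ℓ hℓ2)
        refine hP.trans (le_of_eq ?_)
        rw [hL]; ring
      have := half_pow_bound (K := K) h1
      push_cast at this ⊢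
      exact this
    rcases forc_dichotomy (w + 1) L g with ⟨T, a, hT1, hT2, hT3⟩ | ⟨Y, hY1, hY2⟩
    · -- many disjoint forcing sets
      set BT : Finset (Bit V C) := Finset.univ.biUnion T with hBT
      set P := VT BT with hP
      have hBTc : BT.card ≤ L * (w + 1) := by
        refine (Finset.card_biUnion_le_card_mul _ _ (w + 1) fun i _ => hT1 i).trans ?_
        rw [Finset.card_univ, Fintype.card_fin]
      have hPc : P.card ≤ 2 * (L * (w + 1)) :=
        (card_VT_le BT).trans (Nat.mul_le_mul_left 2 hBTc)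
      have hκ : ∀ κ : V → Q, Ex (fun x : Cfg V C =>
          ind (¬ Jun (β + 2 ^ β * c') g (KB (UU κ q0)) x)) ≤
          ind (K + 2 ≤ (P ∩ UU κ q0).card) + (1 / 2 : ℝ) ^ ((K + 1) * ℓ) := by
        intro κ
        by_cases hbig : K + 2 ≤ (P ∩ UU κ q0).card
        · rw [ind_true hbig]
          have : Ex (fun x : Cfg V C => ind (¬ Jun (β + 2 ^ β * c') g (KB (UU κ q0)) x)) ≤ 1 :=
            Ex_le_const fun x => ind_le_one _
          have h0 : (0 : ℝ) ≤ (1 / 2 : ℝ) ^ ((K + 1) * ℓ) := by positivity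
          linarith
        · rw [ind_false hbig, zero_add]
          set F : Finset (Bit V C) := KB (UU κ q0) with hF
          set I : Finset (Fin L) := Finset.univ.filter (fun i => Disjoint (T i) F) with hI
          have hmeet := card_meet_le T Finset.univ (fun i _ j _ h => hT3 i j h) F
          rw [← hBT] at hmeet
          have hle : (BT ∩ F).card ≤ β := by
            apply card_inter_KB_le
            show (P ∩ UU κ q0).card ≤ K + 1
            omega
          have hIc : A * ℓ ≤ I.card := by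
            have h1 : I.card + (Finset.univ.filter (fun i : Fin L => ¬ Disjoint (T i) F)).card = L := by
              rw [hI, Finset.card_filter_add_card_filter_not, Finset.card_univ, Fintype.card_fin]
            omega
          calc Ex (fun x : Cfg V C => ind (¬ Jun (β + 2 ^ β * c') g F x))
              ≤ Ex (fun x : Cfg V C => ind (∀ i ∈ I, ¬ ∀ b ∈ T i, x b = a i b)) := by
                refine Ex_mono fun x => ind_mono ?_
                intro hJ i hi hag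
                apply hJ
                apply Jun_const
                intro z
                apply hT2 i
                intro b hb
                rw [mix_of_notMem, hag b hb]
                exact fun h => Finset.disjoint_left.1 (Finset.mem_filter.1 hi).2 hb h
            _ ≤ (1 - (1 / 2 : ℝ) ^ (w + 1)) ^ I.card :=
                Ex_disjoint_le (w + 1) T a I (fun i _ => hT1 i) (fun i _ j _ h => hT3 i j h)
            _ ≤ (1 - (1 / 2 : ℝ) ^ (w + 1)) ^ (A * ℓ) :=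
                pow_le_pow_of_le_one h0le hlt.le hIc
            _ = ((1 - (1 / 2 : ℝ) ^ (w + 1)) ^ A) ^ ℓ := pow_mul _ _ _
            _ ≤ ((1 / 2 : ℝ) ^ (K + 2)) ^ ℓ := by gcongr
            _ = (1 / 2 : ℝ) ^ ((K + 2) * ℓ) := (pow_mul _ _ _).symm
            _ ≤ (1 / 2 : ℝ) ^ ((K + 1) * ℓ) :=
                pow_le_pow_of_le_one (by norm_num) (by norm_num)
                  (Nat.mul_le_mul_right ℓ (by omega))
      calc Ex (fun κ : V → Q => Ex (fun x : Cfg V C =>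
            ind (¬ Jun (β + 2 ^ β * c') g (KB (UU κ q0)) x)))
          ≤ Ex (fun κ : V → Q => ind (K + 2 ≤ (P ∩ UU κ q0).card) +
              (1 / 2 : ℝ) ^ ((K + 1) * ℓ)) := Ex_mono hκ
        _ = Ex (fun κ : V → Q => ind (K + 2 ≤ (P ∩ UU κ q0).card)) +
              (1 / 2 : ℝ) ^ ((K + 1) * ℓ) := by rw [Ex_add, Ex_const]
        _ ≤ (1 / 2 : ℝ) ^ ((K + 1) * ℓ) + (1 / 2 : ℝ) ^ ((K + 1) * ℓ) := by
            have := hfew P hPc
            linarith
        _ ≤ _ := two_half hℓ4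
    · -- a small set meets all forcing sets
      set P := VT Y with hP
      have hPc : P.card ≤ 2 * (L * (w + 1)) :=
        (card_VT_le Y).trans (Nat.mul_le_mul_left 2 hY1)
      have hpt : ∀ (κ : V → Q) (x : Cfg V C),
          ind (¬ Jun (β + 2 ^ β * c') g (KB (UU κ q0)) x) ≤
          ind (K + 2 ≤ (P ∩ UU κ q0).card) +
            ∑ Z ∈ Y.powerset, ind (¬ Jun c' (fun x => g (mix Y (cz Z) x)) (KB (UU κ q0)) x) := by
        intro κ x
        refine le_trans (ind_mono ?_) ((ind_or_le _ _).trans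
          (add_le_add_right (ind_exists_le Y.powerset
            (fun Z => ¬ Jun c' (fun x => g (mix Y (cz Z) x)) (KB (UU κ q0)) x)) _))
        intro hJ
        by_contra hcon
        push Not at hcon
        obtain ⟨h1, h2⟩ := hcon
        apply hJ
        apply Jun_combine (Y := Y)
        · exact card_inter_KB_le Y _ (show (P ∩ UU κ q0).card ≤ K + 1 by omega)
        · intro Z hZ
          exact h2 Z (Finset.mem_powerset.2 hZ)
      have hZ : ∀ Z ∈ Y.powerset, Ex (fun κ : V → Q => Ex (fun x : Cfg V C =>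
          ind (¬ Jun c' (fun x => g (mix Y (cz Z) x)) (KB (UU κ q0)) x))) ≤
          (1 / 2 : ℝ) ^ (K' * ℓ) := by
        intro Z _
        exact hih ℓ hℓ1 V Q q0 hQ _ (Cert_restrict hg hY2 Z)
      have hYc : (2 : ℝ) ^ Y.card * (1 / 2 : ℝ) ^ (K' * ℓ) ≤ (1 / 2 : ℝ) ^ ((K + 1) * ℓ) := by
        have h1 : Y.card ≤ (w + 1) * (A + 1) * ℓ := by
          refine hY1.trans ?_
          rw [hL]
          calc (A * ℓ + β) * (w + 1) ≤ (A * ℓ + ℓ) * (w + 1) := by gcongr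
            _ = _ := by ring
        have h2 : (1 / 2 : ℝ) ^ (K' * ℓ) =
            (1 / 2 : ℝ) ^ ((K + 1) * ℓ) * (1 / 2 : ℝ) ^ ((w + 1) * (A + 1) * ℓ) := by
          rw [← pow_add]; congr 1; rw [hK']; ring
        have h3 : (2 : ℝ) ^ Y.card ≤ 2 ^ ((w + 1) * (A + 1) * ℓ) :=
          pow_le_pow_right₀ (by norm_num) h1
        calc (2 : ℝ) ^ Y.card * (1 / 2 : ℝ) ^ (K' * ℓ)
            ≤ 2 ^ ((w + 1) * (A + 1) * ℓ) * (1 / 2 : ℝ) ^ (K' * ℓ) := by gcongr
          _ = (1 / 2 : ℝ) ^ ((K + 1) * ℓ) *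
              ((2 : ℝ) ^ ((w + 1) * (A + 1) * ℓ) * (1 / 2 : ℝ) ^ ((w + 1) * (A + 1) * ℓ)) := by
              rw [h2]; ring
          _ = (1 / 2 : ℝ) ^ ((K + 1) * ℓ) := by
              rw [← mul_pow]; norm_num
      calc Ex (fun κ : V → Q => Ex (fun x : Cfg V C =>
            ind (¬ Jun (β + 2 ^ β * c') g (KB (UU κ q0)) x)))
          ≤ Ex (fun κ : V → Q => Ex (fun x : Cfg V C => ind (K + 2 ≤ (P ∩ UU κ q0).card) +
            ∑ Z ∈ Y.powerset,
              ind (¬ Jun c' (fun x => g (mix Y (cz Z) x)) (KB (UU κ q0)) x))) :=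
            Ex_mono fun κ => Ex_mono fun x => hpt κ x
        _ = Ex (fun κ : V → Q => ind (K + 2 ≤ (P ∩ UU κ q0).card)) +
            ∑ Z ∈ Y.powerset, Ex (fun κ : V → Q => Ex (fun x : Cfg V C =>
              ind (¬ Jun c' (fun x => g (mix Y (cz Z) x)) (KB (UU κ q0)) x))) := by
            rw [← Ex_sum, ← Ex_add]
            refine Ex_congr fun κ => ?_
            rw [Ex_add, Ex_const, Ex_sum]
        _ ≤ (1 / 2 : ℝ) ^ ((K + 1) * ℓ) + ∑ _Z ∈ Y.powerset, (1 / 2 : ℝ) ^ (K' * ℓ) :=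
            add_le_add (hfew P hPc) (Finset.sum_le_sum hZ)
        _ = (1 / 2 : ℝ) ^ ((K + 1) * ℓ) + (2 : ℝ) ^ Y.card * (1 / 2 : ℝ) ^ (K' * ℓ) := by
            rw [Finset.sum_const, Finset.card_powerset, nsmul_eq_mul]
            push_cast
            rfl
        _ ≤ (1 / 2 : ℝ) ^ ((K + 1) * ℓ) + (1 / 2 : ℝ) ^ ((K + 1) * ℓ) := by linarith
        _ ≤ _ := two_half hℓ4

end Pool.Agent.Helper704_ZO
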