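import Pool.Agent.Helper704_ZO.Formula

/-!
From the bound for symmetric functions to the convergence of the labelled fractions.
-/

namespace Pool.Agent.Helper704_ZO

set_option linter.unusedSectionVars false
set_option linter.unusedVariables false

open Finset Function Filter Topology
open Pool.Agent.Helper704_OI

theorem Ex_fibre {A B : Type} [Fintype A] [Fintype B] [Nonempty A] (Θ : A → B)
    (h : ∀ b b', ∃ σ : A ≃ A, ∀ a, Θ a = b → Θ (σ a) = b') (g : B → ℝ) :
    Ex (fun a => g (Θ a)) = Ex g := by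
  classical
  set cnt : B → ℕ := fun b => (Finset.univ.filter (fun a => Θ a = b)).card with hcnt
  have hle : ∀ b b', cnt b ≤ cnt b' := by
    intro b b'
    obtain ⟨σ, hσ⟩ := h b b'
    refine Finset.card_le_card_of_injOn σ ?_ σ.injective.injOn
    intro a ha
    have ha' := (Finset.mem_filter.1 (Finset.mem_coe.1 ha)).2
    exact Finset.mem_coe.2 (Finset.mem_filter.2 ⟨Finset.mem_univ _, hσ a ha'⟩)
  obtain ⟨a₀⟩ := ‹Nonempty A›
  have hc : ∀ b, cnt b = cnt (Θ a₀) := fun b => le_antisymm (hle _ _) (hle _ _)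
  have hpos : 0 < cnt (Θ a₀) := Finset.card_pos.2 ⟨a₀, by simp⟩
  have h1 : ∀ g : B → ℝ, ∑ a, g (Θ a) = cnt (Θ a₀) * ∑ b, g b := by
    intro g
    rw [← Finset.sum_fiberwise Finset.univ Θ (fun a => g (Θ a)), Finset.mul_sum]
    refine Finset.sum_congr rfl fun b _ => ?_
    have : ∀ a ∈ Finset.univ.filter (fun a => Θ a = b), g (Θ a) = g b := by
      intro a ha
      rw [(Finset.mem_filter.1 ha).2]
    rw [Finset.sum_congr rfl this, Finset.sum_const, nsmul_eq_mul, ← hc b]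
  have h2 : (Fintype.card A : ℝ) = cnt (Θ a₀) * Fintype.card B := by
    have := h1 (fun _ => 1)
    simpa using this
  unfold Ex
  rw [h1 g, h2]
  have h3 : (cnt (Θ a₀) : ℝ) ≠ 0 := by exact_mod_cast hpos.ne'
  rw [mul_div_mul_left _ _ h3]

theorem mu_eq_Ex {C : Type} (φ : Fml C) (n : ℕ)
    [Fintype (SimpleGraph (Fin n) × (C → Fin n → Prop))] :
    mu φ n = Ex (fun S : SimpleGraph (Fin n) × (C → Fin n → Prop) =>
      ind (Holds S.1 S.2 (· < ·) φ)) := by
  classical
  rw [Ex_ind, mu, Nat.card_eq_fintype_card, Nat.card_eq_fintype_card, Fintype.card_subtype]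

section trans
variable {C : Type} [Fintype C] [DecidableEq C] {N n : ℕ}

/-- the coloured graph induced on the image of `j` -/
def Ψ (j : Fin n → Fin N) (x : Cfg (Fin N) (Option C)) :
    SimpleGraph (Fin n) × (C → Fin n → Prop) :=
  ((gx x).comap j, fun c a => x (.inr (some c, j a)) = true)

theorem transfer (j : Fin n → Fin N) (hj : Injective j)
    (b b' : Finset (Fin N) × (SimpleGraph (Fin n) × (C → Fin n → Prop))) :
    ∃ σ : Cfg (Fin N) (Option C) ≃ Cfg (Fin N) (Option C), ∀ x,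
      (Ws x, Ψ j x) = b → (Ws (σ x), Ψ j (σ x)) = b' := by
  classical
  obtain ⟨W₁, G₁, P₁⟩ := b
  obtain ⟨W₂, G₂, P₂⟩ := b'
  set d : Cfg (Fin N) (Option C) := fun bit => match bit with
    | .inl p => decide (∃ a b : Fin n, j a = p.1 ∧ j b = p.2 ∧ a < b ∧
        ¬ (G₁.Adj a b ↔ G₂.Adj a b))
    | .inr (none, v) => decide (¬ (v ∈ W₁ ↔ v ∈ W₂))
    | .inr (some c, v) => decide (∃ a, j a = v ∧ ¬ (P₁ c a ↔ P₂ c a)) with hd
  let sg : Cfg (Fin N) (Option C) → Cfg (Fin N) (Option C) := fun x bit => xor (x bit) (d bit)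
  have hinv : Involutive sg := by
    intro x
    funext bit
    show xor (xor (x bit) (d bit)) (d bit) = x bit
    cases x bit <;> cases d bit <;> rfl
  obtain ⟨σ, hσ'⟩ : ∃ σ : Cfg (Fin N) (Option C) ≃ Cfg (Fin N) (Option C), ∀ x, σ x = sg x :=
    ⟨Function.Involutive.toPerm sg hinv, fun _ => rfl⟩
  refine ⟨σ, fun x hx => ?_⟩
  have hσ : ∀ bit, σ x bit = xor (x bit) (d bit) := fun bit => by rw [hσ']
  have h1 : Ws x = W₁ := congrArg Prod.fst hx
  have h2 : (gx x).comap j = G₁ := congrArg (fun q => q.2.1) hx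
  have h3 : (fun (c : C) (a : Fin n) => x (.inr (some c, j a)) = true) = P₁ :=
    congrArg (fun q => q.2.2) hx
  have hd1 : ∀ a b, d (.inl (j a, j b)) = decide (a < b ∧ ¬ (G₁.Adj a b ↔ G₂.Adj a b)) := by
    intro a b
    have : (∃ a' b' : Fin n, j a' = j a ∧ j b' = j b ∧ a' < b' ∧
        ¬ (G₁.Adj a' b' ↔ G₂.Adj a' b')) ↔ (a < b ∧ ¬ (G₁.Adj a b ↔ G₂.Adj a b)) := by
      constructor
      · rintro ⟨a', b', ha, hb, h⟩
        obtain rfl := hj ha
        obtain rfl := hj hb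
        exact h
      · intro h; exact ⟨a, b, rfl, rfl, h⟩
    simp only [hd]
    exact decide_eq_decide.2 this
  have hd2 : ∀ v, d (.inr (none, v)) = decide (¬ (v ∈ W₁ ↔ v ∈ W₂)) := fun v => rfl
  have hd3 : ∀ c a, d (.inr (some c, j a)) = decide (¬ (P₁ c a ↔ P₂ c a)) := by
    intro c a
    have : (∃ a', j a' = j a ∧ ¬ (P₁ c a' ↔ P₂ c a')) ↔ ¬ (P₁ c a ↔ P₂ c a) := by
      constructor
      · rintro ⟨a', ha, h⟩
        obtain rfl := hj ha
        exact h
      · intro h; exact ⟨a, rfl, h⟩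
    simp only [hd]
    exact decide_eq_decide.2 this
  refine Prod.ext ?_ (Prod.ext ?_ ?_)
  · show Ws (σ x) = W₂
    ext v
    have h4 : x (.inr (none, v)) = true ↔ v ∈ W₁ := by rw [← mem_Ws, h1]
    rw [mem_Ws, hσ, hd2]
    by_cases h5 : v ∈ W₁ <;> by_cases h6 : v ∈ W₂ <;> simp_all
  · show (gx (σ x)).comap j = G₂
    have key : ∀ a b, a < b → ((gx (σ x)).Adj (j a) (j b) ↔ G₂.Adj a b) := by
      intro a b hab
      have h4 : (x (.inl (j a, j b)) ≠ x (.inl (j b, j a))) ↔ G₁.Adj a b := by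
        rw [← h2]; rfl
      show (σ x (.inl (j a, j b)) ≠ σ x (.inl (j b, j a))) ↔ _
      rw [hσ, hσ, hd1, hd1]
      have h5 : ¬ b < a := not_lt.2 hab.le
      by_cases h6 : G₁.Adj a b <;> by_cases h7 : G₂.Adj a b <;>
        cases h8 : x (.inl (j a, j b)) <;> cases h9 : x (.inl (j b, j a)) <;> simp_all
    ext a b
    rw [SimpleGraph.comap_adj]
    rcases lt_trichotomy a b with h | h | h
    · exact key a b h
    · subst h
      exact iff_of_false (SimpleGraph.irrefl _) (SimpleGraph.irrefl _)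
    · rw [SimpleGraph.adj_comm, key b a h, SimpleGraph.adj_comm]
  · show (fun (c : C) (a : Fin n) => σ x (.inr (some c, j a)) = true) = P₂
    funext c a
    apply propext
    have h4 : x (.inr (some c, j a)) = true ↔ P₁ c a := by
      rw [← h3]
    rw [hσ, hd3]
    by_cases h5 : P₁ c a <;> by_cases h6 : P₂ c a <;> simp_all

theorem Ex_W (W : Finset (Fin N)) (hW : W.card = n)
    [Fintype (SimpleGraph (Fin n) × (C → Fin n → Prop))]
    (g : SimpleGraph (Fin n) × (C → Fin n → Prop) → ℝ) :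
    Ex (fun x : Cfg (Fin N) (Option C) => ind (Ws x = W) * g (Ψ (W.orderEmbOfFin hW) x)) =
      (1 / 2 ^ N) * Ex g := by
  classical
  have h1 := Ex_fibre (fun x : Cfg (Fin N) (Option C) => (Ws x, Ψ (W.orderEmbOfFin hW) x))
    (transfer _ (W.orderEmbOfFin hW).injective) (fun b => ind (b.1 = W) * g b.2)
  rw [h1, ← Ex_prod (fun (W' : Finset (Fin N)) S => ind (W' = W) * g S)]
  have h2 : ∀ W' : Finset (Fin N), Ex (fun S => ind (W' = W) * g S) = ind (W' = W) * Ex g :=
    fun W' => Ex_mul_left _ _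
  simp only [h2]
  rw [Ex_mul_right]
  congr 1
  rw [Ex_ind]
  have h3 : (Finset.univ.filter (fun W' : Finset (Fin N) => W' = W)) = {W} := by
    ext W'; simp
  rw [h3]
  simp

theorem sum_W {P : Cfg (Fin N) (Option C) → Prop} (A : Finset (Finset (Fin N))) :
    ∑ W ∈ A, Ex (fun x : Cfg (Fin N) (Option C) => ind (Ws x = W) * ind (P x)) ≤
      Ex (fun x => ind (P x)) := by
  classical
  rw [← Ex_sum]
  refine Ex_mono fun x => ?_
  rw [← Finset.sum_mul]
  have h1 : ∑ W ∈ A, ind (Ws x = W) ≤ 1 := by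
    calc ∑ W ∈ A, ind (Ws x = W) ≤ ∑ W : Finset (Fin N), ind (Ws x = W) :=
          Finset.sum_le_sum_of_subset_of_nonneg (Finset.subset_univ _) fun _ _ _ => ind_nonneg _
      _ = ind (Ws x = Ws x) := by
          refine Finset.sum_eq_single_of_mem _ (Finset.mem_univ _) ?_
          intro W _ hne
          exact ind_false fun h => hne h.symm
      _ = 1 := ind_true rfl
  have h2 := ind_nonneg (P x)
  nlinarith

theorem FF_Psi {W : Finset (Fin N)} (hW : W.card = n) (hn : 0 < n) {φ : Fml C}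
    (hφ : fv φ = ∅) {x : Cfg (Fin N) (Option C)} (hx : Ws x = W) :
    FF (· < ·) φ x ↔ Holds (Ψ (W.orderEmbOfFin hW) x).1 (Ψ (W.orderEmbOfFin hW) x).2 (· < ·) φ := by
  have hW' : ∀ v, x (.inr (none, v)) = true ↔ ∃ a, W.orderEmbOfFin hW a = v := by
    intro v
    rw [← mem_Ws, hx]
    have := Finset.range_orderEmbOfFin W hW
    rw [← Finset.mem_coe, ← this]
    rfl
  rw [FF_iff hn (· < ·) x _ (W.orderEmbOfFin hW).injective hW' hφ]
  have hr : (fun a b : Fin n => (W.orderEmbOfFin hW) a < (W.orderEmbOfFin hW) b) = (· < ·) := by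
    funext a b
    exact propext (OrderEmbedding.lt_iff_lt _)
  rw [hr]
  rfl

theorem mix_lower (hn : 0 < n) {φ : Fml C} (hφ : fv φ = ∅) :
    ((N.choose n : ℝ) / 2 ^ N) * mu φ n ≤
      Ex (fun x : Cfg (Fin N) (Option C) => ind (FF (· < ·) φ x)) := by
  classical
  have : Fintype (SimpleGraph (Fin n) × (C → Fin n → Prop)) := Fintype.ofFinite _
  refine le_trans (le_of_eq ?_) (sum_W (P := FF (· < ·) φ)
    ((Finset.univ : Finset (Fin N)).powersetCard n))
  have h1 : ∀ W ∈ (Finset.univ : Finset (Fin N)).powersetCard n,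
      Ex (fun x : Cfg (Fin N) (Option C) => ind (Ws x = W) * ind (FF (· < ·) φ x)) =
        (1 / 2 ^ N) * mu φ n := by
    intro W hW
    have hW' := (Finset.mem_powersetCard.1 hW).2
    rw [mu_eq_Ex, ← Ex_W W hW']
    refine Ex_congr fun x => ?_
    by_cases hx : Ws x = W
    · rw [ind_congr (FF_Psi hW' hn hφ hx)]
    · rw [ind_false hx, zero_mul, zero_mul]
  rw [Finset.sum_congr rfl h1, Finset.sum_const, Finset.card_powersetCard, Finset.card_univ,
    Fintype.card_fin, nsmul_eq_mul]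
  ring

theorem mix_upper (hn : 0 < n) {φ : Fml C} (hφ : fv φ = ∅) :
    ((N.choose n : ℝ) / 2 ^ N) * (1 - mu φ n) ≤
      1 - Ex (fun x : Cfg (Fin N) (Option C) => ind (FF (· < ·) φ x)) := by
  classical
  have : Fintype (SimpleGraph (Fin n) × (C → Fin n → Prop)) := Fintype.ofFinite _
  have h0 : 1 - Ex (fun x : Cfg (Fin N) (Option C) => ind (FF (· < ·) φ x)) =
      Ex (fun x : Cfg (Fin N) (Option C) => ind (¬ FF (· < ·) φ x)) := by
    simp only [ind_not]
    rw [Ex_sub, Ex_const]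
  have h0' : 1 - mu φ n = Ex (fun S : SimpleGraph (Fin n) × (C → Fin n → Prop) =>
      ind (¬ Holds S.1 S.2 (· < ·) φ)) := by
    simp only [ind_not]
    rw [Ex_sub, mu_eq_Ex]
    have : Nonempty (SimpleGraph (Fin n) × (C → Fin n → Prop)) := ⟨(⊥, fun _ _ => True)⟩
    rw [Ex_const]
  rw [h0]
  refine le_trans (le_of_eq ?_) (sum_W (P := fun x => ¬ FF (· < ·) φ x)
    ((Finset.univ : Finset (Fin N)).powersetCard n))
  have h1 : ∀ W ∈ (Finset.univ : Finset (Fin N)).powersetCard n,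
      Ex (fun x : Cfg (Fin N) (Option C) => ind (Ws x = W) * ind (¬ FF (· < ·) φ x)) =
        (1 / 2 ^ N) * (1 - mu φ n) := by
    intro W hW
    have hW' := (Finset.mem_powersetCard.1 hW).2
    rw [h0', ← Ex_W W hW']
    refine Ex_congr fun x => ?_
    by_cases hx : Ws x = W
    · rw [ind_congr (not_congr (FF_Psi hW' hn hφ hx))]
    · rw [ind_false hx, zero_mul, zero_mul]
  rw [Finset.sum_congr rfl h1, Finset.sum_const, Finset.card_powersetCard, Finset.card_univ,
    Fintype.card_fin, nsmul_eq_mul]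
  ring

end trans

/-- the size of the middle binomial coefficient -/
theorem central_bound (n : ℕ) (hn : 1 ≤ n) :
    (16 : ℝ) ^ n ≤ 4 * n * (n.centralBinom : ℝ) ^ 2 := by
  induction n, hn using Nat.le_induction with
  | base => norm_num [Nat.centralBinom]
  | succ n hn ih =>
    have h1 : ((n : ℝ) + 1) * ((n + 1).centralBinom : ℝ) = 2 * (2 * n + 1) * n.centralBinom := by
      exact_mod_cast Nat.succ_mul_centralBinom_succ n
    have hn0 : (0 : ℝ) < n := by exact_mod_cast hn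
    set a := (n.centralBinom : ℝ)
    set b := ((n + 1).centralBinom : ℝ)
    have h2 : ((n : ℝ) + 1) ^ 2 * b ^ 2 = 4 * (2 * n + 1) ^ 2 * a ^ 2 := by
      rw [← mul_pow, h1]; ring
    have h3 : ((n : ℝ) + 1) * (16 : ℝ) ^ (n + 1) ≤ ((n : ℝ) + 1) * (4 * (n + 1) * b ^ 2) := by
      calc ((n : ℝ) + 1) * (16 : ℝ) ^ (n + 1) = 16 * (n + 1) * 16 ^ n := by ring
        _ ≤ 16 * (n + 1) * (4 * n * a ^ 2) := by gcongr
        _ = 4 * (4 * (4 * n * (n + 1)) * a ^ 2) := by ring
        _ ≤ 4 * (4 * (2 * n + 1) ^ 2 * a ^ 2) := by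
            have : 4 * (n : ℝ) * (n + 1) ≤ (2 * n + 1) ^ 2 := by nlinarith
            gcongr
        _ = 4 * (((n : ℝ) + 1) ^ 2 * b ^ 2) := by rw [h2]
        _ = _ := by ring
    have h4 := le_of_mul_le_mul_left h3 (by linarith)
    push_cast
    exact h4

theorem weight_bound (n : ℕ) :
    1 / (4 * ((n : ℝ) + 1)) ≤ (((2 * n + 1).choose n : ℝ) / 2 ^ (2 * n + 1)) ^ 2 := by
  have h1 : (n + 1).centralBinom = 2 * (2 * n + 1).choose n := by
    rw [Nat.centralBinom]
    have e : 2 * (n + 1) = (2 * n + 1) + 1 := by ring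
    rw [e, Nat.choose_succ_succ, Nat.succ_eq_add_one, Nat.choose_symm_half]
    ring
  have h2 := central_bound (n + 1) (by omega)
  rw [h1] at h2
  push_cast at h2
  have h3 : (16 : ℝ) ^ (n + 1) = 4 * (2 ^ (2 * n + 1)) ^ 2 := by
    have : (16 : ℝ) = 2 ^ 4 := by norm_num
    rw [this, ← pow_mul, ← pow_mul]
    have e : 4 * (n + 1) = (2 * n + 1) * 2 + 2 := by ring
    rw [e, pow_add]
    ring
  rw [h3] at h2
  rw [div_pow, div_le_div_iff₀ (by positivity) (by positivity)]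
  nlinarith

theorem limit_of_alt (a δ : ℕ → ℝ) (hδ : Tendsto δ atTop (𝓝 0)) (h0 : ∀ n, 0 ≤ a n)
    (h1 : ∀ n, a n ≤ 1)
    (h : ∀ᶠ n in atTop, (a n ≤ δ n ∧ a (n + 1) ≤ δ n) ∨
      (1 - a n ≤ δ n ∧ 1 - a (n + 1) ≤ δ n)) :
    Tendsto a atTop (𝓝 0) ∨ Tendsto a atTop (𝓝 1) := by
  have h2 : ∀ᶠ n in atTop, δ n < 1 / 2 := hδ.eventually (gt_mem_nhds (by norm_num))
  obtain ⟨n₀, hn₀⟩ := eventually_atTop.1 (h.and h2)
  by_cases hc : a n₀ < 1 / 2
  · left
    have h3 : ∀ n, n₀ ≤ n → a n < 1 / 2 := by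
      intro n hn
      induction n, hn using Nat.le_induction with
      | base => exact hc
      | succ n hn ih =>
        obtain ⟨h4, h5⟩ := hn₀ n hn
        rcases h4 with h4 | h4
        · linarith [h4.2]
        · linarith [h4.1]
    refine squeeze_zero' (Eventually.of_forall h0) ?_ hδ
    filter_upwards [eventually_ge_atTop n₀] with n hn
    obtain ⟨h4, h5⟩ := hn₀ n hn
    rcases h4 with h4 | h4
    · exact h4.1
    · linarith [h4.1, h3 n hn]
  · right
    have h3 : ∀ n, n₀ ≤ n → 1 / 2 ≤ a n := by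
      intro n hn
      induction n, hn using Nat.le_induction with
      | base => exact not_lt.1 hc
      | succ n hn ih =>
        obtain ⟨h4, h5⟩ := hn₀ n hn
        rcases h4 with h4 | h4
        · linarith [h4.1]
        · linarith [h4.2]
    have h6 : Tendsto (fun n => 1 - a n) atTop (𝓝 0) := by
      refine squeeze_zero' (Eventually.of_forall fun n => by linarith [h1 n]) ?_ hδ
      filter_upwards [eventually_ge_atTop n₀] with n hn
      obtain ⟨h4, h5⟩ := hn₀ n hn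
      rcases h4 with h4 | h4
      · linarith [h4.1, h3 n hn]
      · exact h4.1
    have h7 := h6.const_sub 1
    simpa using h7

theorem zero_one_law (C : Type) [Finite C] (φ : Fml C) (hφ : fv φ = ∅)
    (hinv : OrderInvariant φ) :
    Tendsto (mu φ) atTop (𝓝 0) ∨ Tendsto (mu φ) atTop (𝓝 1) := by
  classical
  have : Fintype C := Fintype.ofFinite C
  obtain ⟨T, hT⟩ : ∃ T, T = dep φ + 3 + 4 := ⟨_, rfl⟩
  obtain ⟨μ, hμ⟩ : ∃ μ, μ = 3 * T + 1 := ⟨_, rfl⟩
  obtain ⟨ν, hν⟩ : ∃ ν, ν = 12 * T + 3 := ⟨_, rfl⟩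
  obtain ⟨M, ℓ₀, hM, hmain⟩ := symm_bound (Option C) T μ ν (by omega) (by omega)
  obtain ⟨L, hL⟩ : ∃ L : ℕ → ℕ, ∀ n, L n = Nat.log (2 ^ ν) (2 * n + 1) := ⟨_, fun _ => rfl⟩
  have hb : 1 < 2 ^ ν := Nat.one_lt_two_pow (by omega)
  have hLtop : Tendsto L atTop atTop := by
    rw [tendsto_atTop]
    intro K
    filter_upwards [eventually_ge_atTop ((2 ^ ν) ^ K)] with n hn
    rw [hL]
    exact (Nat.le_log_iff_pow_le hb (by omega)).2 (by omega)
  have hδ : Tendsto (fun n => 4 * M * (1 / 2 : ℝ) ^ (L n)) atTop (𝓝 0) := by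
    have h1 : Tendsto (fun n => (1 / 2 : ℝ) ^ (L n)) atTop (𝓝 0) :=
      (tendsto_pow_atTop_nhds_zero_of_lt_one (by norm_num) (by norm_num)).comp hLtop
    simpa using h1.const_mul (4 * M)
  have hmu0 : ∀ n, 0 ≤ mu φ n := by
    intro n
    have : Fintype (SimpleGraph (Fin n) × (C → Fin n → Prop)) := Fintype.ofFinite _
    rw [mu_eq_Ex]
    exact Ex_nonneg fun _ => ind_nonneg _
  have hmu1 : ∀ n, mu φ n ≤ 1 := by
    intro n
    have : Fintype (SimpleGraph (Fin n) × (C → Fin n → Prop)) := Fintype.ofFinite _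
    have : Nonempty (SimpleGraph (Fin n) × (C → Fin n → Prop)) := ⟨(⊥, fun _ _ => True)⟩
    rw [mu_eq_Ex]
    exact Ex_le_const fun _ => ind_le_one _
  refine limit_of_alt (mu φ) _ hδ hmu0 hmu1 ?_
  filter_upwards [hLtop.eventually_ge_atTop (ℓ₀ + ν + 1), eventually_ge_atTop 1] with n hn hn1
  obtain ⟨ℓ, hℓ⟩ : ∃ ℓ, ℓ = L n := ⟨_, rfl⟩
  obtain ⟨N, hN⟩ : ∃ N, N = 2 * n + 1 := ⟨_, rfl⟩
  obtain ⟨m, hm⟩ : ∃ m, m = 2 ^ (μ * ℓ) := ⟨_, rfl⟩
  rw [← hℓ] at hn ⊢
  have hNl : 2 ^ (ν * ℓ) ≤ N := by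
    rw [pow_mul, hℓ, hL, hN]
    exact Nat.pow_log_le_self _ (by omega)
  have hNu : N ≤ 2 ^ (ν * (ℓ + 1)) := by
    rw [pow_mul, hℓ, hL, hN]
    exact (Nat.lt_pow_succ_log_self hb _).le
  have hm2 : 2 ≤ m := by
    calc 2 = 2 ^ 1 := by norm_num
      _ ≤ 2 ^ (μ * ℓ) := Nat.pow_le_pow_right (by norm_num) (Nat.mul_pos (by omega) (by omega))
      _ = m := hm.symm
  have hNm : Fintype.card (Fin N) ≤ m ^ 4 := by
    rw [Fintype.card_fin, hm, ← pow_mul]
    refine hNu.trans (Nat.pow_le_pow_right (by norm_num) ?_)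
    have h4 : μ * ℓ * 4 = ν * ℓ + ℓ := by rw [hμ, hν]; ring
    rw [h4, Nat.mul_add, Nat.mul_one]
    omega
  have hcirc : Circ m T (FF (V := Fin N) (· < ·) φ) := by
    rw [hT]
    exact Circ_FF hm2 hNm (· < ·) φ
  have hbd := hmain ℓ (by omega) (Fin N) m hm.le
    (by rw [Fintype.card_fin]; exact hNl) (by rw [Fintype.card_fin]; exact hNu)
    (FF (· < ·) φ) hcirc (fun π x => FF_symm hφ hinv π x)
  rw [Fintype.card_fin] at hbd
  set p := Ex (fun x : Cfg (Fin N) (Option C) => ind (FF (· < ·) φ x)) with hp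
  set ε := M * ((2 : ℝ) ^ (4 * T * ℓ) / (N : ℝ)) with hε
  obtain ⟨w, hw⟩ : ∃ w : ℝ, w = ((N.choose n : ℝ) / 2 ^ N) := ⟨_, rfl⟩
  have hw' : ((N.choose (n + 1) : ℝ) / 2 ^ N) = w := by
    rw [hw, hN, Nat.choose_symm_half]
  have hwpos : 0 < w := by
    have h1 : 0 < N.choose n := Nat.choose_pos (by omega)
    have h2 : (0 : ℝ) < (N.choose n : ℝ) := by exact_mod_cast h1
    rw [hw]
    positivity
  have hlow1 := mix_lower (N := N) (n := n) (by omega) hφ
  have hlow2 := mix_lower (N := N) (n := n + 1) (by omega) hφ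
  have hup1 := mix_upper (N := N) (n := n) (by omega) hφ
  have hup2 := mix_upper (N := N) (n := n + 1) (by omega) hφ
  rw [hw', ← hp] at hlow2 hup2
  rw [← hw, ← hp] at hlow1 hup1
  have hN1 : (1 : ℝ) ≤ N := by
    have : 1 ≤ N := by omega
    exact_mod_cast this
  -- the error is small compared to the weight
  have hsmall : 2 * ε ≤ w * (4 * M * (1 / 2 : ℝ) ^ ℓ) := by
    have hs : ((2 : ℝ) ^ (4 * T * ℓ) * 2 ^ ℓ) ^ 2 ≤ N := by
      have h5 : ((2 : ℝ) ^ (4 * T * ℓ) * 2 ^ ℓ) ^ 2 = 2 ^ ((8 * T + 2) * ℓ) := by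
        rw [← pow_add, ← pow_mul]; congr 1; ring
      rw [h5]
      have h6 : (2 : ℝ) ^ (ν * ℓ) ≤ N := by exact_mod_cast hNl
      refine le_trans ?_ h6
      refine pow_le_pow_right₀ (by norm_num) (Nat.mul_le_mul_right ℓ ?_)
      omega
    set s := (2 : ℝ) ^ (4 * T * ℓ) * 2 ^ ℓ with hs'
    have hw2 := weight_bound n
    rw [← hN, ← hw] at hw2
    have hs0 : 0 ≤ s := by positivity
    have h7 : s / (2 * N) ≤ w := by
      have h8 : (s / (2 * N)) ^ 2 ≤ w ^ 2 := by
        refine le_trans ?_ hw2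
        rw [div_pow, div_le_div_iff₀ (by positivity) (by positivity)]
        have h9 : ((n : ℝ) + 1) ≤ N := by
          rw [hN]; push_cast; linarith [(Nat.cast_nonneg n : (0 : ℝ) ≤ n)]
        nlinarith
      exact le_of_sq_le_sq h8 hwpos.le
    have h10 : 2 * ε = (s / (2 * N)) * (4 * M * (1 / 2 : ℝ) ^ ℓ) := by
      rw [hε, hs']
      have h11 : (2 : ℝ) ^ ℓ * (1 / 2 : ℝ) ^ ℓ = 1 := by rw [← mul_pow]; norm_num
      have hN0 : (N : ℝ) ≠ 0 := by positivity
      calc 2 * (M * ((2 : ℝ) ^ (4 * T * ℓ) / (N : ℝ)))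
          = 2 * (M * ((2 : ℝ) ^ (4 * T * ℓ) / (N : ℝ))) * ((2 : ℝ) ^ ℓ * (1 / 2 : ℝ) ^ ℓ) := by
            rw [h11, mul_one]
        _ = _ := by field_simp; ring
    rw [h10]
    gcongr
  have hdich : p ≤ 2 * ε ∨ 1 - p ≤ 2 * ε := by
    have hp0 : 0 ≤ p := Ex_nonneg fun _ => ind_nonneg _
    have hp1 : p ≤ 1 := Ex_le_const fun _ => ind_le_one _
    by_cases h : p ≤ 1 / 2
    · left; nlinarith
    · right
      push Not at h
      nlinarith
  rcases hdich with h | h
  · left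
    constructor
    · have := hlow1.trans (h.trans hsmall)
      exact le_of_mul_le_mul_left this hwpos
    · have := hlow2.trans (h.trans hsmall)
      exact le_of_mul_le_mul_left this hwpos
  · right
    constructor
    · have := hup1.trans (h.trans hsmall)
      exact le_of_mul_le_mul_left this hwpos
    · have := hup2.trans (h.trans hsmall)
      exact le_of_mul_le_mul_left this hwpos

end Pool.Agent.Helper704_ZO
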