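import Pool.Agent.Helper704_ZO.Induct
import Pool.Agent.Helper704_OI.EF

/-!
First-order formulas relativised to a random set of vertices are computed by circuits of bounded
depth, and order-invariant sentences give symmetric functions.
-/

namespace Pool.Agent.Helper704_ZO

set_option linter.unusedSectionVars false
set_option linter.unusedVariables false

open Finset Function
open Pool.Agent.Helper704_OI

section circ
variable {V C : Type}

theorem Circ_congr {m t : ℕ} {f g : Cfg V C → Prop} (h : ∀ x, f x ↔ g x) (hf : Circ m t f) :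
    Circ m t g := by
  have : f = g := funext fun x => propext (h x)
  rwa [← this]

theorem Circ_not {m t : ℕ} (hm : 2 ≤ m) {f : Cfg V C → Prop} (hf : Circ m t f) :
    Circ m (t + 1) (fun x => ¬ f x) := by
  have : Nonempty (Fin m) := ⟨⟨0, by omega⟩⟩
  exact ⟨fun _ => f, fun _ => hf, Or.inr fun x => by simp⟩

theorem Circ_succ {m t : ℕ} (hm : 2 ≤ m) {f : Cfg V C → Prop} (hf : Circ m t f) :
    Circ m (t + 1) f := by
  have : Nonempty (Fin m) := ⟨⟨0, by omega⟩⟩
  exact ⟨fun _ => f, fun _ => hf, Or.inl fun x => by simp⟩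

theorem Circ_mono {m t t' : ℕ} (hm : 2 ≤ m) (h : t ≤ t') {f : Cfg V C → Prop}
    (hf : Circ m t f) : Circ m t' f := by
  induction h with
  | refl => exact hf
  | step _ ih => exact Circ_succ hm ih

theorem Circ_const {m t : ℕ} (hm : 2 ≤ m) (p : Prop) : Circ m t (fun _ : Cfg V C => p) :=
  Circ_mono hm (Nat.zero_le t) ⟨∅, by simp, fun _ _ _ => Iff.rfl⟩

theorem Circ_or_pow {m t : ℕ} (a : ℕ) : ∀ (f : (Fin a → Fin m) → Cfg V C → Prop),
    (∀ i, Circ m t (f i)) → Circ m (t + a) (fun x => ∃ i, f i x) := by
  induction a with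
  | zero =>
    intro f hf
    refine Circ_congr (fun x => ?_) (hf Fin.elim0)
    constructor
    · intro h; exact ⟨_, h⟩
    · rintro ⟨i, hi⟩
      rwa [Subsingleton.elim i Fin.elim0] at hi
  | succ a ih =>
    intro f hf
    refine ⟨fun i₀ x => ∃ i : Fin a → Fin m, f (Fin.cons i₀ i) x, fun i₀ => ?_, Or.inl ?_⟩
    · exact ih (fun i => f (Fin.cons i₀ i)) fun i => hf _
    · intro x
      constructor
      · rintro ⟨i, hi⟩
        refine ⟨i 0, Fin.tail i, ?_⟩
        rwa [Fin.cons_self_tail]
      · rintro ⟨i₀, i, hi⟩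
        exact ⟨_, hi⟩

theorem Circ_or {m t a : ℕ} (hm : 2 ≤ m) {I : Type} [Finite I] (hI : Nat.card I ≤ m ^ a)
    (f : I → Cfg V C → Prop) (hf : ∀ i, Circ m t (f i)) :
    Circ m (t + a) (fun x => ∃ i, f i x) := by
  classical
  have := Fintype.ofFinite I
  rcases isEmpty_or_nonempty I with hE | hne
  · refine Circ_congr (fun x => ?_) (Circ_const hm False)
    simp
  · rw [Nat.card_eq_fintype_card] at hI
    obtain ⟨e⟩ : Nonempty (I ↪ (Fin a → Fin m)) := by
      apply Function.Embedding.nonempty_of_card_le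
      simpa using hI
    have hs := Function.invFun_surjective e.injective
    refine Circ_congr (fun x => ?_) (Circ_or_pow (m := m) (t := t) a
      (fun k => f (Function.invFun e k)) fun k => hf _)
    constructor
    · rintro ⟨k, hk⟩; exact ⟨_, hk⟩
    · rintro ⟨i, hi⟩
      obtain ⟨k, rfl⟩ := hs i
      exact ⟨k, hi⟩

theorem Circ_all {m t a : ℕ} (hm : 2 ≤ m) {I : Type} [Finite I] (hI : Nat.card I ≤ m ^ a)
    (f : I → Cfg V C → Prop) (hf : ∀ i, Circ m t (f i)) :
    Circ m (t + a + 2) (fun x => ∀ i, f i x) := by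
  have h1 := Circ_or hm hI (fun i x => ¬ f i x) (fun i => Circ_not hm (hf i))
  have h2 := Circ_not hm h1
  have e : t + 1 + a + 1 = t + a + 2 := by ring
  rw [e] at h2
  refine Circ_congr (fun x => ?_) h2
  push Not
  rfl

theorem Circ_and {m t : ℕ} (hm : 2 ≤ m) {f g : Cfg V C → Prop} (hf : Circ m t f)
    (hg : Circ m t g) : Circ m (t + 3) (fun x => f x ∧ g x) := by
  have h1 := Circ_all (m := m) (t := t) (a := 1) (I := Bool) hm
    (by simpa using hm) (fun b x => if b then f x else g x) (by
      intro b
      cases b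
      · simpa using hg
      · simpa using hf)
  refine Circ_congr (fun x => ?_) h1
  simp [and_comm]

end circ

section rel
variable {V C : Type}

/-- the graph of a configuration -/
def gx (x : Cfg V C) : SimpleGraph V where
  Adj u v := x (.inl (u, v)) ≠ x (.inl (v, u))
  symm := ⟨fun _ _ h => h.symm⟩
  loopless := ⟨fun _ h => h rfl⟩

/-- relativised satisfaction: the quantifiers range over the vertices of the extra colour -/
def relSat (r : V → V → Prop) (x : Cfg V (Option C)) : Fml C → (ℕ → V) → Prop
  | .eq i j, s => s i = s j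
  | .adj i j, s => (gx x).Adj (s i) (s j)
  | .col c i, s => x (.inr (some c, s i)) = true
  | .lt i j, s => r (s i) (s j)
  | .neg φ, s => ¬ relSat r x φ s
  | .and φ ψ, s => relSat r x φ s ∧ relSat r x ψ s
  | .exGe k i φ, s => ∃ A : Finset V, A.card = k ∧
      ∀ a ∈ A, x (.inr (none, a)) = true ∧ relSat r x φ (Function.update s i a)

/-- the depth of the circuits for a formula -/
def dep : Fml C → ℕ
  | .eq _ _ => 0
  | .adj _ _ => 0
  | .col _ _ => 0
  | .lt _ _ => 0
  | .neg φ => dep φ + 1
  | .and φ ψ => max (dep φ) (dep ψ) + 3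
  | .exGe k _ φ => dep φ + 3 + k + 2 + 4 * k

theorem Circ_bit {m t : ℕ} (hm : 2 ≤ m) (b : Bit V C) : Circ m t (fun x : Cfg V C => x b = true) :=
  Circ_mono hm (Nat.zero_le t) ⟨{b}, by simp, fun x y h => by
    show x b = true ↔ y b = true
    rw [h b (by simp)]⟩

theorem Circ_relSat [Fintype V] [DecidableEq V] {m : ℕ} (hm : 2 ≤ m)
    (hN : Fintype.card V ≤ m ^ 4) (r : V → V → Prop) (φ : Fml C) :
    ∀ s : ℕ → V, Circ m (dep φ) (fun x : Cfg V (Option C) => relSat r x φ s) := by
  classical
  induction φ with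
  | eq i j => intro s; exact Circ_const hm _
  | adj i j =>
    intro s
    refine ⟨{.inl (s i, s j), .inl (s j, s i)}, Finset.card_le_two, fun x y h => ?_⟩
    have h1 := h (.inl (s i, s j)) (by simp)
    have h2 := h (.inl (s j, s i)) (by simp)
    simp only [relSat, gx, h1, h2]
  | col c i => intro s; exact Circ_bit hm _
  | lt i j => intro s; exact Circ_const hm _
  | neg φ ih => intro s; exact Circ_not hm (ih s)
  | and φ ψ ih1 ih2 =>
    intro s
    exact Circ_and hm (Circ_mono hm (le_max_left _ _) (ih1 s))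
      (Circ_mono hm (le_max_right _ _) (ih2 s))
  | exGe k i φ ih =>
    intro s
    have hI : Nat.card {A : Finset V // A.card = k} ≤ m ^ (4 * k) := by
      rw [Nat.card_eq_fintype_card, Fintype.card_finset_len, pow_mul]
      exact (Nat.choose_le_pow _ _).trans (Nat.pow_le_pow_left hN k)
    refine Circ_congr (f := fun x => ∃ A : {A : Finset V // A.card = k}, ∀ a : A.1,
      x (.inr (none, a.1)) = true ∧ relSat r x φ (Function.update s i a.1)) (fun x => ?_) ?_
    · simp only [relSat]
      constructor
      · rintro ⟨A, hA⟩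
        exact ⟨A.1, A.2, fun a ha => hA ⟨a, ha⟩⟩
      · rintro ⟨A, hAc, hA⟩
        exact ⟨⟨A, hAc⟩, fun a => hA a.1 a.2⟩
    · refine Circ_or hm hI _ fun A => ?_
      have hk : Nat.card A.1 ≤ m ^ k := by
        rw [Nat.card_eq_fintype_card, Fintype.card_coe, A.2]
        exact (Nat.lt_pow_self (by omega)).le
      exact Circ_all hm hk _ fun a => Circ_and hm (Circ_bit hm _) (ih _)

/-- relativised satisfaction and satisfaction in the substructure -/
theorem relSat_iff {n : ℕ} (r : V → V → Prop) (x : Cfg V (Option C)) (j : Fin n → V)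
    (hj : Injective j) (hW : ∀ v, x (.inr (none, v)) = true ↔ ∃ a, j a = v) (φ : Fml C) :
    ∀ s : ℕ → Fin n, relSat r x φ (fun i => j (s i)) ↔
      Sat ((gx x).comap j) (fun c a => x (.inr (some c, j a)) = true)
        (fun a b => r (j a) (j b)) φ s := by
  classical
  induction φ with
  | eq i l => intro s; simp only [relSat, Sat, hj.eq_iff]
  | adj i l => intro s; simp only [relSat, Sat, SimpleGraph.comap_adj]
  | col c i => intro s; simp only [relSat, Sat]
  | lt i l => intro s; simp only [relSat, Sat]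
  | neg φ ih => intro s; simp only [relSat, Sat, ih]
  | and φ ψ ih1 ih2 => intro s; simp only [relSat, Sat, ih1, ih2]
  | exGe k i φ ih =>
    intro s
    have hup : ∀ a : Fin n, Function.update (fun i => j (s i)) i (j a) =
        fun i' => j (Function.update s i a i') := by
      intro a
      funext i'
      by_cases h : i' = i
      · subst h; simp
      · simp [h]
    simp only [relSat, Sat]
    constructor
    · rintro ⟨A, hAc, hA⟩
      have hAj : ∀ a ∈ A, ∃ b, j b = a := fun a ha => (hW a).1 (hA a ha).1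
      have himg : (Finset.univ.filter (fun b => j b ∈ A)).image j = A := by
        ext v
        simp only [Finset.mem_image, Finset.mem_filter, Finset.mem_univ, true_and]
        constructor
        · rintro ⟨b, hb, rfl⟩; exact hb
        · intro hv
          obtain ⟨b, rfl⟩ := hAj v hv
          exact ⟨b, hv, rfl⟩
      refine ⟨Finset.univ.filter (fun b => j b ∈ A), ?_, ?_⟩
      · rw [← hAc, ← himg, Finset.card_image_of_injective _ hj, himg]
      · intro b hb
        have hb' := (Finset.mem_filter.1 hb).2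
        have h1 := (hA _ hb').2
        rw [hup] at h1
        exact (ih _).1 h1
    · rintro ⟨A, hAc, hA⟩
      refine ⟨A.image j, ?_, ?_⟩
      · rw [Finset.card_image_of_injective _ hj, hAc]
      · intro v hv
        obtain ⟨b, hb, rfl⟩ := Finset.mem_image.1 hv
        refine ⟨(hW _).2 ⟨b, rfl⟩, ?_⟩
        rw [hup]
        exact (ih _).2 (hA b hb)

/-- the truth of the sentence in the substructure of the vertices of the extra colour -/
def FF (r : V → V → Prop) (φ : Fml C) (x : Cfg V (Option C)) : Prop :=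
  ∃ v, x (.inr (none, v)) = true ∧ relSat r x φ (fun _ => v)

theorem Circ_FF [Fintype V] [DecidableEq V] {m : ℕ} (hm : 2 ≤ m)
    (hN : Fintype.card V ≤ m ^ 4) (r : V → V → Prop) (φ : Fml C) :
    Circ m (dep φ + 3 + 4) (FF r φ) := by
  refine Circ_or hm (I := V) (by rwa [Nat.card_eq_fintype_card]) _ fun v => ?_
  exact Circ_and hm (Circ_bit hm _) (Circ_relSat hm hN r φ _)

theorem FF_iff {n : ℕ} (hn : 0 < n) (r : V → V → Prop) (x : Cfg V (Option C)) (j : Fin n → V)
    (hj : Injective j) (hW : ∀ v, x (.inr (none, v)) = true ↔ ∃ a, j a = v) {φ : Fml C}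
    (hφ : fv φ = ∅) :
    FF r φ x ↔ Holds ((gx x).comap j) (fun c a => x (.inr (some c, j a)) = true)
        (fun a b => r (j a) (j b)) φ := by
  have hc : ∀ s t : ℕ → Fin n, (Sat ((gx x).comap j) (fun c a => x (.inr (some c, j a)) = true)
        (fun a b => r (j a) (j b)) φ s ↔ Sat ((gx x).comap j)
        (fun c a => x (.inr (some c, j a)) = true) (fun a b => r (j a) (j b)) φ t) := by
    intro s t
    exact sat_congr _ _ _ φ s t (by simp [hφ])
  constructor
  · rintro ⟨v, hv, hs⟩ t
    obtain ⟨a, rfl⟩ := (hW v).1 hv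
    rw [hc t (fun _ => a)]
    exact (relSat_iff r x j hj hW φ (fun _ => a)).1 hs
  · intro h
    refine ⟨j ⟨0, hn⟩, (hW _).2 ⟨_, rfl⟩, ?_⟩
    exact (relSat_iff r x j hj hW φ (fun _ => ⟨0, hn⟩)).2 (h _)

end rel

/-- the vertices of the extra colour -/
def Ws {C : Type} {N : ℕ} (x : Cfg (Fin N) (Option C)) : Finset (Fin N) :=
  Finset.univ.filter (fun v => x (.inr (none, v)) = true)

theorem mem_Ws {C : Type} {N : ℕ} {x : Cfg (Fin N) (Option C)} {v : Fin N} :
    v ∈ Ws x ↔ x (.inr (none, v)) = true := by simp [Ws]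

theorem strict_pull {n N : ℕ} (j : Fin n → Fin N) (hj : Injective j) :
    IsStrictTotalOrder (Fin n) (fun a b => j a < j b) := by
  let e : (fun a b : Fin n => j a < j b) ↪r ((· < ·) : Fin N → Fin N → Prop) :=
    ⟨⟨j, hj⟩, Iff.rfl⟩
  exact e.isStrictTotalOrder

theorem FF_symm {C : Type} [Fintype C] [DecidableEq C] {N : ℕ} {φ : Fml C} (hφ : fv φ = ∅)
    (hinv : OrderInvariant φ) (π : Equiv.Perm (Fin N)) (x : Cfg (Fin N) (Option C)) :
    FF (· < ·) φ (act π x) ↔ FF (· < ·) φ x := by
  have hact : ∀ v, act π x (.inr (none, π v)) = x (.inr (none, v)) := fun v =>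
    act_pB π x (.inr (none, v))
  rcases Nat.eq_zero_or_pos (Ws x).card with h0 | h0
  · have hW : ∀ v, ¬ x (.inr (none, v)) = true := by
      intro v hv
      have := Finset.card_eq_zero.1 h0
      have h1 : v ∈ Ws x := mem_Ws.2 hv
      rw [this] at h1
      exact absurd h1 (Finset.notMem_empty v)
    constructor
    · rintro ⟨v, hv, _⟩
      obtain ⟨u, rfl⟩ := π.surjective v
      rw [hact] at hv
      exact absurd hv (hW u)
    · rintro ⟨v, hv, _⟩
      exact absurd hv (hW v)
  · set j := (Ws x).orderEmbOfFin rfl with hj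
    have hW : ∀ v, x (.inr (none, v)) = true ↔ ∃ a, j a = v := by
      intro v
      rw [← mem_Ws]
      have := Finset.range_orderEmbOfFin (Ws x) rfl
      rw [← Finset.mem_coe, ← this]
      rfl
    have hW' : ∀ v, act π x (.inr (none, v)) = true ↔ ∃ a, π (j a) = v := by
      intro v
      obtain ⟨u, rfl⟩ := π.surjective v
      rw [hact, hW]
      simp
    have hj' : Injective (fun a => π (j a)) := π.injective.comp j.injective
    rw [FF_iff h0 (· < ·) x j j.injective hW hφ,
      FF_iff h0 (· < ·) (act π x) (fun a => π (j a)) hj' hW' hφ]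
    have hG : (gx (act π x)).comap (fun a => π (j a)) = (gx x).comap j := by
      ext a b
      simp only [SimpleGraph.comap_adj, gx]
      have e1 : act π x (.inl (π (j a), π (j b))) = x (.inl (j a, j b)) :=
        act_pB π x (.inl (j a, j b))
      have e2 : act π x (.inl (π (j b), π (j a))) = x (.inl (j b, j a)) :=
        act_pB π x (.inl (j b, j a))
      rw [e1, e2]
    have hP : (fun (c : C) (a : Fin (Ws x).card) => act π x (.inr (some c, π (j a))) = true) =
        fun c a => x (.inr (some c, j a)) = true := by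
      funext c a
      have e1 : act π x (.inr (some c, π (j a))) = x (.inr (some c, j a)) :=
        act_pB π x (.inr (some c, j a))
      rw [e1]
    rw [hG, hP]
    exact hinv _ _ _ _ _ (strict_pull _ hj') (strict_pull _ j.injective)

end Pool.Agent.Helper704_ZO
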