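import Pool.Agent.Helper704_ZO.Base

/-!
The one-bit-at-a-time hybrid argument.
-/

namespace Pool.Agent.Helper704_ZO

set_option linter.unusedSectionVars false
set_option linter.unusedVariables false

open Finset Function

variable {β : Type*} [DecidableEq β] [Fintype β]

/-- the probability that `F x` and `H x'` hold when `x` is uniform and `x'` agrees with `x` on `J`
and is independent of `x` elsewhere -/
noncomputable def Cpl (J : Finset β) (F H : (β → Bool) → Prop) : ℝ :=
  Ex fun x : β → Bool => Ex fun z : β → Bool => ind (F x) * ind (H (mix J x z))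

/-- `F` is sensitive to the bit `b` at `x` -/
def Dv (b : β) (F : (β → Bool) → Prop) (x : β → Bool) : Prop := ¬ (F (flp b x) ↔ F x)

theorem Dv_flp (b : β) (F : (β → Bool) → Prop) (x : β → Bool) : Dv b F (flp b x) ↔ Dv b F x := by
  unfold Dv
  rw [flp_flp]
  tauto

theorem Cpl_empty (F H : (β → Bool) → Prop) :
    Cpl ∅ F H = Ex (fun x => ind (F x)) * Ex (fun x => ind (H x)) := by
  unfold Cpl
  simp only [mix_empty]
  rw [← Ex_mul_right]
  exact Ex_congr fun x => Ex_mul_left _ _

theorem Cpl_mono (J : Finset β) {F F' H H' : (β → Bool) → Prop} (h1 : ∀ x, F x → F' x)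
    (h2 : ∀ x, H x → H' x) : Cpl J F H ≤ Cpl J F' H' :=
  Ex_mono fun x => Ex_mono fun z =>
    mul_le_mul (ind_mono (h1 x)) (ind_mono (h2 _)) (ind_nonneg _) (ind_nonneg _)

theorem Cpl_nonneg (J : Finset β) (F H : (β → Bool) → Prop) : 0 ≤ Cpl J F H :=
  Ex_nonneg fun x => Ex_nonneg fun z => mul_nonneg (ind_nonneg _) (ind_nonneg _)

theorem Cpl_univ (F H : (β → Bool) → Prop) :
    Cpl Finset.univ F H = Ex (fun x => ind (F x) * ind (H x)) := by
  unfold Cpl
  have : ∀ x z : β → Bool, mix Finset.univ x z = x := by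
    intro x z; funext b; simp [mix]
  simp only [this]
  exact Ex_congr fun x => Ex_const _

private theorem ind_diff (F : (β → Bool) → Prop) (b : β) (x : β → Bool) :
    |ind (F x) - ind (F (flp b x))| ≤ ind (Dv b F x) := by
  by_cases h1 : F x <;> by_cases h2 : F (flp b x) <;> simp [ind, Dv, h1, h2]

theorem Cpl_step {J : Finset β} {b : β} (hb : b ∈ J) (F H : (β → Bool) → Prop) :
    Cpl J F H ≤ Cpl (J.erase b) F H + Cpl (J.erase b) (Dv b F) (Dv b H) := by
  unfold Cpl
  simp only [Ex_prod]
  rw [← sub_le_iff_le_add', ← Ex_sub]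
  set a : (β → Bool) × (β → Bool) → ℝ := fun p => ind (F p.1) * ind (H (mix J p.1 p.2)) -
    ind (F p.1) * ind (H (mix (J.erase b) p.1 p.2)) with ha
  set c : (β → Bool) × (β → Bool) → ℝ :=
    fun p => ind (Dv b F p.1) * ind (Dv b H (mix (J.erase b) p.1 p.2)) with hc
  have hinv : Involutive (fun p : (β → Bool) × (β → Bool) =>
      (update p.1 b (p.2 b), update p.2 b (p.1 b))) := by
    rintro ⟨x, z⟩
    simp
  set σ := Function.Involutive.toPerm _ hinv with hσ
  have hσa : ∀ p : (β → Bool) × (β → Bool), σ p = (update p.1 b (p.2 b), update p.2 b (p.1 b)) :=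
    fun p => rfl
  have h1 : Ex (fun p => a (σ p)) = Ex a := Ex_equiv σ a
  have h2 : ∀ p, a p + a (σ p) ≤ c p := by
    rintro ⟨x, z⟩
    simp only [ha, hc, hσa]
    have e1 : mix J (update x b (z b)) (update z b (x b)) = mix (J.erase b) x z := by
      funext d
      by_cases hd : d = b
      · subst hd
        rw [mix_of_mem hb, mix_of_notMem (by simp)]
        simp
      · by_cases hJ : d ∈ J
        · rw [mix_of_mem hJ, mix_of_mem (Finset.mem_erase.2 ⟨hd, hJ⟩)]
          simp [hd]
        · rw [mix_of_notMem hJ, mix_of_notMem (fun h => hJ (Finset.mem_of_mem_erase h))]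
          simp [hd]
    have e2 : mix (J.erase b) (update x b (z b)) (update z b (x b)) = mix J x z := by
      funext d
      by_cases hd : d = b
      · subst hd
        rw [mix_of_mem hb, mix_of_notMem (by simp)]
        simp
      · by_cases hJ : d ∈ J
        · rw [mix_of_mem hJ, mix_of_mem (Finset.mem_erase.2 ⟨hd, hJ⟩)]
          simp [hd]
        · rw [mix_of_notMem hJ, mix_of_notMem (fun h => hJ (Finset.mem_of_mem_erase h))]
          simp [hd]
    rw [e1, e2]
    have hfac : ind (F x) * ind (H (mix J x z)) - ind (F x) * ind (H (mix (J.erase b) x z)) +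
        (ind (F (update x b (z b))) * ind (H (mix (J.erase b) x z)) -
          ind (F (update x b (z b))) * ind (H (mix J x z))) =
        (ind (F x) - ind (F (update x b (z b)))) *
          (ind (H (mix J x z)) - ind (H (mix (J.erase b) x z))) := by ring
    rw [hfac]
    by_cases hxz : z b = x b
    · rw [hxz, update_eq_self, sub_self, zero_mul]
      exact mul_nonneg (ind_nonneg _) (ind_nonneg _)
    · have hzx : z b = !x b := by
        cases h1 : z b <;> cases h2 : x b <;> simp_all
      have f1 : update x b (z b) = flp b x := by rw [hzx]; rfl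
      have f2 : mix J x z = flp b (mix (J.erase b) x z) := by
        funext d
        by_cases hd : d = b
        · subst hd
          rw [mix_of_mem hb, flp_self, mix_of_notMem (by simp), hzx, Bool.not_not]
        · rw [flp_of_ne hd]
          by_cases hJ : d ∈ J
          · rw [mix_of_mem hJ, mix_of_mem (Finset.mem_erase.2 ⟨hd, hJ⟩)]
          · rw [mix_of_notMem hJ, mix_of_notMem (fun h => hJ (Finset.mem_of_mem_erase h))]
      rw [f1, f2]
      set y := mix (J.erase b) x z
      refine (le_abs_self _).trans ?_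
      rw [abs_mul]
      refine mul_le_mul (ind_diff F b x) ?_ (abs_nonneg _) (ind_nonneg _)
      rw [abs_sub_comm]
      exact ind_diff H b y
  have h3 : Ex a + Ex a ≤ Ex c := by
    calc Ex a + Ex a = Ex a + Ex (fun p => a (σ p)) := by rw [h1]
      _ = Ex (fun p => a p + a (σ p)) := (Ex_add _ _).symm
      _ ≤ Ex c := Ex_mono h2
  have h4 : 0 ≤ Ex c := Ex_nonneg fun p => mul_nonneg (ind_nonneg _) (ind_nonneg _)
  show Ex a ≤ Ex c
  linarith

/-- the maximum over all couplings -/
noncomputable def Phi (F H : (β → Bool) → Prop) : ℝ :=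
  (Finset.univ : Finset (Finset β)).sup' ⟨∅, Finset.mem_univ _⟩ (fun J => Cpl J F H)

theorem Cpl_le_Phi (J : Finset β) (F H : (β → Bool) → Prop) : Cpl J F H ≤ Phi F H :=
  Finset.le_sup' (fun J => Cpl J F H) (Finset.mem_univ J)

theorem Phi_le {F H : (β → Bool) → Prop} {a : ℝ} (h : ∀ J, Cpl J F H ≤ a) : Phi F H ≤ a :=
  Finset.sup'_le _ _ fun J _ => h J

theorem Phi_nonneg (F H : (β → Bool) → Prop) : 0 ≤ Phi F H :=
  (Cpl_nonneg ∅ F H).trans (Cpl_le_Phi ∅ F H)

theorem Phi_mono {F F' H H' : (β → Bool) → Prop} (h1 : ∀ x, F x → F' x)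
    (h2 : ∀ x, H x → H' x) : Phi F H ≤ Phi F' H' :=
  Phi_le fun J => (Cpl_mono J h1 h2).trans (Cpl_le_Phi J _ _)

theorem Phi_le_one (F H : (β → Bool) → Prop) : Phi F H ≤ 1 :=
  Phi_le fun J => Ex_le_const fun x => Ex_le_const fun z =>
    mul_le_one₀ (ind_le_one _) (ind_nonneg _) (ind_le_one _)

theorem Phi_zero_left {F H : (β → Bool) → Prop} (h : ∀ x, ¬ F x) : Phi F H = 0 := by
  refine le_antisymm (Phi_le fun J => ?_) (Phi_nonneg _ _)
  refine (Ex_mono (g := fun _ => 0) fun x => ?_).trans_eq (Ex_const 0)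
  refine (Ex_mono (g := fun _ => 0) fun z => ?_).trans_eq (Ex_const 0)
  rw [ind_false (h x), zero_mul]

theorem Phi_union {ι ι' : Type*} (s : Finset ι) (s' : Finset ι') {F H : (β → Bool) → Prop}
    (F' : ι → (β → Bool) → Prop) (H' : ι' → (β → Bool) → Prop)
    (h1 : ∀ x, F x → ∃ i ∈ s, F' i x) (h2 : ∀ x, H x → ∃ i ∈ s', H' i x) :
    Phi F H ≤ ∑ i ∈ s, ∑ j ∈ s', Phi (F' i) (H' j) := by
  refine Phi_le fun J => ?_
  calc Cpl J F H ≤ Ex fun x : β → Bool => Ex fun z : β → Bool =>
        ∑ i ∈ s, ∑ j ∈ s', ind (F' i x) * ind (H' j (mix J x z)) := by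
        refine Ex_mono fun x => Ex_mono fun z => ?_
        rw [← Finset.sum_mul_sum]
        exact mul_le_mul ((ind_mono (h1 x)).trans (ind_exists_le s _))
          ((ind_mono (h2 _)).trans (ind_exists_le s' _)) (ind_nonneg _)
          (Finset.sum_nonneg fun i _ => ind_nonneg _)
    _ = ∑ i ∈ s, ∑ j ∈ s', Cpl J (F' i) (H' j) := by
        have : ∀ x : β → Bool, (Ex fun z : β → Bool =>
            ∑ i ∈ s, ∑ j ∈ s', ind (F' i x) * ind (H' j (mix J x z))) =
            ∑ i ∈ s, ∑ j ∈ s', Ex fun z : β → Bool => ind (F' i x) * ind (H' j (mix J x z)) := by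
          intro x
          rw [Ex_sum]
          exact Finset.sum_congr rfl fun i _ => Ex_sum _ _
        simp only [this]
        rw [Ex_sum]
        refine Finset.sum_congr rfl fun i _ => ?_
        rw [Ex_sum]
        rfl
    _ ≤ _ := Finset.sum_le_sum fun i _ => Finset.sum_le_sum fun j _ => Cpl_le_Phi J _ _

theorem Phi_rec (F H : (β → Bool) → Prop) :
    Phi F H ≤ Ex (fun x => ind (F x)) * Ex (fun x => ind (H x)) +
      ∑ b : β, Phi (Dv b F) (Dv b H) := by
  refine Phi_le fun J => ?_
  have main : ∀ J : Finset β, Cpl J F H ≤ Ex (fun x => ind (F x)) * Ex (fun x => ind (H x)) +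
      ∑ b ∈ J, Phi (Dv b F) (Dv b H) := by
    intro J
    induction J using Finset.induction_on with
    | empty => simp [Cpl_empty]
    | insert b J hb ih =>
      have h1 := Cpl_step (Finset.mem_insert_self b J) F H
      rw [Finset.erase_insert hb] at h1
      rw [Finset.sum_insert hb]
      have h2 := Cpl_le_Phi J (Dv b F) (Dv b H)
      linarith
  refine (main J).trans ?_
  have h := Finset.sum_le_sum_of_subset_of_nonneg (f := fun b : β => Phi (Dv b F) (Dv b H))
    (Finset.subset_univ J) (fun b _ _ => Phi_nonneg _ _)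
  linarith

end Pool.Agent.Helper704_ZO
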