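import Pool.Agent.Helper704_ZO.Sens

/-!
The induction on the depth, and the conclusion for symmetric functions: the probability is close
to `0` or to `1`.
-/

namespace Pool.Agent.Helper704_ZO

set_option linter.unusedSectionVars false
set_option linter.unusedVariables false

open Finset Function

section
variable {V C : Type} [Fintype V] [DecidableEq V] [Fintype C] [DecidableEq C]

theorem Phi_zero_right {F H : Cfg V C → Prop} (h : ∀ x, ¬ H x) : Phi F H = 0 := by
  refine le_antisymm (Phi_le fun J => ?_) (Phi_nonneg _ _)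
  refine (Ex_mono (g := fun _ => 0) fun x => ?_).trans_eq (Ex_const 0)
  refine (Ex_mono (g := fun _ => 0) fun z => ?_).trans_eq (Ex_const 0)
  rw [ind_false (h _), mul_zero]

theorem Phi_le_ind {F H : Cfg V C → Prop} {P Q : Prop} (h1 : ∀ x, F x → P) (h2 : ∀ x, H x → Q) :
    Phi F H ≤ ind P * ind Q := by
  by_cases hP : P
  · by_cases hQ : Q
    · rw [ind_true hP, ind_true hQ, mul_one]
      exact Phi_le_one _ _
    · rw [Phi_zero_right fun x hx => hQ (h2 x hx)]
      exact mul_nonneg (ind_nonneg _) (ind_nonneg _)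
  · rw [Phi_zero_left fun x hx => hP (h1 x hx)]
    exact mul_nonneg (ind_nonneg _) (ind_nonneg _)

theorem step_choice {ι : Type} {m r : ℕ} (f : ι → Cfg V C → Prop)
    (ch : ι → Fin m → Cfg V C → Prop)
    (hf : ∀ j, (∀ x, f j x ↔ ∃ i, ch j i x) ∨ (∀ x, f j x ↔ ¬ ∃ i, ch j i x))
    (e : Fin r → Bit V C) (x : Cfg V C) (h : MM f e x) :
    ∃ s : Fin r → ι × Fin m, MM (fun l => ch (s l).1 (s l).2) e x := by
  choose j hj using h
  have h1 : ∀ i : Fin r, ∃ i' : Fin m, Rel (ch (j i) i') (KB (XX e)) (e i) x := by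
    intro i
    obtain ⟨z, hz⟩ := hj i
    by_contra hcon
    push Not at hcon
    apply hz
    have h2 : ∀ i', (ch (j i) i' (mix (KB (XX e)) (flp (e i) z) x) ↔
        ch (j i) i' (mix (KB (XX e)) z x)) := by
      intro i'
      have h3 := hcon i'
      unfold Rel at h3
      push Not at h3
      exact h3 z
    rcases hf (j i) with hf | hf
    · rw [hf, hf]; simp only [h2]
    · rw [hf, hf]; simp only [h2]
  choose i' hi' using h1
  exact ⟨fun i => (j i, i' i), fun i => ⟨i, hi' i⟩⟩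

theorem AA_step {ι κ : Type} [Fintype ι] [Fintype κ] {m r : ℕ} (f : ι → Cfg V C → Prop)
    (g : κ → Cfg V C → Prop) (ch : ι → Fin m → Cfg V C → Prop) (ch' : κ → Fin m → Cfg V C → Prop)
    (hf : ∀ j, (∀ x, f j x ↔ ∃ i, ch j i x) ∨ (∀ x, f j x ↔ ¬ ∃ i, ch j i x))
    (hg : ∀ j, (∀ x, g j x ↔ ∃ i, ch' j i x) ∨ (∀ x, g j x ↔ ¬ ∃ i, ch' j i x)) :
    AA r f g ≤ ∑ s : Fin r → ι × Fin m, ∑ s' : Fin r → κ × Fin m,
      AA r (fun l => ch (s l).1 (s l).2) (fun l => ch' (s' l).1 (s' l).2) := by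
  unfold AA
  have h1 : ∀ e ∈ TS V C r, Phi (MM f e) (MM g e) ≤ ∑ s : Fin r → ι × Fin m,
      ∑ s' : Fin r → κ × Fin m, Phi (MM (fun l => ch (s l).1 (s l).2) e)
        (MM (fun l => ch' (s' l).1 (s' l).2) e) := by
    intro e _
    refine Phi_union Finset.univ Finset.univ _ _ ?_ ?_
    · intro x hx
      obtain ⟨s, hs⟩ := step_choice f ch hf e x hx
      exact ⟨s, Finset.mem_univ _, hs⟩
    · intro x hx
      obtain ⟨s, hs⟩ := step_choice g ch' hg e x hx
      exact ⟨s, Finset.mem_univ _, hs⟩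
  refine (Finset.sum_le_sum h1).trans (le_of_eq ?_)
  rw [Finset.sum_comm]
  refine Finset.sum_congr rfl fun s _ => ?_
  rw [Finset.sum_comm]

theorem base_bound {ι κ : Type} [Fintype ι] [Fintype κ] {m r k : ℕ}
    (hr : 2 * r ≤ Fintype.card V) (f : ι → Cfg V C → Prop)
    (g : κ → Cfg V C → Prop) (hf : ∀ j, Circ m 0 (f j)) (hg : ∀ j, Circ m 0 (g j))
    (hι : Fintype.card ι ≤ k) (hκ : Fintype.card κ ≤ k) :
    Ex (fun π : Equiv.Perm V => AA r f (fun j x => g j (act π x))) ≤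
      (4 / Fintype.card V) ^ r * (((k * 2 : ℕ) : ℝ) ^ r * ((k * 2 : ℕ) : ℝ) ^ r) := by
  classical
  choose S hSc hS using hf
  choose S' hSc' hS' using hg
  have key : ∀ {ι : Type} [Fintype ι] (f : ι → Cfg V C → Prop) (S : ι → Finset (Bit V C)),
      (∀ (j : ι) (x y : Cfg V C), (∀ b ∈ S j, x b = y b) → (f j x ↔ f j y)) →
      ∀ (e : Fin r → Bit V C) (x : Cfg V C), MM f e x →
        ∀ i, e i ∈ Finset.univ.biUnion S := by
    intro ι _ f S hS e x hM i
    obtain ⟨j, hr⟩ := hM i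
    refine Finset.mem_biUnion.2 ⟨j, Finset.mem_univ j, ?_⟩
    refine mem_of_Rel (S := S j) (fun z z' hzz => hS j _ _ fun b hb => ?_) hr
    by_cases h : b ∈ (KB (XX e) : Finset (Bit V C))
    · rw [mix_of_mem h, mix_of_mem h, hzz b hb]
    · rw [mix_of_notMem h, mix_of_notMem h]
  have h1 : ∀ π : Equiv.Perm V, AA r f (fun j x => g j (act π x)) ≤
      ∑ e ∈ TS V C r, ind (∀ i, e i ∈ Finset.univ.biUnion S) *
        (fun e' : Fin r → Bit V C => ind (∀ i, e' i ∈ Finset.univ.biUnion S'))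
          (fun i => pB π (e i)) := by
    intro π
    unfold AA
    refine Finset.sum_le_sum fun e _ => ?_
    refine Phi_le_ind (fun x hx => key f S hS e x hx) (fun x hx => ?_)
    rw [MM_act] at hx
    exact key g S' hS' _ _ hx
  refine (Ex_mono h1).trans ?_
  refine (perm_avg hr (fun e => ind (∀ i, e i ∈ Finset.univ.biUnion S))
    (fun e' : Fin r → Bit V C => ind (∀ i, e' i ∈ Finset.univ.biUnion S'))
    (fun _ => ind_nonneg _) (fun _ => ind_nonneg _)).trans ?_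
  have h2 : ∀ {ι : Type} [Fintype ι] (S : ι → Finset (Bit V C)), (∀ j, (S j).card ≤ 2) →
      Fintype.card ι ≤ k →
      ∑ e ∈ TS V C r, ind (∀ i, e i ∈ Finset.univ.biUnion S) ≤ ((k * 2 : ℕ) : ℝ) ^ r := by
    intro ι _ S hSc hι
    refine (sum_ind_pi _).trans ?_
    have h3 : (Finset.univ.biUnion S).card ≤ k * 2 :=
      (Finset.card_biUnion_le_card_mul _ _ 2 fun j _ => hSc j).trans
        (Nat.mul_le_mul_right 2 hι)
    have h4 : ((Finset.univ.biUnion S).card : ℝ) ≤ ((k * 2 : ℕ) : ℝ) := by exact_mod_cast h3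
    gcongr
  have h5 := h2 S hSc hι
  have h6 := h2 S' hSc' hκ
  have h7 : (0 : ℝ) ≤ ∑ e ∈ TS V C r, ind (∀ i, e i ∈ Finset.univ.biUnion S') :=
    Finset.sum_nonneg fun _ _ => ind_nonneg _
  have h8 : (0 : ℝ) ≤ ((k * 2 : ℕ) : ℝ) ^ r := by positivity
  have h9 : (0 : ℝ) ≤ (4 / Fintype.card V) ^ r := by positivity
  exact mul_le_mul_of_nonneg_left (mul_le_mul h5 h6 h7 h8) h9

end

/-- the induction on the depth -/
theorem main_ind (C : Type) [Fintype C] [DecidableEq C] (T μ ν : ℕ)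
    (hν : 8 * μ + 12 * T ≤ 3 * ν) (hν1 : 1 ≤ ν) (t : ℕ) : t ≤ T → ∀ r k : ℕ,
      ∃ (M : ℝ) (ℓ₀ : ℕ), 0 ≤ M ∧ ∀ ℓ ≥ ℓ₀, ∀ (V : Type) [Fintype V] [DecidableEq V] (m : ℕ),
        m ≤ 2 ^ (μ * ℓ) → 2 ^ (ν * ℓ) ≤ Fintype.card V → Fintype.card V ≤ 2 ^ (ν * (ℓ + 1)) →
        ∀ (ι κ : Type) [Fintype ι] [Fintype κ], Fintype.card ι ≤ k → Fintype.card κ ≤ k →
        ∀ (f : ι → Cfg V C → Prop) (g : κ → Cfg V C → Prop), (∀ j, Circ m t (f j)) →
          (∀ j, Circ m t (g j)) →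
          Ex (fun π : Equiv.Perm V => AA r f (fun j x => g j (act π x))) ≤
            M * ((2 : ℝ) ^ (4 * T * ℓ) / Fintype.card V) ^ r := by
  have hbig : ∀ (N ℓ c : ℕ), N ≤ ℓ → 2 ^ (ν * ℓ) ≤ c → N ≤ c := by
    intro N ℓ c h1 h2
    have h3 : ℓ < 2 ^ ℓ := Nat.lt_two_pow_self
    have h4 : 2 ^ ℓ ≤ 2 ^ (ν * ℓ) := Nat.pow_le_pow_right (by norm_num) (by nlinarith)
    omega
  induction t with
  | zero =>
    intro _ r k
    refine ⟨4 ^ r * (((k * 2 : ℕ) : ℝ) ^ r * ((k * 2 : ℕ) : ℝ) ^ r), 2 * r, by positivity, ?_⟩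
    intro ℓ hℓ V _ _ m _ hV1 _ ι κ _ _ hι hκ f g hf hg
    have hn : 2 * r ≤ Fintype.card V := hbig _ _ _ hℓ hV1
    refine (base_bound hn f g hf hg hι hκ).trans ?_
    have h1 : (4 / (Fintype.card V : ℝ)) ^ r ≤
        4 ^ r * ((2 : ℝ) ^ (4 * T * ℓ) / Fintype.card V) ^ r := by
      rw [← mul_pow]
      have h2 : (1 : ℝ) ≤ (2 : ℝ) ^ (4 * T * ℓ) := one_le_pow₀ (by norm_num)
      gcongr
      rw [← mul_div_assoc]
      gcongr
      linarith
    calc _ ≤ 4 ^ r * ((2 : ℝ) ^ (4 * T * ℓ) / Fintype.card V) ^ r *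
          (((k * 2 : ℕ) : ℝ) ^ r * ((k * 2 : ℕ) : ℝ) ^ r) := by gcongr
      _ = _ := by ring
  | succ t ih =>
    intro ht r k
    obtain ⟨M₁, ℓ₁, hM₁, h₁⟩ := ih (by omega) (4 * r) (4 * r)
    choose Ms ℓs hMs hs using fun s => sens C μ ν (t + 1) s k
    refine ⟨∑ j ∈ Finset.range (3 * r), 4 ^ (r + j) * (Ms (r + j)) ^ 2 +
      ((k : ℝ) ^ (4 * r)) ^ 2 * M₁, ℓ₁ + 8 * r + ∑ j ∈ Finset.range (3 * r), ℓs (r + j), ?_, ?_⟩
    · have : 0 ≤ ∑ j ∈ Finset.range (3 * r), 4 ^ (r + j) * (Ms (r + j)) ^ 2 :=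
        Finset.sum_nonneg fun j _ => by positivity
      positivity
    intro ℓ hℓ V _ _ m hm hV1 hV2 ι κ _ _ hι hκ f g hf hg
    have hn : 8 * r ≤ Fintype.card V := hbig _ _ _ (by omega) hV1
    have hn1 : 1 ≤ Fintype.card V := (Nat.one_le_pow _ _ (by norm_num)).trans hV1
    set n : ℝ := ((Fintype.card V : ℕ) : ℝ) with hn'
    have hn0 : (1 : ℝ) ≤ n := by rw [hn']; exact_mod_cast hn1
    have hnV : (2 : ℝ) ^ (ν * ℓ) ≤ n := by rw [hn']; exact_mod_cast hV1
    set ρ : ℝ := (2 : ℝ) ^ (4 * T * ℓ) / n with hρ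
    have hρ0 : 0 ≤ ρ := by positivity
    have hT : 4 * T ≤ ν := by omega
    have hρ1 : ρ ≤ 1 := by
      rw [hρ, div_le_one (by linarith)]
      refine le_trans ?_ hnV
      exact pow_le_pow_right₀ (by norm_num) (Nat.mul_le_mul_right ℓ hT)
    have hρ3 : (2 : ℝ) ^ (8 * μ * ℓ) * ρ ^ 3 ≤ 1 := by
      rw [hρ, div_pow, ← mul_div_assoc, div_le_one (by positivity)]
      calc (2 : ℝ) ^ (8 * μ * ℓ) * ((2 : ℝ) ^ (4 * T * ℓ)) ^ 3
          = (2 : ℝ) ^ ((8 * μ + 12 * T) * ℓ) := by rw [← pow_mul, ← pow_add]; congr 1; ring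
        _ ≤ (2 : ℝ) ^ (3 * ν * ℓ) :=
            pow_le_pow_right₀ (by norm_num) (Nat.mul_le_mul_right ℓ hν)
        _ = ((2 : ℝ) ^ (ν * ℓ)) ^ 3 := by rw [← pow_mul]; congr 1; ring
        _ ≤ n ^ 3 := by gcongr
    -- the products
    have hPP : ∀ j ∈ Finset.range (3 * r),
        Ex (fun π : Equiv.Perm V => PP (r + j) f (fun j x => g j (act π x))) ≤
          4 ^ (r + j) * (Ms (r + j)) ^ 2 * ρ ^ r := by
      intro j hj
      have hj' := Finset.mem_range.1 hj
      have hℓs : ℓs (r + j) ≤ ℓ := by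
        have := Finset.single_le_sum (f := fun j => ℓs (r + j)) (fun _ _ => Nat.zero_le _) hj
        omega
      have hSf := hs (r + j) ℓ hℓs V m hm hV2 ι hι f hf
      have hSg := hs (r + j) ℓ hℓs V m hm hV2 κ hκ g hg
      refine (Ex_PP_le (by omega) f g).trans ?_
      have hpow : (2 : ℝ) ^ (2 * (r + j) * (t + 1) * ℓ) * (2 : ℝ) ^ (2 * (r + j) * (t + 1) * ℓ) =
          ((2 : ℝ) ^ (4 * (t + 1) * ℓ)) ^ (r + j) := by
        rw [← pow_add, ← pow_mul]
        congr 1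
        ring
      calc (4 / n) ^ (r + j) * (SS (r + j) f * SS (r + j) g)
          ≤ (4 / n) ^ (r + j) * ((Ms (r + j) * (2 : ℝ) ^ (2 * (r + j) * (t + 1) * ℓ)) *
              (Ms (r + j) * (2 : ℝ) ^ (2 * (r + j) * (t + 1) * ℓ))) := by
            gcongr
            · exact SS_nonneg _ _
            · exact mul_nonneg (hMs _) (by positivity)
        _ = 4 ^ (r + j) * (Ms (r + j)) ^ 2 * ((2 : ℝ) ^ (4 * (t + 1) * ℓ) / n) ^ (r + j) := by
            rw [div_pow, div_pow, ← hpow]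
            ring
        _ ≤ 4 ^ (r + j) * (Ms (r + j)) ^ 2 * ρ ^ (r + j) := by
            have : (2 : ℝ) ^ (4 * (t + 1) * ℓ) / n ≤ ρ := by
              rw [hρ]
              gcongr
              · norm_num
            gcongr
        _ ≤ 4 ^ (r + j) * (Ms (r + j)) ^ 2 * ρ ^ r := by
            have : ρ ^ (r + j) ≤ ρ ^ r := pow_le_pow_of_le_one hρ0 hρ1 (by omega)
            gcongr
    -- the remainder
    have hAA : Ex (fun π : Equiv.Perm V => AA (4 * r) f (fun j x => g j (act π x))) ≤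
        ((k : ℝ) ^ (4 * r)) ^ 2 * M₁ * ρ ^ r := by
      choose ch hch hfch using hf
      choose ch' hch' hgch using hg
      have h2 : ∀ π : Equiv.Perm V, AA (4 * r) f (fun j x => g j (act π x)) ≤
          ∑ s : Fin (4 * r) → ι × Fin m, ∑ s' : Fin (4 * r) → κ × Fin m,
            AA (4 * r) (fun l => ch (s l).1 (s l).2)
              (fun l x => ch' (s' l).1 (s' l).2 (act π x)) := by
        intro π
        refine AA_step f (fun j x => g j (act π x)) ch (fun j i x => ch' j i (act π x)) hfch ?_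
        intro j
        rcases hgch j with h | h
        · exact Or.inl fun x => h _
        · exact Or.inr fun x => h _
      have hcard : ∀ (ι : Type) [Fintype ι], Fintype.card ι ≤ k →
          ((Fintype.card (Fin (4 * r) → ι × Fin m) : ℕ) : ℝ) ≤
            ((k : ℝ) * 2 ^ (μ * ℓ)) ^ (4 * r) := by
        intro ι _ hι
        rw [Fintype.card_fun, Fintype.card_prod, Fintype.card_fin, Fintype.card_fin]
        push_cast
        have h3 : (Fintype.card ι : ℝ) ≤ k := by exact_mod_cast hι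
        have h4 : (m : ℝ) ≤ 2 ^ (μ * ℓ) := by exact_mod_cast hm
        gcongr
      have hbd : ∀ (s : Fin (4 * r) → ι × Fin m) (s' : Fin (4 * r) → κ × Fin m),
          Ex (fun π : Equiv.Perm V => AA (4 * r) (fun l => ch (s l).1 (s l).2)
              (fun l x => ch' (s' l).1 (s' l).2 (act π x))) ≤ M₁ * ρ ^ (4 * r) := by
        intro s s'
        exact h₁ ℓ (by omega) V m hm hV1 hV2 (Fin (4 * r)) (Fin (4 * r)) (by simp) (by simp)
          (fun l => ch (s l).1 (s l).2) (fun l => ch' (s' l).1 (s' l).2)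
          (fun l => hch _ _) (fun l => hch' _ _)
      calc Ex (fun π : Equiv.Perm V => AA (4 * r) f (fun j x => g j (act π x)))
          ≤ Ex (fun π : Equiv.Perm V => ∑ s : Fin (4 * r) → ι × Fin m,
              ∑ s' : Fin (4 * r) → κ × Fin m, AA (4 * r) (fun l => ch (s l).1 (s l).2)
                (fun l x => ch' (s' l).1 (s' l).2 (act π x))) := Ex_mono h2
        _ = ∑ s : Fin (4 * r) → ι × Fin m, ∑ s' : Fin (4 * r) → κ × Fin m,
              Ex (fun π : Equiv.Perm V => AA (4 * r) (fun l => ch (s l).1 (s l).2)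
                (fun l x => ch' (s' l).1 (s' l).2 (act π x))) := by
            rw [Ex_sum]
            exact Finset.sum_congr rfl fun s _ => Ex_sum _ _
        _ ≤ ∑ s : Fin (4 * r) → ι × Fin m, ∑ s' : Fin (4 * r) → κ × Fin m,
              M₁ * ρ ^ (4 * r) :=
            Finset.sum_le_sum fun s _ => Finset.sum_le_sum fun s' _ => hbd s s'
        _ = (Fintype.card (Fin (4 * r) → ι × Fin m) : ℝ) *
              ((Fintype.card (Fin (4 * r) → κ × Fin m) : ℝ) * (M₁ * ρ ^ (4 * r))) := by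
            rw [Finset.sum_const, Finset.sum_const, Finset.card_univ, Finset.card_univ,
              nsmul_eq_mul, nsmul_eq_mul]
        _ ≤ ((k : ℝ) * 2 ^ (μ * ℓ)) ^ (4 * r) *
              (((k : ℝ) * 2 ^ (μ * ℓ)) ^ (4 * r) * (M₁ * ρ ^ (4 * r))) := by
            have h5 := hcard ι hι
            have h6 := hcard κ hκ
            gcongr
        _ = ((k : ℝ) ^ (4 * r)) ^ 2 * M₁ * (((2 : ℝ) ^ (8 * μ * ℓ) * ρ ^ 3) ^ r * ρ ^ r) := by
            have h7 : ((2 : ℝ) ^ (μ * ℓ)) ^ (4 * r) * ((2 : ℝ) ^ (μ * ℓ)) ^ (4 * r) =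
                ((2 : ℝ) ^ (8 * μ * ℓ)) ^ r := by
              rw [← pow_mul, ← pow_add, ← pow_mul]
              congr 1
              ring
            have h8 : ρ ^ (4 * r) = (ρ ^ 3) ^ r * ρ ^ r := by
              rw [← pow_mul, ← pow_add]
              congr 1
              ring
            rw [h8, mul_pow, mul_pow, ← h7]
            ring
        _ ≤ ((k : ℝ) ^ (4 * r)) ^ 2 * M₁ * (1 * ρ ^ r) := by
            have h9 : ((2 : ℝ) ^ (8 * μ * ℓ) * ρ ^ 3) ^ r ≤ 1 := pow_le_one₀ (by positivity) hρ3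
            gcongr
        _ = _ := by ring
    calc Ex (fun π : Equiv.Perm V => AA r f (fun j x => g j (act π x)))
        ≤ Ex (fun π : Equiv.Perm V => ∑ j ∈ Finset.range (3 * r),
            PP (r + j) f (fun j x => g j (act π x)) +
              AA (4 * r) f (fun j x => g j (act π x))) := by
          refine Ex_mono fun π => ?_
          have := AA_iter r (3 * r) f (fun j x => g j (act π x))
          have e4 : r + 3 * r = 4 * r := by ring
          rwa [e4] at this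
      _ = ∑ j ∈ Finset.range (3 * r),
            Ex (fun π : Equiv.Perm V => PP (r + j) f (fun j x => g j (act π x))) +
              Ex (fun π : Equiv.Perm V => AA (4 * r) f (fun j x => g j (act π x))) := by
          rw [Ex_add, Ex_sum]
      _ ≤ ∑ j ∈ Finset.range (3 * r), 4 ^ (r + j) * (Ms (r + j)) ^ 2 * ρ ^ r +
            ((k : ℝ) ^ (4 * r)) ^ 2 * M₁ * ρ ^ r :=
          add_le_add (Finset.sum_le_sum hPP) hAA
      _ = _ := by rw [← Finset.sum_mul, add_mul]

/-- symmetric functions computed by circuits of bounded depth have probability close to `0`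
or to `1` -/
theorem symm_bound (C : Type) [Fintype C] [DecidableEq C] (T μ ν : ℕ)
    (hν : 8 * μ + 12 * T ≤ 3 * ν) (hν1 : 1 ≤ ν) :
      ∃ (M : ℝ) (ℓ₀ : ℕ), 0 ≤ M ∧ ∀ ℓ ≥ ℓ₀, ∀ (V : Type) [Fintype V] [DecidableEq V] (m : ℕ),
        m ≤ 2 ^ (μ * ℓ) → 2 ^ (ν * ℓ) ≤ Fintype.card V → Fintype.card V ≤ 2 ^ (ν * (ℓ + 1)) →
        ∀ f : Cfg V C → Prop, Circ m T f → (∀ (π : Equiv.Perm V) (x : Cfg V C),
          f (act π x) ↔ f x) →
          Ex (fun x => ind (f x)) ≤ Ex (fun x => ind (f x)) * Ex (fun x => ind (f x)) +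
            M * ((2 : ℝ) ^ (4 * T * ℓ) / Fintype.card V) := by
  obtain ⟨M, ℓ₀, hM, h⟩ := main_ind C T μ ν hν hν1 T le_rfl 1 1
  refine ⟨M, ℓ₀, hM, ?_⟩
  intro ℓ hℓ V _ _ m hm hV1 hV2 f hf hsym
  have h1 := h ℓ hℓ V m hm hV1 hV2 Unit Unit (by simp) (by simp) (fun _ => f) (fun _ => f)
    (fun _ => hf) (fun _ => hf)
  rw [pow_one] at h1
  have h2 : ∀ π : Equiv.Perm V, (fun (_ : Unit) (x : Cfg V C) => f (act π x)) =
      fun _ : Unit => f := by
    intro π
    funext _ x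
    exact propext (hsym π x)
  simp only [h2] at h1
  rw [Ex_const] at h1
  have h3 := Phi_single f f
  have h4 : Ex (fun x => ind (f x)) ≤ Phi f f := by
    refine le_trans (le_of_eq ?_) (Cpl_le_Phi Finset.univ f f)
    rw [Cpl_univ]
    exact Ex_congr fun x => (ind_mul_self _).symm
  linarith

end Pool.Agent.Helper704_ZO
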