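import Pool.Agent.Helper704_ZO.Perm

/-!
Random vertex restrictions turn functions of bounded certificate size into juntas.
-/

namespace Pool.Agent.Helper704_ZO

set_option linter.unusedSectionVars false
set_option linter.unusedVariables false

open Finset Function

section general

theorem Ex_agree {D Q : Type} [Fintype D] [DecidableEq D] [Fintype Q] [DecidableEq Q] [Nonempty Q]
    (A : Finset D) (t : D → Q) :
    Ex (fun κ : D → Q => ind (∀ d ∈ A, κ d = t d)) = (1 / (Fintype.card Q : ℝ)) ^ A.card := by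
  classical
  rw [Ex_ind]
  have h1 : (Finset.univ.filter (fun κ : D → Q => ∀ d ∈ A, κ d = t d)) =
      Fintype.piFinset (fun d => if d ∈ A then {t d} else Finset.univ) := by
    ext κ
    simp only [Finset.mem_filter, Finset.mem_univ, true_and, Fintype.mem_piFinset]
    refine forall_congr' fun d => ?_
    by_cases h : d ∈ A <;> simp [h]
  have h2 : (Fintype.piFinset (fun d => if d ∈ A then ({t d} : Finset Q) else Finset.univ)).card =
      Fintype.card Q ^ (Fintype.card D - A.card) := by
    rw [Fintype.card_piFinset]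
    have : ∀ d, (if d ∈ A then ({t d} : Finset Q) else Finset.univ).card =
        if d ∈ A then 1 else Fintype.card Q := by
      intro d
      by_cases h : d ∈ A <;> simp [h]
    simp only [this]
    rw [Finset.prod_ite, Finset.prod_const_one, one_mul, Finset.prod_const]
    congr 1
    rw [← Finset.card_compl]
    congr 1
    ext d
    simp
  rw [h1, h2, Fintype.card_fun]
  have hQ : (Fintype.card Q : ℝ) ≠ 0 := by exact_mod_cast Fintype.card_ne_zero
  have hle : A.card ≤ Fintype.card D := Finset.card_le_univ A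
  rw [one_div, inv_pow, div_eq_iff (by positivity)]
  push_cast
  rw [inv_mul_eq_div, eq_div_iff (by positivity), ← pow_add]
  congr 1
  omega

theorem poly_le_exp (a b k : ℕ) : ∃ ℓ₀ : ℕ, ∀ ℓ ≥ ℓ₀, (a * ℓ + b) ^ k ≤ 2 ^ ℓ := by
  have h := tendsto_pow_const_div_const_pow_of_one_lt k (one_lt_two : (1 : ℝ) < 2)
  have hpos : (0 : ℝ) < 1 / ((a + b : ℕ) + 1 : ℝ) ^ k := by positivity
  have h2 := (h.eventually (gt_mem_nhds hpos)).and (Filter.eventually_ge_atTop 1)
  obtain ⟨ℓ₀, hℓ⟩ := Filter.eventually_atTop.1 h2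
  refine ⟨ℓ₀, fun ℓ hl => ?_⟩
  obtain ⟨h3, h4⟩ := hℓ ℓ hl
  have h5 : a * ℓ + b ≤ (a + b + 1) * ℓ := by nlinarith
  have h6 : ((a + b + 1) * ℓ) ^ k ≤ 2 ^ ℓ := by
    rw [div_lt_div_iff₀ (by positivity) (by positivity)] at h3
    have h7 : ((((a + b + 1) * ℓ) ^ k : ℕ) : ℝ) ≤ ((2 ^ ℓ : ℕ) : ℝ) := by
      push_cast
      rw [mul_pow]
      push_cast at h3
      nlinarith
    exact_mod_cast h7
  exact (Nat.pow_le_pow_left h5 k).trans h6

end general

variable {V C : Type} [Fintype V] [DecidableEq V] [Fintype C] [DecidableEq C]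

/-- the free vertices -/
def UU {Q : Type} [DecidableEq Q] (κ : V → Q) (q0 : Q) : Finset V :=
  Finset.univ.filter (fun v => κ v = q0)

theorem mem_UU {Q : Type} [DecidableEq Q] {κ : V → Q} {q0 : Q} {v : V} :
    v ∈ UU κ q0 ↔ κ v = q0 := by simp [UU]

theorem Ex_sub_UU {Q : Type} [Fintype Q] [DecidableEq Q] (q0 : Q) (A : Finset V) :
    Ex (fun κ : V → Q => ind (A ⊆ UU κ q0)) = (1 / (Fintype.card Q : ℝ)) ^ A.card := by
  have : Nonempty Q := ⟨q0⟩
  rw [← Ex_agree A (fun _ => q0)]
  refine Ex_congr fun κ => ind_congr ?_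
  constructor
  · intro h v hv; exact mem_UU.1 (h hv)
  · intro h v hv; exact mem_UU.2 (h v hv)

theorem Ex_many_UU {Q : Type} [Fintype Q] [DecidableEq Q] (q0 : Q) (P : Finset V) (s : ℕ) :
    Ex (fun κ : V → Q => ind (s ≤ (P ∩ UU κ q0).card)) ≤
      (P.card : ℝ) ^ s * (1 / (Fintype.card Q : ℝ)) ^ s := by
  classical
  calc Ex (fun κ : V → Q => ind (s ≤ (P ∩ UU κ q0).card))
      ≤ Ex (fun κ : V → Q => ∑ A ∈ P.powersetCard s, ind (A ⊆ UU κ q0)) := by
        refine Ex_mono fun κ => (ind_mono ?_).trans (ind_exists_le _ _)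
        intro h
        obtain ⟨A, hA, hAc⟩ := Finset.exists_subset_card_eq h
        exact ⟨A, Finset.mem_powersetCard.2 ⟨hA.trans Finset.inter_subset_left, hAc⟩,
          hA.trans Finset.inter_subset_right⟩
    _ = ∑ A ∈ P.powersetCard s, Ex (fun κ : V → Q => ind (A ⊆ UU κ q0)) := Ex_sum _ _
    _ = ∑ A ∈ P.powersetCard s, (1 / (Fintype.card Q : ℝ)) ^ s := by
        refine Finset.sum_congr rfl fun A hA => ?_
        rw [Ex_sub_UU, (Finset.mem_powersetCard.1 hA).2]
    _ = (P.card.choose s : ℝ) * (1 / (Fintype.card Q : ℝ)) ^ s := by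
        rw [Finset.sum_const, Finset.card_powersetCard, nsmul_eq_mul]
    _ ≤ _ := by
        gcongr
        exact_mod_cast Nat.choose_le_pow P.card s

/-- `g` has certificates of size at most `w` for the value `True` -/
def Cert (w : ℕ) (g : Cfg V C → Prop) : Prop :=
  ∀ x, g x → ∃ T : Finset (Bit V C), T.card ≤ w ∧ ∀ y : Cfg V C, (∀ b ∈ T, y b = x b) → g y

/-- the restriction of `g` to the free bits `F`, the other bits given by `x`, depends on at most
`c` bits -/
def Jun (c : ℕ) (g : Cfg V C → Prop) (F : Finset (Bit V C)) (x : Cfg V C) : Prop :=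
  ∃ S : Finset (Bit V C), S.card ≤ c ∧ ∀ z z' : Cfg V C, (∀ b ∈ S, z b = z' b) →
    (g (mix F z x) ↔ g (mix F z' x))

theorem Jun.mono {c c' : ℕ} (h : c ≤ c') {g : Cfg V C → Prop} {F : Finset (Bit V C)}
    {x : Cfg V C} (hj : Jun c g F x) : Jun c' g F x := by
  obtain ⟨S, hS, h'⟩ := hj
  exact ⟨S, hS.trans h, h'⟩

theorem Jun_const {g : Cfg V C → Prop} {F : Finset (Bit V C)} {x : Cfg V C} (c : ℕ)
    (h : ∀ z, g (mix F z x)) : Jun c g F x :=
  ⟨∅, by simp, fun z z' _ => iff_of_true (h z) (h z')⟩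

/-- agreement with one of many disjoint partial assignments -/
theorem Ex_disjoint_le {ι : Type} [DecidableEq ι] (w : ℕ) (T : ι → Finset (Bit V C))
    (a : ι → Cfg V C) (I : Finset ι) (hw : ∀ i ∈ I, (T i).card ≤ w)
    (hd : ∀ i ∈ I, ∀ j ∈ I, i ≠ j → Disjoint (T i) (T j)) :
    Ex (fun x : Cfg V C => ind (∀ i ∈ I, ¬ ∀ b ∈ T i, x b = a i b)) ≤
      (1 - (1 / 2 : ℝ) ^ w) ^ I.card := by
  classical
  induction I using Finset.induction_on with
  | empty =>
    simp only [Finset.card_empty, pow_zero]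
    exact Ex_le_const fun x => ind_le_one _
  | insert j I hj ih =>
    have ih' := ih (fun i hi => hw i (Finset.mem_insert_of_mem hi))
      (fun i hi k hk => hd i (Finset.mem_insert_of_mem hi) k (Finset.mem_insert_of_mem hk))
    set f : Cfg V C → Prop := fun x => ∀ i ∈ I, ¬ ∀ b ∈ T i, x b = a i b with hf
    have hfmix : ∀ z x, f (mix (T j) z x) ↔ f x := by
      intro z x
      refine forall_congr' fun i => forall_congr' fun hi => not_congr ?_
      refine forall_congr' fun b => forall_congr' fun hb => ?_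
      have hne : j ≠ i := by rintro rfl; exact hj hi
      have hdis := hd j (Finset.mem_insert_self j I) i (Finset.mem_insert_of_mem hi) hne
      rw [mix_of_notMem (fun h => Finset.disjoint_left.1 hdis h hb)]
    have hprod : Ex (fun x : Cfg V C => ind (f x) * ind (∀ b ∈ T j, x b = a j b)) =
        Ex (fun x => ind (f x)) * (1 / 2 : ℝ) ^ (T j).card := by
      rw [← Ex_mix (T j)]
      have h1 : ∀ z x : Cfg V C, ind (f (mix (T j) z x)) *
          ind (∀ b ∈ T j, mix (T j) z x b = a j b) = ind (f x) * ind (∀ b ∈ T j, z b = a j b) := by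
        intro z x
        rw [ind_congr (hfmix z x)]
        congr 1
        refine ind_congr (forall_congr' fun b => forall_congr' fun hb => ?_)
        rw [mix_of_mem hb]
      simp only [h1]
      have h2 : ∀ z : Cfg V C, Ex (fun x : Cfg V C => ind (f x) * ind (∀ b ∈ T j, z b = a j b)) =
          Ex (fun x => ind (f x)) * ind (∀ b ∈ T j, z b = a j b) := fun z => Ex_mul_right _ _
      simp only [h2]
      rw [Ex_mul_left, Ex_agree]
      simp
    have hsplit : ∀ x : Cfg V C, ind (∀ i ∈ insert j I, ¬ ∀ b ∈ T i, x b = a i b) =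
        ind (f x) - ind (f x) * ind (∀ b ∈ T j, x b = a j b) := by
      intro x
      have : (∀ i ∈ insert j I, ¬ ∀ b ∈ T i, x b = a i b) ↔
          (f x ∧ ¬ ∀ b ∈ T j, x b = a j b) := by
        rw [Finset.forall_mem_insert]; tauto
      rw [ind_congr this, ind_and, ind_not]; ring
    simp only [hsplit]
    rw [Ex_sub, hprod, Finset.card_insert_of_notMem hj, pow_succ]
    have hf0 : 0 ≤ Ex (fun x : Cfg V C => ind (f x)) := Ex_nonneg fun _ => ind_nonneg _
    have hpw : (1 / 2 : ℝ) ^ w ≤ (1 / 2 : ℝ) ^ (T j).card :=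
      pow_le_pow_of_le_one (by norm_num) (by norm_num) (hw j (Finset.mem_insert_self j I))
    have h1w : (0 : ℝ) ≤ 1 - (1 / 2 : ℝ) ^ w := by
      have : (1 / 2 : ℝ) ^ w ≤ 1 := pow_le_one₀ (by norm_num) (by norm_num)
      linarith
    calc Ex (fun x => ind (f x)) - Ex (fun x => ind (f x)) * (1 / 2 : ℝ) ^ (T j).card
        = Ex (fun x => ind (f x)) * (1 - (1 / 2 : ℝ) ^ (T j).card) := by ring
      _ ≤ Ex (fun x => ind (f x)) * (1 - (1 / 2 : ℝ) ^ w) := by gcongr
      _ ≤ (1 - (1 / 2 : ℝ) ^ w) ^ I.card * (1 - (1 / 2 : ℝ) ^ w) := by gcongr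

theorem card_meet_le {ι : Type} [DecidableEq ι] (T : ι → Finset (Bit V C)) (I : Finset ι)
    (hd : ∀ i ∈ I, ∀ j ∈ I, i ≠ j → Disjoint (T i) (T j)) (F : Finset (Bit V C)) :
    (I.filter (fun i => ¬ Disjoint (T i) F)).card ≤ (I.biUnion T ∩ F).card := by
  classical
  set I' := I.filter (fun i => ¬ Disjoint (T i) F) with hI'
  have hd' : ∀ i ∈ I', ∀ j ∈ I', i ≠ j → Disjoint (T i ∩ F) (T j ∩ F) := by
    intro i hi j hj hij
    exact (hd i (Finset.mem_filter.1 hi).1 j (Finset.mem_filter.1 hj).1 hij).mono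
      Finset.inter_subset_left Finset.inter_subset_left
  calc I'.card = ∑ _i ∈ I', 1 := by simp
    _ ≤ ∑ i ∈ I', (T i ∩ F).card := by
        refine Finset.sum_le_sum fun i hi => ?_
        have := (Finset.mem_filter.1 hi).2
        rw [Finset.disjoint_iff_inter_eq_empty] at this
        exact Finset.card_pos.2 (Finset.nonempty_iff_ne_empty.2 this)
    _ = (I'.biUnion (fun i => T i ∩ F)).card := (Finset.card_biUnion hd').symm
    _ ≤ _ := by
        apply Finset.card_le_card
        intro b hb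
        obtain ⟨i, hi, hb⟩ := Finset.mem_biUnion.1 hb
        obtain ⟨h1, h2⟩ := Finset.mem_inter.1 hb
        exact Finset.mem_inter.2 ⟨Finset.mem_biUnion.2 ⟨i, (Finset.mem_filter.1 hi).1, h1⟩, h2⟩

/-- `T` with the values of `a` forces `g` to be true -/
def Forc (g : Cfg V C → Prop) (T : Finset (Bit V C)) (a : Cfg V C) : Prop :=
  ∀ y : Cfg V C, (∀ b ∈ T, y b = a b) → g y

/-- the configuration given by a set of bits -/
def cz (Z : Finset (Bit V C)) : Cfg V C := fun b => decide (b ∈ Z)

theorem Cert_restrict {w : ℕ} {g : Cfg V C → Prop} (hg : Cert (w + 1) g) {Y : Finset (Bit V C)}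
    (hY : ∀ T a, T.card ≤ w + 1 → Forc g T a → ¬ Disjoint T Y) (Z : Finset (Bit V C)) :
    Cert w (fun x => g (mix Y (cz Z) x)) := by
  intro x hx
  obtain ⟨T, hT, hf⟩ := hg _ hx
  have hne := hY T _ hT hf
  refine ⟨T \ Y, ?_, ?_⟩
  · have h1 : (T \ Y).card + (T ∩ Y).card = T.card := Finset.card_sdiff_add_card_inter T Y
    have h2 : 0 < (T ∩ Y).card := by
      rw [Finset.card_pos, Finset.nonempty_iff_ne_empty]
      intro h
      exact hne (Finset.disjoint_iff_inter_eq_empty.2 h)
    omega
  · intro y hy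
    apply hf
    intro b hb
    by_cases hbY : b ∈ Y
    · rw [mix_of_mem hbY, mix_of_mem hbY]
    · rw [mix_of_notMem hbY, mix_of_notMem hbY]
      exact hy b (Finset.mem_sdiff.2 ⟨hb, hbY⟩)

theorem Jun_combine {c β : ℕ} {g : Cfg V C → Prop} {Y F : Finset (Bit V C)} {x : Cfg V C}
    (hβ : (Y ∩ F).card ≤ β) (h : ∀ Z ⊆ Y, Jun c (fun x => g (mix Y (cz Z) x)) F x) :
    Jun (β + 2 ^ β * c) g F x := by
  classical
  have h' : ∀ Z : Finset (Bit V C), ∃ S : Finset (Bit V C), S.card ≤ c ∧ (Z ⊆ Y →
      ∀ z z' : Cfg V C, (∀ b ∈ S, z b = z' b) →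
        (g (mix Y (cz Z) (mix F z x)) ↔ g (mix Y (cz Z) (mix F z' x)))) := by
    intro Z
    by_cases hZ : Z ⊆ Y
    · obtain ⟨S, hS, hS'⟩ := h Z hZ
      exact ⟨S, hS, fun _ => hS'⟩
    · exact ⟨∅, by simp, fun h => absurd h hZ⟩
  choose S hSc hS using h'
  set base : Finset (Bit V C) := (Y \ F).filter (fun b => x b = true) with hbase
  refine ⟨(Y ∩ F) ∪ (Y ∩ F).powerset.biUnion (fun Z' => S (Z' ∪ base)), ?_, ?_⟩
  · refine (Finset.card_union_le _ _).trans (Nat.add_le_add hβ ?_)
    refine (Finset.card_biUnion_le_card_mul _ _ c fun Z' _ => hSc _).trans ?_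
    rw [Finset.card_powerset]
    exact Nat.mul_le_mul_right c (Nat.pow_le_pow_right (by norm_num) hβ)
  · intro z z' hzz
    set Z' := (Y ∩ F).filter (fun b => z b = true) with hZ'
    have hZsub : Z' ∪ base ⊆ Y := by
      intro b hb
      rcases Finset.mem_union.1 hb with hb | hb
      · exact (Finset.mem_inter.1 (Finset.mem_filter.1 hb).1).1
      · exact (Finset.mem_sdiff.1 (Finset.mem_filter.1 hb).1).1
    have hmixz : ∀ u : Cfg V C, (∀ b ∈ Y ∩ F, u b = z b) →
        mix Y (cz (Z' ∪ base)) (mix F u x) = mix F u x := by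
      intro u hu
      funext b
      by_cases hbY : b ∈ Y
      · rw [mix_of_mem hbY]
        unfold cz
        by_cases hbF : b ∈ F
        · rw [mix_of_mem hbF]
          have hbYF : b ∈ Y ∩ F := Finset.mem_inter.2 ⟨hbY, hbF⟩
          have : b ∈ Z' ∪ base ↔ u b = true := by
            rw [hu b hbYF, Finset.mem_union, hZ', hbase, Finset.mem_filter, Finset.mem_filter]
            simp [hbY, hbF]
          by_cases hc : u b = true
          · rw [hc]; simpa using this.2 hc
          · have hc' : u b = false := by simpa using hc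
            rw [hc']
            simpa using fun h => hc (this.1 h)
        · rw [mix_of_notMem hbF]
          have : b ∈ Z' ∪ base ↔ x b = true := by
            rw [Finset.mem_union, hZ', hbase, Finset.mem_filter, Finset.mem_filter]
            simp [hbY, hbF]
          by_cases hc : x b = true
          · rw [hc]; simpa using this.2 hc
          · have hc' : x b = false := by simpa using hc
            rw [hc']
            simpa using fun h => hc (this.1 h)
      · rw [mix_of_notMem hbY]
    have h1 := hmixz z (fun b _ => rfl)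
    have h2 := hmixz z' (fun b hb => (hzz b (Finset.mem_union_left _ hb)).symm)
    have h3 := hS (Z' ∪ base) hZsub z z' (by
      intro b hb
      apply hzz
      refine Finset.mem_union_right _ (Finset.mem_biUnion.2 ⟨Z', ?_, hb⟩)
      exact Finset.mem_powerset.2 (Finset.filter_subset _ _))
    rw [h1, h2] at h3
    exact h3

/-- either there are many disjoint forcing sets, or a small set meets all forcing sets -/
theorem forc_dichotomy (w L : ℕ) (g : Cfg V C → Prop) :
    (∃ (T : Fin L → Finset (Bit V C)) (a : Fin L → Cfg V C), (∀ i, (T i).card ≤ w) ∧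
      (∀ i, Forc g (T i) (a i)) ∧ ∀ i j, i ≠ j → Disjoint (T i) (T j)) ∨
    ∃ Y : Finset (Bit V C), Y.card ≤ L * w ∧
      ∀ T a, T.card ≤ w → Forc g T a → ¬ Disjoint T Y := by
  classical
  let P : ℕ → Prop := fun n => ∃ (T : Fin n → Finset (Bit V C)) (a : Fin n → Cfg V C),
    (∀ i, (T i).card ≤ w) ∧ (∀ i, Forc g (T i) (a i)) ∧ ∀ i j, i ≠ j → Disjoint (T i) (T j)
  by_cases hL : P L
  · exact Or.inl hL
  · right
    have hex : ∃ n, n < L ∧ P n ∧ ¬ P (n + 1) := by
      by_contra hcon
      push Not at hcon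
      have : ∀ n, n ≤ L → P n := by
        intro n
        induction n with
        | zero => intro _; exact ⟨Fin.elim0, Fin.elim0, fun i => i.elim0, fun i => i.elim0,
            fun i => i.elim0⟩
        | succ n ih => intro hn; exact hcon n (by omega) (ih (by omega))
      exact hL (this L le_rfl)
    obtain ⟨n, hnL, ⟨T, a, h1, h2, h3⟩, hn⟩ := hex
    refine ⟨Finset.univ.biUnion T, ?_, ?_⟩
    · refine (Finset.card_biUnion_le_card_mul _ _ w fun i _ => h1 i).trans ?_
      rw [Finset.card_univ, Fintype.card_fin]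
      exact Nat.mul_le_mul_right w hnL.le
    · intro T' a' hT' hf hdis
      apply hn
      refine ⟨Fin.cons T' T, Fin.cons a' a, ?_, ?_, ?_⟩
      · intro i
        refine Fin.cases ?_ (fun i => ?_) i
        · simpa using hT'
        · simpa using h1 i
      · intro i
        refine Fin.cases ?_ (fun i => ?_) i
        · simpa using hf
        · simpa using h2 i
      · have hd' : ∀ i, Disjoint T' (T i) := by
          intro i
          refine hdis.mono_right ?_
          intro b hb
          exact Finset.mem_biUnion.2 ⟨i, Finset.mem_univ i, hb⟩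
        intro i j
        refine Fin.cases ?_ (fun i => ?_) i
        · refine Fin.cases ?_ (fun j => ?_) j
          · intro h; exact absurd rfl h
          · intro _; simpa using hd' j
        · refine Fin.cases ?_ (fun j => ?_) j
          · intro _; simpa using (hd' i).symm
          · intro h
            simpa using h3 i j (fun h' => h (by rw [h']))

/-- the vertices of a set of bits -/
def VT (Y : Finset (Bit V C)) : Finset V := Y.biUnion vt

theorem card_VT_le (Y : Finset (Bit V C)) : (VT Y).card ≤ 2 * Y.card := by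
  rw [mul_comm]
  exact Finset.card_biUnion_le_card_mul _ _ 2 fun b _ => vt_card_le b

theorem card_inter_KB_le (Y : Finset (Bit V C)) (U : Finset V) {c1 : ℕ}
    (h : (VT Y ∩ U).card ≤ c1) : (Y ∩ KB U).card ≤ c1 ^ 2 + Fintype.card C * c1 := by
  have h1 : Y ∩ KB U ⊆ KB (VT Y ∩ U) := by
    intro b hb
    obtain ⟨hb1, hb2⟩ := Finset.mem_inter.1 hb
    rw [mem_KB]
    intro v hv
    exact Finset.mem_inter.2 ⟨Finset.mem_biUnion.2 ⟨b, hb1, hv⟩, mem_KB.1 hb2 hv⟩
  refine (Finset.card_le_card h1).trans ((card_KB _).trans ?_)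
  gcongr

end Pool.Agent.Helper704_ZO
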