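import Mathlib

/-!
Coloured ordered graphs as structures of Mathlib's first-order logic: the signature,
order-invariance and the labelled counting measure. These definitions are used in the statement of
the zero-one law for order-invariant first-order logic.
-/

namespace Pool.Agent.Helper704_ZO.FO

open FirstOrder

/-- The relation symbols: the edge relation and the order (binary), and one unary symbol for every
colour `c : C`. -/
inductive Sym (C : Type) : ℕ → Type
  | edge : Sym C 2
  | less : Sym C 2
  | col (c : C) : Sym C 1

/-- The signature of the ordered graphs with colours from `C`; equality belongs to the logic. -/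
def Sig (C : Type) : Language where
  Functions := fun _ => Empty
  Relations := Sym C

/-- The graph `G` with the colour predicates `P c` and the order relation `r`, as a structure. -/
@[reducible] def str {C V : Type} (G : SimpleGraph V) (P : C → V → Prop) (r : V → V → Prop) :
    (Sig C).Structure V where
  funMap := fun f _ => Empty.elim f
  RelMap := fun R => match R with
    | .edge => fun x => G.Adj (x 0) (x 1)
    | .less => fun x => r (x 0) (x 1)
    | .col c => fun x => P c (x 0)

/-- The graph `G` with the colour predicates `P c` and the order relation `r` satisfies the
first-order sentence `φ`. -/
def Models {C V : Type} (G : SimpleGraph V) (P : C → V → Prop) (r : V → V → Prop)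
    (φ : (Sig C).Sentence) : Prop :=
  @Language.Sentence.Realize (Sig C) V (str G P r) φ

/-- Order-invariance: on every finite coloured graph, the truth value of `φ` is the same for
all linear orders of the vertex set. -/
def OrderInvariant {C : Type} (φ : (Sig C).Sentence) : Prop :=
  ∀ (n : ℕ) (G : SimpleGraph (Fin n)) (P : C → Fin n → Prop) (r r' : Fin n → Fin n → Prop),
    IsStrictTotalOrder (Fin n) r → IsStrictTotalOrder (Fin n) r' →
      (Models G P r φ ↔ Models G P r' φ)

/-- The fraction of the labelled coloured graphs on `n` vertices that satisfy `φ`, where the
order is the natural order of `Fin n` (for an order-invariant `φ` every order gives the same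
value). -/
noncomputable def mu {C : Type} (φ : (Sig C).Sentence) (n : ℕ) : ℝ :=
  (Nat.card {S : SimpleGraph (Fin n) × (C → Fin n → Prop) // Models S.1 S.2 (· < ·) φ} : ℝ) /
    (Nat.card (SimpleGraph (Fin n) × (C → Fin n → Prop)) : ℝ)

end Pool.Agent.Helper704_ZO.FO
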