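import Pool.Agent.Helper704_ZO.Dnf

/-!
Bounded-depth circuits with gates of bounded fan-in become juntas under random vertex
restrictions.
-/

namespace Pool.Agent.Helper704_ZO

set_option linter.unusedSectionVars false
set_option linter.unusedVariables false

open Finset Function

/-- functions computed by circuits of depth `t` with OR and NOR gates of fan-in `m` on functions
of at most two bits -/
def Circ {V C : Type} (m : ℕ) : ℕ → (Cfg V C → Prop) → Prop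
  | 0, f => ∃ S : Finset (Bit V C), S.card ≤ 2 ∧
      ∀ x y : Cfg V C, (∀ b ∈ S, x b = y b) → (f x ↔ f y)
  | t + 1, f => ∃ g : Fin m → (Cfg V C → Prop), (∀ i, Circ m t (g i)) ∧
      ((∀ x, f x ↔ ∃ i, g i x) ∨ (∀ x, f x ↔ ¬ ∃ i, g i x))

section
variable {V C : Type} [Fintype V] [DecidableEq V] [Fintype C] [DecidableEq C]

theorem Jun_congr_not {c : ℕ} {g : Cfg V C → Prop} {F : Finset (Bit V C)} {x : Cfg V C} :
    Jun c (fun x => ¬ g x) F x ↔ Jun c g F x := by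
  unfold Jun
  simp only [not_iff_not]

theorem mix_mix_inter (F₁ F₂ : Finset (Bit V C)) (z x₁ x₀ : Cfg V C) :
    mix (F₁ ∩ F₂) z (mix F₁ x₁ x₀) = mix F₁ (mix F₂ z x₁) x₀ := by
  funext b
  by_cases h1 : b ∈ F₁ <;> by_cases h2 : b ∈ F₂ <;> simp [mix, h1, h2]

theorem Jun_of_restrict {c : ℕ} {f : Cfg V C → Prop} {F₁ F₂ : Finset (Bit V C)}
    {x₁ x₀ : Cfg V C} (h : Jun c (fun x => f (mix F₁ x x₀)) F₂ x₁) :
    Jun c f (F₁ ∩ F₂) (mix F₁ x₁ x₀) := by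
  obtain ⟨S, hS, hS'⟩ := h
  refine ⟨S, hS, fun z z' hzz => ?_⟩
  rw [mix_mix_inter, mix_mix_inter]
  exact hS' z z' hzz

theorem gate_bound {m c₁ c₂ K ℓ : ℕ} {Q₂ : Type} [Fintype Q₂] [DecidableEq Q₂] {q₂ : Q₂}
    (hdnf : ∀ g : Cfg V C → Prop, Cert c₁ g →
      Ex (fun κ : V → Q₂ => Ex (fun x : Cfg V C => ind (¬ Jun c₂ g (KB (UU κ q₂)) x))) ≤
        (1 / 2 : ℝ) ^ (K * ℓ))
    {f : Cfg V C → Prop} {g : Fin m → (Cfg V C → Prop)}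
    (hf : (∀ x, f x ↔ ∃ i, g i x) ∨ (∀ x, f x ↔ ¬ ∃ i, g i x))
    (F₁ : Finset (Bit V C)) (x₀ : Cfg V C) (hg : ∀ i, Jun c₁ (g i) F₁ x₀) :
    Ex (fun κ : V → Q₂ => Ex (fun x : Cfg V C =>
      ind (¬ Jun c₂ f (F₁ ∩ KB (UU κ q₂)) (mix F₁ x x₀)))) ≤ (1 / 2 : ℝ) ^ (K * ℓ) := by
  have hcert : Cert c₁ (fun x : Cfg V C => ∃ i, g i (mix F₁ x x₀)) := by
    rintro x ⟨i, hi⟩
    obtain ⟨S, hS, hS'⟩ := hg i
    refine ⟨S, hS, fun y hy => ⟨i, (hS' y x hy).2 hi⟩⟩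
  refine le_trans (Ex_mono fun κ => Ex_mono fun x => ind_mono ?_) (hdnf _ hcert)
  intro h hJ
  apply h
  apply Jun_of_restrict
  rcases hf with hf | hf
  · have : (fun x => f (mix F₁ x x₀)) = fun x : Cfg V C => ∃ i, g i (mix F₁ x x₀) := by
      funext x; exact propext (hf _)
    rw [this]; exact hJ
  · have : (fun x => f (mix F₁ x x₀)) = fun x : Cfg V C => ¬ ∃ i, g i (mix F₁ x x₀) := by
      funext x; exact propext (hf _)
    rw [this, Jun_congr_not]; exact hJ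

end

theorem circ_junta (C : Type) [Fintype C] [DecidableEq C] (μ t : ℕ) : ∀ K : ℕ, ∃ c ℓ₀ : ℕ,
    ∀ ℓ ≥ ℓ₀, ∃ (Q : Type) (_ : Fintype Q) (_ : DecidableEq Q) (q0 : Q),
      Fintype.card Q = 2 ^ (t * ℓ) ∧ ∀ (V : Type) [Fintype V] [DecidableEq V] (m : ℕ),
        m ≤ 2 ^ (μ * ℓ) → ∀ f : Cfg V C → Prop, Circ m t f →
          Ex (fun κ : V → Q => Ex (fun x : Cfg V C => ind (¬ Jun c f (KB (UU κ q0)) x))) ≤
            (1 / 2 : ℝ) ^ (K * ℓ) := by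
  induction t with
  | zero =>
    intro K
    refine ⟨2, 0, ?_⟩
    intro ℓ _
    refine ⟨Unit, inferInstance, inferInstance, (), by simp, ?_⟩
    intro V _ _ m _ f hf
    obtain ⟨S, hS, hS'⟩ := hf
    have hj : ∀ (F : Finset (Bit V C)) (x : Cfg V C), Jun 2 f F x := by
      intro F x
      refine ⟨S, hS, fun z z' hzz => hS' _ _ fun b hb => ?_⟩
      by_cases h : b ∈ F
      · rw [mix_of_mem h, mix_of_mem h, hzz b hb]
      · rw [mix_of_notMem h, mix_of_notMem h]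
    have hz : ∀ (κ : V → Unit) (x : Cfg V C), ind (¬ Jun 2 f (KB (UU κ ())) x) = 0 := by
      intro κ x
      exact ind_false (not_not.2 (hj _ _))
    simp only [hz, Ex_const]
    positivity
  | succ t ih =>
    intro K
    obtain ⟨c₁, ℓ₁, h₁⟩ := ih (K + 1 + μ)
    obtain ⟨c₂, ℓ₂, h₂⟩ := dnf_lemma C c₁ (K + 1)
    refine ⟨c₂, max (max ℓ₁ ℓ₂) 1, ?_⟩
    intro ℓ hℓ
    have hℓ1 : ℓ₁ ≤ ℓ := le_trans (le_trans (le_max_left _ _) (le_max_left _ _)) hℓ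
    have hℓ2 : ℓ₂ ≤ ℓ := le_trans (le_trans (le_max_right _ _) (le_max_left _ _)) hℓ
    have hℓ3 : 1 ≤ ℓ := le_trans (le_max_right _ _) hℓ
    obtain ⟨Q₁, i₁, i₂, q₁, hQ₁, hjun⟩ := h₁ ℓ hℓ1
    obtain ⟨Q₂, i₃, i₄, q₂, hQ₂⟩ : ∃ (Q : Type) (_ : Fintype Q) (_ : DecidableEq Q) (_ : Q),
        Fintype.card Q = 2 ^ ℓ :=
      ⟨Fin (2 ^ ℓ), inferInstance, inferInstance, ⟨0, Nat.pow_pos (by norm_num)⟩,
        Fintype.card_fin _⟩
    refine ⟨Q₁ × Q₂, inferInstance, inferInstance, (q₁, q₂), ?_, ?_⟩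
    · rw [Fintype.card_prod, hQ₁, hQ₂, ← pow_add]
      congr 1
      ring
    intro V _ _ m hm f hf
    obtain ⟨g, hg, hfg⟩ := hf
    have hQ₁ne : Nonempty Q₁ := ⟨q₁⟩
    have hQ₂ne : Nonempty (Q₂) := ⟨q₂⟩
    set e := Equiv.arrowProdEquivProdArrow V (fun _ => Q₁) (fun _ => Q₂) with he
    have hUU : ∀ κ : V → Q₁ × Q₂, UU κ (q₁, q₂) = UU (e κ).1 q₁ ∩ UU (e κ).2 q₂ := by
      intro κ
      ext v
      rw [Finset.mem_inter, mem_UU, mem_UU, mem_UU, Prod.ext_iff]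
      rfl
    have hstep : Ex (fun κ : V → Q₁ × Q₂ => Ex (fun x : Cfg V C =>
        ind (¬ Jun c₂ f (KB (UU κ (q₁, q₂))) x))) =
        Ex (fun κ₁ : V → Q₁ => Ex (fun x₀ : Cfg V C => Ex (fun κ₂ : V → Q₂ =>
          Ex (fun x₁ : Cfg V C => ind (¬ Jun c₂ f (KB (UU κ₁ q₁) ∩ KB (UU κ₂ q₂))
            (mix (KB (UU κ₁ q₁)) x₁ x₀)))))) := by
      calc Ex (fun κ : V → Q₁ × Q₂ => Ex (fun x : Cfg V C =>
            ind (¬ Jun c₂ f (KB (UU κ (q₁, q₂))) x)))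
          = Ex (fun κ : V → Q₁ × Q₂ =>
              (fun p : (V → Q₁) × (V → Q₂) => Ex (fun x : Cfg V C =>
                ind (¬ Jun c₂ f (KB (UU p.1 q₁) ∩ KB (UU p.2 q₂)) x))) (e κ)) := by
            refine Ex_congr fun κ => ?_
            simp only [hUU, KB_inter]
        _ = Ex (fun p : (V → Q₁) × (V → Q₂) => Ex (fun x : Cfg V C =>
                ind (¬ Jun c₂ f (KB (UU p.1 q₁) ∩ KB (UU p.2 q₂)) x))) :=
              Ex_equiv e (fun p : (V → Q₁) × (V → Q₂) => Ex (fun x : Cfg V C =>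
                ind (¬ Jun c₂ f (KB (UU p.1 q₁) ∩ KB (UU p.2 q₂)) x)))
        _ = Ex (fun κ₁ : V → Q₁ => Ex (fun κ₂ : V → Q₂ => Ex (fun x : Cfg V C =>
                ind (¬ Jun c₂ f (KB (UU κ₁ q₁) ∩ KB (UU κ₂ q₂)) x)))) :=
              (Ex_prod (fun (κ₁ : V → Q₁) (κ₂ : V → Q₂) => Ex (fun x : Cfg V C =>
                ind (¬ Jun c₂ f (KB (UU κ₁ q₁) ∩ KB (UU κ₂ q₂)) x)))).symm
        _ = Ex (fun κ₁ : V → Q₁ => Ex (fun κ₂ : V → Q₂ => Ex (fun x₀ : Cfg V C =>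
              Ex (fun x₁ : Cfg V C => ind (¬ Jun c₂ f (KB (UU κ₁ q₁) ∩ KB (UU κ₂ q₂))
                (mix (KB (UU κ₁ q₁)) x₁ x₀)))))) := by
            refine Ex_congr fun κ₁ => Ex_congr fun κ₂ => ?_
            rw [← Ex_mix (KB (UU κ₁ q₁)), Ex_comm]
        _ = _ := Ex_congr fun κ₁ => Ex_comm _
    rw [hstep]
    have hin : ∀ (κ₁ : V → Q₁) (x₀ : Cfg V C), Ex (fun κ₂ : V → Q₂ =>
          Ex (fun x₁ : Cfg V C => ind (¬ Jun c₂ f (KB (UU κ₁ q₁) ∩ KB (UU κ₂ q₂))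
            (mix (KB (UU κ₁ q₁)) x₁ x₀)))) ≤
          ∑ i : Fin m, ind (¬ Jun c₁ (g i) (KB (UU κ₁ q₁)) x₀) +
            (1 / 2 : ℝ) ^ ((K + 1) * ℓ) := by
      intro κ₁ x₀
      by_cases hall : ∀ i, Jun c₁ (g i) (KB (UU κ₁ q₁)) x₀
      · have h3 := gate_bound (K := K + 1) (ℓ := ℓ) (q₂ := q₂)
          (fun g hg => h₂ ℓ hℓ2 V Q₂ q₂ hQ₂ g hg) hfg
          (KB (UU κ₁ q₁)) x₀ hall
        have h4 : 0 ≤ ∑ i : Fin m, ind (¬ Jun c₁ (g i) (KB (UU κ₁ q₁)) x₀) :=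
          Finset.sum_nonneg fun _ _ => ind_nonneg _
        linarith
      · push Not at hall
        obtain ⟨i, hi⟩ := hall
        have h3 : Ex (fun κ₂ : V → Q₂ =>
          Ex (fun x₁ : Cfg V C => ind (¬ Jun c₂ f (KB (UU κ₁ q₁) ∩ KB (UU κ₂ q₂))
            (mix (KB (UU κ₁ q₁)) x₁ x₀)))) ≤ 1 :=
          Ex_le_const fun κ₂ => Ex_le_const fun x₁ => ind_le_one _
        have h4 : (1 : ℝ) ≤ ∑ i : Fin m, ind (¬ Jun c₁ (g i) (KB (UU κ₁ q₁)) x₀) := by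
          calc (1 : ℝ) = ind (¬ Jun c₁ (g i) (KB (UU κ₁ q₁)) x₀) := (ind_true hi).symm
            _ ≤ _ := Finset.single_le_sum
              (f := fun i => ind (¬ Jun c₁ (g i) (KB (UU κ₁ q₁)) x₀))
              (fun j _ => ind_nonneg _) (Finset.mem_univ i)
        have h5 : (0 : ℝ) ≤ (1 / 2 : ℝ) ^ ((K + 1) * ℓ) := by positivity
        linarith
    calc _ ≤ Ex (fun κ₁ : V → Q₁ => Ex (fun x₀ : Cfg V C =>
          ∑ i : Fin m, ind (¬ Jun c₁ (g i) (KB (UU κ₁ q₁)) x₀) +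
            (1 / 2 : ℝ) ^ ((K + 1) * ℓ))) := Ex_mono fun κ₁ => Ex_mono fun x₀ => hin κ₁ x₀
      _ = ∑ i : Fin m, Ex (fun κ₁ : V → Q₁ => Ex (fun x₀ : Cfg V C =>
          ind (¬ Jun c₁ (g i) (KB (UU κ₁ q₁)) x₀))) + (1 / 2 : ℝ) ^ ((K + 1) * ℓ) := by
          rw [← Ex_sum]
          have : ∀ κ₁ : V → Q₁, Ex (fun x₀ : Cfg V C =>
              ∑ i : Fin m, ind (¬ Jun c₁ (g i) (KB (UU κ₁ q₁)) x₀) +
                (1 / 2 : ℝ) ^ ((K + 1) * ℓ)) =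
              ∑ i : Fin m, Ex (fun x₀ : Cfg V C => ind (¬ Jun c₁ (g i) (KB (UU κ₁ q₁)) x₀)) +
                (1 / 2 : ℝ) ^ ((K + 1) * ℓ) := by
            intro κ₁
            rw [Ex_add, Ex_const, Ex_sum]
          simp only [this]
          rw [Ex_add, Ex_const]
      _ ≤ ∑ _i : Fin m, (1 / 2 : ℝ) ^ ((K + 1 + μ) * ℓ) + (1 / 2 : ℝ) ^ ((K + 1) * ℓ) := by
          gcongr with i _
          exact hjun V m hm (g i) (hg i)
      _ = m * (1 / 2 : ℝ) ^ ((K + 1 + μ) * ℓ) + (1 / 2 : ℝ) ^ ((K + 1) * ℓ) := by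
          rw [Finset.sum_const, Finset.card_univ, Fintype.card_fin, nsmul_eq_mul]
      _ ≤ (1 / 2 : ℝ) ^ ((K + 1) * ℓ) + (1 / 2 : ℝ) ^ ((K + 1) * ℓ) := by
          have h6 : (m : ℝ) ≤ 2 ^ (μ * ℓ) := by exact_mod_cast hm
          have h7 : (1 / 2 : ℝ) ^ ((K + 1 + μ) * ℓ) =
              (1 / 2 : ℝ) ^ ((K + 1) * ℓ) * (1 / 2 : ℝ) ^ (μ * ℓ) := by
            rw [← pow_add]; congr 1; ring
          have h8 : (2 : ℝ) ^ (μ * ℓ) * (1 / 2 : ℝ) ^ (μ * ℓ) = 1 := by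
            rw [← mul_pow]; norm_num
          have h9 : (m : ℝ) * (1 / 2 : ℝ) ^ ((K + 1 + μ) * ℓ) ≤ (1 / 2 : ℝ) ^ ((K + 1) * ℓ) := by
            calc (m : ℝ) * (1 / 2 : ℝ) ^ ((K + 1 + μ) * ℓ)
                ≤ 2 ^ (μ * ℓ) * (1 / 2 : ℝ) ^ ((K + 1 + μ) * ℓ) := by gcongr
              _ = (1 / 2 : ℝ) ^ ((K + 1) * ℓ) *
                  ((2 : ℝ) ^ (μ * ℓ) * (1 / 2 : ℝ) ^ (μ * ℓ)) := by rw [h7]; ring
              _ = _ := by rw [h8, mul_one]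
          linarith
      _ ≤ _ := two_half hℓ3

end Pool.Agent.Helper704_ZO
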