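import Pool.Agent.Helper704_ZO.Hybrid

/-!
Marked tuples of bits and the basic recursion.
-/

namespace Pool.Agent.Helper704_ZO

set_option linter.unusedSectionVars false
set_option linter.unusedVariables false

open Finset Function

variable {V C : Type} [Fintype V] [DecidableEq V] [Fintype C] [DecidableEq C]

/-- the bits: ordered pairs of vertices, and pairs (colour, vertex) -/
abbrev Bit (V C : Type) := (V × V) ⊕ (C × V)

/-- configurations -/
abbrev Cfg (V C : Type) := Bit V C → Bool

/-- the vertices of a bit -/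
def vt : Bit V C → Finset V
  | .inl p => {p.1, p.2}
  | .inr p => {p.2}

theorem vt_card_le (b : Bit V C) : (vt b).card ≤ 2 := by
  rcases b with p | p
  · exact Finset.card_le_two
  · simp [vt]

theorem vt_nonempty (b : Bit V C) : (vt b).Nonempty := by
  rcases b with p | p
  · exact ⟨p.1, by simp [vt]⟩
  · exact ⟨p.2, by simp [vt]⟩

/-- the bits with all vertices in `X` -/
def KB (X : Finset V) : Finset (Bit V C) := Finset.univ.filter (fun b => vt b ⊆ X)

theorem mem_KB {X : Finset V} {b : Bit V C} : b ∈ KB X ↔ vt b ⊆ X := by simp [KB]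

theorem KB_mono {X Y : Finset V} (h : X ⊆ Y) : (KB X : Finset (Bit V C)) ⊆ KB Y := by
  intro b hb
  exact mem_KB.2 ((mem_KB.1 hb).trans h)

theorem KB_inter (X Y : Finset V) : (KB (X ∩ Y) : Finset (Bit V C)) = KB X ∩ KB Y := by
  ext b
  simp [mem_KB, Finset.subset_inter_iff]

theorem card_KB (X : Finset V) :
    (KB X : Finset (Bit V C)).card ≤ X.card ^ 2 + Fintype.card C * X.card := by
  have h : (KB X : Finset (Bit V C)) ⊆
      (X ×ˢ X).disjSum ((Finset.univ : Finset C) ×ˢ X) := by
    intro b hb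
    have hb' := mem_KB.1 hb
    rcases b with p | p
    · simp only [Finset.inl_mem_disjSum, Finset.mem_product]
      exact ⟨hb' (by simp [vt]), hb' (by simp [vt])⟩
    · simp only [Finset.inr_mem_disjSum, Finset.mem_product, Finset.mem_univ, true_and]
      exact hb' (by simp [vt])
  refine (Finset.card_le_card h).trans ?_
  rw [Finset.card_disjSum, Finset.card_product, Finset.card_product, Finset.card_univ, sq]

/-- the bit `b` is relevant for `f` at `x` when the bits in `Y` are free -/
def Rel (f : Cfg V C → Prop) (Y : Finset (Bit V C)) (b : Bit V C) (x : Cfg V C) : Prop :=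
  ∃ z, ¬ (f (mix Y (flp b z) x) ↔ f (mix Y z x))

/-- the vertices of a tuple of bits -/
def XX {r : ℕ} (e : Fin r → Bit V C) : Finset V := Finset.univ.biUnion (fun i => vt (e i))

theorem mem_XX {r : ℕ} {e : Fin r → Bit V C} {v : V} : v ∈ XX e ↔ ∃ i, v ∈ vt (e i) := by
  simp [XX]

theorem vt_subset_XX {r : ℕ} (e : Fin r → Bit V C) (i : Fin r) : vt (e i) ⊆ XX e :=
  fun v hv => mem_XX.2 ⟨i, hv⟩

theorem XX_cons {r : ℕ} (b : Bit V C) (e : Fin r → Bit V C) :
    XX (Fin.cons b e : Fin (r + 1) → Bit V C) = vt b ∪ XX e := by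
  ext v
  simp [mem_XX, Fin.exists_fin_succ]

theorem card_XX_le {r : ℕ} (e : Fin r → Bit V C) : (XX e).card ≤ 2 * r := by
  refine (Finset.card_biUnion_le).trans ?_
  refine (Finset.sum_le_sum fun i _ => vt_card_le (e i)).trans ?_
  simp [mul_comm]

/-- every bit of the tuple is relevant for some function of the family when all the bits on the
vertices of the tuple are free -/
def MM {ι : Type} {r : ℕ} (f : ι → Cfg V C → Prop) (e : Fin r → Bit V C) (x : Cfg V C) : Prop :=
  ∀ i, ∃ j, Rel (f j) (KB (XX e)) (e i) x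

theorem MM_mix {ι : Type} {r : ℕ} (f : ι → Cfg V C → Prop) (e : Fin r → Bit V C)
    {b : Bit V C} (hb : b ∈ KB (XX e)) (x : Cfg V C) : MM f e (flp b x) ↔ MM f e x := by
  unfold MM Rel
  simp only [mix_flp_of_mem hb]

theorem Dv_MM_mem {ι : Type} {r : ℕ} (f : ι → Cfg V C → Prop) (e : Fin r → Bit V C)
    {b : Bit V C} (hb : b ∈ KB (XX e)) (x : Cfg V C) : ¬ Dv b (MM f e) x := by
  unfold Dv
  rw [not_not]
  exact MM_mix f e hb x

theorem Dv_MM {ι : Type} {r : ℕ} (f : ι → Cfg V C → Prop) (e : Fin r → Bit V C)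
    {b : Bit V C} (hb : b ∉ KB (XX e)) (x : Cfg V C) (h : Dv b (MM f e) x) :
    MM f (Fin.cons b e : Fin (r + 1) → Bit V C) x := by
  set X' := XX (Fin.cons b e : Fin (r + 1) → Bit V C) with hX'
  have hsub : XX e ⊆ X' := by rw [hX', XX_cons]; exact Finset.subset_union_right
  have hbX' : b ∈ (KB X' : Finset (Bit V C)) := by
    rw [mem_KB, hX', XX_cons]; exact Finset.subset_union_left
  have hKsub : (KB (XX e) : Finset (Bit V C)) ⊆ KB X' := KB_mono hsub
  -- wlog
  have key : ∀ x, MM f e x → ¬ MM f e (flp b x) →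
      MM f (Fin.cons b e : Fin (r + 1) → Bit V C) x := by
    intro x h1 h2
    have hup : ∀ {g : Cfg V C → Prop} {c : Bit V C}, c ∈ (KB (XX e) : Finset (Bit V C)) →
        Rel g (KB (XX e)) c x → Rel g (KB X') c x := by
      intro g c hc hg
      obtain ⟨z, hz⟩ := hg
      refine ⟨mix (KB (XX e)) z x, ?_⟩
      have e1 : mix (KB X') (mix (KB (XX e)) z x) x = mix (KB (XX e)) z x := by
        funext d
        by_cases hd : d ∈ (KB X' : Finset (Bit V C))
        · rw [mix_of_mem hd]
        · rw [mix_of_notMem hd, mix_of_notMem (fun h => hd (hKsub h))]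
      rw [flp_mix_of_mem (hKsub hc), e1, ← flp_mix_of_mem hc]
      exact hz
    have hb' : ∃ j, Rel (f j) (KB X') b x := by
      unfold MM at h2
      push Not at h2
      obtain ⟨i, hi⟩ := h2
      obtain ⟨j, z, hz⟩ := h1 i
      have hij := hi j
      unfold Rel at hij
      push Not at hij
      have hij' := hij z
      have hci : e i ∈ (KB (XX e) : Finset (Bit V C)) := mem_KB.2 (vt_subset_XX e i)
      rw [flp_mix_of_notMem hb, flp_mix_of_notMem hb] at hij'
      set u := mix (KB (XX e)) z x with hu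
      have hu' : mix (KB (XX e)) (flp (e i) z) x = flp (e i) u := flp_mix_of_mem hci
      rw [hu'] at hz hij'
      have hmix : ∀ y : Cfg V C, (∀ d, d ∉ (KB (XX e) : Finset (Bit V C)) → y d = x d) →
          mix (KB X') y x = y := by
        intro y hy
        funext d
        by_cases hd : d ∈ (KB X' : Finset (Bit V C))
        · rw [mix_of_mem hd]
        · rw [mix_of_notMem hd, hy d (fun h => hd (hKsub h))]
      have huX : ∀ d, d ∉ (KB (XX e) : Finset (Bit V C)) → u d = x d :=
        fun d hd => mix_of_notMem hd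
      have hu'X : ∀ d, d ∉ (KB (XX e) : Finset (Bit V C)) → flp (e i) u d = x d := by
        intro d hd
        rw [flp_of_ne (by rintro rfl; exact hd hci)]
        exact huX d hd
      by_cases hcase : f j (flp b u) ↔ f j u
      · refine ⟨j, flp (e i) u, ?_⟩
        rw [flp_mix_of_mem hbX', hmix _ hu'X]
        intro hcon
        apply hz
        rw [← hcon, hij', hcase]
      · refine ⟨j, u, ?_⟩
        rw [flp_mix_of_mem hbX', hmix _ huX]
        exact hcase
    intro i
    refine Fin.cases ?_ (fun i => ?_) i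
    · simpa using hb'
    · obtain ⟨j, hj⟩ := h1 i
      refine ⟨j, ?_⟩
      rw [Fin.cons_succ]
      exact hup (mem_KB.2 (vt_subset_XX e i)) hj
  by_cases h1 : MM f e x
  · have h2 : ¬ MM f e (flp b x) := by
      intro h2; exact h (iff_of_true h2 h1)
    exact key x h1 h2
  · have h2 : MM f e (flp b x) := by
      by_contra h2; exact h (iff_of_false h2 h1)
    have h3 := key (flp b x) h2 (by rw [flp_flp]; exact h1)
    exact (MM_mix f (Fin.cons b e : Fin (r + 1) → Bit V C) hbX' x).1 h3

/-- each bit has a vertex which is not a vertex of the following bits -/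
def Good : ∀ {r : ℕ}, (Fin r → Bit V C) → Prop
  | 0, _ => True
  | _ + 1, e => ¬ vt (e 0) ⊆ XX (Fin.tail e) ∧ Good (Fin.tail e)

open Classical in
/-- the set of good tuples -/
noncomputable def TS (V C : Type) [Fintype V] [DecidableEq V] [Fintype C] [DecidableEq C]
    (r : ℕ) : Finset (Fin r → Bit V C) :=
  Finset.univ.filter (fun e => Good e)

theorem mem_TS {r : ℕ} {e : Fin r → Bit V C} : e ∈ TS V C r ↔ Good e := by simp [TS]

theorem Good_cons {r : ℕ} (b : Bit V C) (e : Fin r → Bit V C) :
    Good (Fin.cons b e : Fin (r + 1) → Bit V C) ↔ ¬ vt b ⊆ XX e ∧ Good e := by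
  simp [Good]

theorem sum_TS_succ {r : ℕ} (h : (Fin (r + 1) → Bit V C) → ℝ) :
    ∑ e ∈ TS V C (r + 1), h e =
      ∑ e ∈ TS V C r, ∑ b ∈ Finset.univ.filter (fun b => b ∉ KB (XX e)), h (Fin.cons b e) := by
  classical
  rw [Finset.sum_sigma']
  symm
  refine Finset.sum_bij (fun p _ => (Fin.cons p.2 p.1 : Fin (r + 1) → Bit V C)) ?_ ?_ ?_ ?_
  · rintro ⟨e, b⟩ hp
    simp only [Finset.mem_sigma, mem_TS, Finset.mem_filter, Finset.mem_univ, true_and] at hp
    rw [mem_TS, Good_cons]
    exact ⟨fun h => hp.2 (mem_KB.2 h), hp.1⟩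
  · rintro ⟨e, b⟩ _ ⟨e', b'⟩ _ hee
    have h1 := congrFun hee 0
    simp only [Fin.cons_zero] at h1
    have h2 : e = e' := by
      funext i
      have := congrFun hee i.succ
      simpa using this
    subst h1 h2
    rfl
  · intro e he
    rw [mem_TS] at he
    refine ⟨⟨Fin.tail e, e 0⟩, ?_, Fin.cons_self_tail e⟩
    simp only [Finset.mem_sigma, mem_TS, Finset.mem_filter, Finset.mem_univ, true_and]
    exact ⟨he.2, fun h => he.1 (mem_KB.1 h)⟩
  · rintro ⟨e, b⟩ _
    rfl

/-- the sum of the maximal coupled probabilities over all good tuples -/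
noncomputable def AA {ι κ : Type} (r : ℕ) (f : ι → Cfg V C → Prop) (g : κ → Cfg V C → Prop) : ℝ :=
  ∑ e ∈ TS V C r, Phi (MM f e) (MM g e)

/-- the sum of the products over all good tuples -/
noncomputable def PP {ι κ : Type} (r : ℕ) (f : ι → Cfg V C → Prop) (g : κ → Cfg V C → Prop) : ℝ :=
  ∑ e ∈ TS V C r, Ex (fun x => ind (MM f e x)) * Ex (fun x => ind (MM g e x))

theorem AA_rec {ι κ : Type} (r : ℕ) (f : ι → Cfg V C → Prop) (g : κ → Cfg V C → Prop) :
    AA r f g ≤ PP r f g + AA (r + 1) f g := by
  unfold AA PP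
  rw [sum_TS_succ, ← Finset.sum_add_distrib]
  refine Finset.sum_le_sum fun e _ => ?_
  refine (Phi_rec _ _).trans ?_
  have h : ∑ b : Bit V C, Phi (Dv b (MM f e)) (Dv b (MM g e)) ≤
      ∑ b ∈ Finset.univ.filter (fun b => b ∉ KB (XX e)),
        Phi (MM f (Fin.cons b e : Fin (r + 1) → Bit V C))
          (MM g (Fin.cons b e : Fin (r + 1) → Bit V C)) := by
    rw [← Finset.sum_filter_add_sum_filter_not Finset.univ
      (fun b => b ∉ (KB (XX e) : Finset (Bit V C)))]
    have hz : ∑ b ∈ Finset.univ.filter (fun b => ¬ b ∉ (KB (XX e) : Finset (Bit V C))),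
        Phi (Dv b (MM f e)) (Dv b (MM g e)) = 0 := by
      refine Finset.sum_eq_zero fun b hb => ?_
      simp only [Finset.mem_filter, Finset.mem_univ, true_and, not_not] at hb
      exact Phi_zero_left (fun x => Dv_MM_mem f e hb x)
    rw [hz, add_zero]
    refine Finset.sum_le_sum fun b hb => ?_
    simp only [Finset.mem_filter, Finset.mem_univ, true_and] at hb
    exact Phi_mono (fun x hx => Dv_MM f e hb x hx) (fun x hx => Dv_MM g e hb x hx)
  linarith

theorem AA_nonneg {ι κ : Type} (r : ℕ) (f : ι → Cfg V C → Prop) (g : κ → Cfg V C → Prop) :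
    0 ≤ AA r f g := Finset.sum_nonneg fun _ _ => Phi_nonneg _ _

theorem AA_iter {ι κ : Type} (r k : ℕ) (f : ι → Cfg V C → Prop) (g : κ → Cfg V C → Prop) :
    AA r f g ≤ ∑ j ∈ Finset.range k, PP (r + j) f g + AA (r + k) f g := by
  induction k with
  | zero => simp
  | succ k ih =>
    rw [Finset.sum_range_succ]
    have := AA_rec (r + k) f g
    have e : r + (k + 1) = r + k + 1 := by omega
    rw [e]
    linarith

/-- the first step, for a single function -/
theorem Phi_single (f g : Cfg V C → Prop) :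
    Phi f g ≤ Ex (fun x => ind (f x)) * Ex (fun x => ind (g x)) +
      AA 1 (fun _ : Unit => f) (fun _ : Unit => g) := by
  refine (Phi_rec _ _).trans ?_
  have h : ∑ b : Bit V C, Phi (Dv b f) (Dv b g) ≤ AA 1 (fun _ : Unit => f) (fun _ : Unit => g) := by
    unfold AA
    rw [sum_TS_succ]
    have hTS : TS V C 0 = {Fin.elim0} := by
      ext e
      rw [mem_TS, Finset.mem_singleton]
      simp [Good, Subsingleton.elim e Fin.elim0]
    rw [hTS, Finset.sum_singleton]
    have hX : XX (Fin.elim0 : Fin 0 → Bit V C) = ∅ := by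
      ext v; simp [mem_XX]
    have hfil : Finset.univ.filter (fun b : Bit V C => b ∉ KB (XX (Fin.elim0 : Fin 0 → Bit V C))) =
        Finset.univ := by
      ext b
      simp only [Finset.mem_filter, Finset.mem_univ, true_and, iff_true]
      rw [mem_KB, hX]
      intro h
      obtain ⟨v, hv⟩ := vt_nonempty b
      exact absurd (h hv) (Finset.notMem_empty v)
    rw [hfil]
    have hD : ∀ (g : Cfg V C → Prop) (b : Bit V C) (x : Cfg V C), Dv b g x →
        MM (fun _ : Unit => g) (Fin.cons b (Fin.elim0 : Fin 0 → Bit V C) : Fin 1 → Bit V C) x := by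
      intro g b x hx i
      have hb : b ∈ (KB (XX (Fin.cons b (Fin.elim0 : Fin 0 → Bit V C) : Fin 1 → Bit V C)) :
          Finset (Bit V C)) := by
        rw [mem_KB, XX_cons]; exact Finset.subset_union_left
      refine ⟨(), x, ?_⟩
      have hi : i = 0 := by
        apply Fin.ext
        have := i.2
        simp only [Fin.val_zero]
        omega
      subst hi
      rw [Fin.cons_zero, flp_mix_of_mem hb, mix_self]
      exact hx
    exact Finset.sum_le_sum fun b _ => Phi_mono (hD f b) (hD g b)
  linarith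

end Pool.Agent.Helper704_ZO
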