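import Pool.Agent.Helper704_ZO.Marks

/-!
The action of the permutations of the vertices, and averages over permutations.
-/

namespace Pool.Agent.Helper704_ZO

set_option linter.unusedSectionVars false
set_option linter.unusedVariables false

open Finset Function

variable {V C : Type} [Fintype V] [DecidableEq V] [Fintype C] [DecidableEq C]

/-- the action on bits -/
def pB (π : Equiv.Perm V) : Equiv.Perm (Bit V C) :=
  Equiv.sumCongr (Equiv.prodCongr π π) (Equiv.prodCongr (Equiv.refl C) π)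

/-- the action on configurations -/
def act (π : Equiv.Perm V) : Cfg V C ≃ Cfg V C := Equiv.arrowCongr (pB π) (Equiv.refl Bool)

theorem act_apply (π : Equiv.Perm V) (x : Cfg V C) (b : Bit V C) :
    act π x b = x ((pB π).symm b) := rfl

theorem act_pB (π : Equiv.Perm V) (x : Cfg V C) (b : Bit V C) :
    act π x (pB π b) = x b := by rw [act_apply, Equiv.symm_apply_apply]

theorem vt_pB (π : Equiv.Perm V) (b : Bit V C) : vt (pB π b) = (vt b).image π := by
  rcases b with p | p
  · simp [pB, vt, Finset.image_insert]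
  · simp [pB, vt]

theorem pB_mem_KB (π : Equiv.Perm V) (X : Finset V) (b : Bit V C) :
    pB π b ∈ (KB (X.image π) : Finset (Bit V C)) ↔ b ∈ (KB X : Finset (Bit V C)) := by
  rw [mem_KB, mem_KB, vt_pB, Finset.image_subset_image_iff π.injective]

theorem XX_pB (π : Equiv.Perm V) {r : ℕ} (e : Fin r → Bit V C) :
    XX (fun i => pB π (e i)) = (XX e).image π := by
  ext v
  simp only [mem_XX, vt_pB, Finset.mem_image]
  constructor
  · rintro ⟨i, a, ha, rfl⟩; exact ⟨a, ⟨i, ha⟩, rfl⟩
  · rintro ⟨a, ⟨i, ha⟩, rfl⟩; exact ⟨i, a, ha, rfl⟩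

theorem act_mix (π : Equiv.Perm V) (X : Finset V) (z x : Cfg V C) :
    act π (mix (KB X) z x) = mix (KB (X.image π)) (act π z) (act π x) := by
  funext c
  obtain ⟨b, rfl⟩ := (pB (C := C) π).surjective c
  rw [act_pB]
  by_cases h : b ∈ (KB X : Finset (Bit V C))
  · rw [mix_of_mem h, mix_of_mem ((pB_mem_KB π X b).2 h), act_pB]
  · rw [mix_of_notMem h, mix_of_notMem (fun h' => h ((pB_mem_KB π X b).1 h')), act_pB]

theorem act_flp (π : Equiv.Perm V) (b : Bit V C) (z : Cfg V C) :
    act π (flp b z) = flp (pB π b) (act π z) := by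
  funext c
  obtain ⟨d, rfl⟩ := (pB (C := C) π).surjective c
  rw [act_pB]
  by_cases h : d = b
  · subst h; rw [flp_self, flp_self, act_pB]
  · rw [flp_of_ne h, flp_of_ne (fun h' => h ((pB π).injective h')), act_pB]

theorem Rel_act (π : Equiv.Perm V) (g : Cfg V C → Prop) (X : Finset V) (b : Bit V C)
    (x : Cfg V C) : Rel (fun x => g (act π x)) (KB X) b x ↔
      Rel g (KB (X.image π)) (pB π b) (act π x) := by
  unfold Rel
  simp only [act_mix, act_flp]
  constructor
  · rintro ⟨z, hz⟩; exact ⟨act π z, hz⟩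
  · rintro ⟨z, hz⟩
    refine ⟨(act π).symm z, ?_⟩
    rw [Equiv.apply_symm_apply]
    exact hz

theorem MM_act {ι : Type} (π : Equiv.Perm V) (g : ι → Cfg V C → Prop) {r : ℕ}
    (e : Fin r → Bit V C) (x : Cfg V C) :
    MM (fun j x => g j (act π x)) e x ↔ MM g (fun i => pB π (e i)) (act π x) := by
  unfold MM
  rw [XX_pB]
  simp only [Rel_act]

theorem Good_pB (π : Equiv.Perm V) : ∀ {r : ℕ} (e : Fin r → Bit V C),
    Good (fun i => pB π (e i)) ↔ Good e := by
  intro r
  induction r with
  | zero => intro e; simp [Good]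
  | succ r ih =>
    intro e
    have h1 : Fin.tail (fun i => pB π (e i)) = fun i => pB π (Fin.tail e i) := rfl
    unfold Good
    rw [h1, XX_pB, ih, vt_pB, Finset.image_subset_image_iff π.injective]

theorem Good_inj : ∀ {r : ℕ} (e : Fin r → Bit V C), Good e →
    ∃ u : Fin r → V, Injective u ∧ ∀ i, u i ∈ vt (e i) := by
  intro r
  induction r with
  | zero =>
    intro e _
    exact ⟨Fin.elim0, fun i => i.elim0, fun i => i.elim0⟩
  | succ r ih =>
    intro e he
    obtain ⟨h1, h2⟩ := he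
    obtain ⟨u, hu, hue⟩ := ih _ h2
    obtain ⟨v, hv, hvX⟩ := Finset.not_subset.1 h1
    refine ⟨Fin.cons v u, ?_, ?_⟩
    · rw [Fin.cons_injective_iff]
      refine ⟨?_, hu⟩
      rintro ⟨i, hi⟩
      apply hvX
      rw [← hi]
      exact mem_XX.2 ⟨i, hue i⟩
    · intro i
      refine Fin.cases ?_ (fun i => ?_) i
      · simpa using hv
      · rw [Fin.cons_succ]; exact hue i

theorem card_perm_le {r : ℕ} (u w : Fin r → V) (hu : Injective u) :
    (Finset.univ.filter (fun π : Equiv.Perm V => ∀ i, π (u i) = w i)).card ≤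
      (Fintype.card V - r).factorial := by
  classical
  by_cases hex : ∃ π₀ : Equiv.Perm V, ∀ i, π₀ (u i) = w i
  · obtain ⟨π₀, h₀⟩ := hex
    have hcard : Fintype.card {v : V // v ∉ Set.range u} = Fintype.card V - r := by
      rw [Fintype.card_subtype_compl, Set.card_range_of_injective hu, Fintype.card_fin]
    have h1 : Fintype.card (Equiv.Perm {v : V // v ∉ Set.range u}) =
        (Fintype.card V - r).factorial := by
      rw [Fintype.card_perm, hcard]
    rw [← h1, Fintype.card_congr (Equiv.Perm.subtypeEquivSubtypePerm (fun v => v ∉ Set.range u)),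
      Fintype.card_subtype]
    refine Finset.card_le_card_of_injOn (fun π => π₀⁻¹ * π) ?_ ?_
    · intro π hπ
      simp only [Finset.coe_filter, Finset.mem_univ, true_and, Set.mem_ofPred_eq] at hπ ⊢
      rintro a ha
      rw [not_not] at ha
      obtain ⟨i, rfl⟩ := ha
      rw [Equiv.Perm.mul_apply, hπ i, ← h₀ i]
      exact π₀.symm_apply_apply (u i)
    · intro π _ π' _ h
      exact mul_left_cancel h
  · have : (Finset.univ.filter (fun π : Equiv.Perm V => ∀ i, π (u i) = w i)) = ∅ := by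
      ext π
      simp only [Finset.mem_filter, Finset.mem_univ, true_and, Finset.notMem_empty, iff_false]
      exact fun h => hex ⟨π, h⟩
    rw [this]
    simp

theorem Ex_perm_le {r : ℕ} (hr : 2 * r ≤ Fintype.card V) (u w : Fin r → V) (hu : Injective u) :
    Ex (fun π : Equiv.Perm V => ind (∀ i, π (u i) = w i)) ≤ (2 / Fintype.card V) ^ r := by
  classical
  set n := Fintype.card V with hn
  have h1 : Ex (fun π : Equiv.Perm V => ind (∀ i, π (u i) = w i)) ≤
      ((n - r).factorial : ℝ) / n.factorial := by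
    rw [Ex_ind, Fintype.card_perm]
    gcongr
    convert card_perm_le u w hu
  refine h1.trans ?_
  rcases Nat.eq_zero_or_pos n with h0 | h0
  · have : r = 0 := by omega
    subst this
    simp [h0]
  have hn0 : (0 : ℝ) < n := by exact_mod_cast h0
  have h2 : (n - r).factorial * n.descFactorial r = n.factorial :=
    Nat.factorial_mul_descFactorial (by omega)
  have h3 : (n + 1 - r) ^ r ≤ n.descFactorial r := Nat.pow_sub_le_descFactorial n r
  have hfac : (0 : ℝ) < (n.factorial : ℝ) := by exact_mod_cast Nat.factorial_pos n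
  rw [div_le_iff₀ hfac, ← h2]
  push_cast
  have h4 : ((n : ℝ) / 2) ^ r ≤ (n.descFactorial r : ℝ) := by
    have h3' : ((n + 1 - r : ℕ) : ℝ) ^ r ≤ (n.descFactorial r : ℝ) := by exact_mod_cast h3
    refine le_trans ?_ h3'
    have h5 : (n : ℝ) / 2 ≤ ((n + 1 - r : ℕ) : ℝ) := by
      rw [div_le_iff₀ (by norm_num)]
      have : n ≤ (n + 1 - r) * 2 := by omega
      exact_mod_cast this
    gcongr
  have h6 : (2 / (n : ℝ)) ^ r * ((n : ℝ) / 2) ^ r = 1 := by
    rw [← mul_pow]
    have : 2 / (n : ℝ) * ((n : ℝ) / 2) = 1 := by field_simp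
    rw [this, one_pow]
  have hpos : (0 : ℝ) ≤ ((n - r).factorial : ℝ) := Nat.cast_nonneg _
  calc ((n - r).factorial : ℝ) = ((n - r).factorial : ℝ) * ((2 / (n : ℝ)) ^ r * ((n : ℝ) / 2) ^ r) := by
        rw [h6, mul_one]
    _ ≤ ((n - r).factorial : ℝ) * ((2 / (n : ℝ)) ^ r * (n.descFactorial r : ℝ)) := by gcongr
    _ = _ := by ring

theorem Ex_pB_eq_le {r : ℕ} (hr : 2 * r ≤ Fintype.card V) (e e' : Fin r → Bit V C)
    (he : Good e) : Ex (fun π : Equiv.Perm V => ind (∀ i, pB π (e i) = e' i)) ≤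
      (4 / Fintype.card V) ^ r := by
  classical
  obtain ⟨u, hu, hue⟩ := Good_inj e he
  set W : Finset (Fin r → V) := Fintype.piFinset (fun i => vt (e' i)) with hW
  have hWc : (W.card : ℝ) ≤ 2 ^ r := by
    have : W.card ≤ 2 ^ r := by
      rw [hW, Fintype.card_piFinset]
      calc ∏ i, (vt (e' i)).card ≤ ∏ _i : Fin r, 2 := Finset.prod_le_prod' fun i _ => vt_card_le _
        _ = 2 ^ r := by simp
    exact_mod_cast this
  have h1 : ∀ π : Equiv.Perm V, ind (∀ i, pB π (e i) = e' i) ≤
      ∑ w ∈ W, ind (∀ i, π (u i) = w i) := by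
    intro π
    refine (ind_mono ?_).trans (ind_exists_le W (fun w => ∀ i, π (u i) = w i))
    intro h
    refine ⟨fun i => π (u i), ?_, fun i => rfl⟩
    rw [hW, Fintype.mem_piFinset]
    intro i
    rw [← h i, vt_pB]
    exact Finset.mem_image_of_mem π (hue i)
  calc Ex (fun π : Equiv.Perm V => ind (∀ i, pB π (e i) = e' i))
      ≤ Ex (fun π : Equiv.Perm V => ∑ w ∈ W, ind (∀ i, π (u i) = w i)) := Ex_mono h1
    _ = ∑ w ∈ W, Ex (fun π : Equiv.Perm V => ind (∀ i, π (u i) = w i)) := Ex_sum _ _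
    _ ≤ ∑ _w ∈ W, (2 / (Fintype.card V : ℝ)) ^ r :=
        Finset.sum_le_sum fun w _ => Ex_perm_le hr u w hu
    _ = W.card * (2 / (Fintype.card V : ℝ)) ^ r := by rw [Finset.sum_const, nsmul_eq_mul]
    _ ≤ 2 ^ r * (2 / (Fintype.card V : ℝ)) ^ r := by gcongr
    _ = (4 / (Fintype.card V : ℝ)) ^ r := by rw [← mul_pow]; congr 1; ring

theorem perm_avg {r : ℕ} (hr : 2 * r ≤ Fintype.card V) (a b : (Fin r → Bit V C) → ℝ)
    (ha : ∀ e, 0 ≤ a e) (hb : ∀ e, 0 ≤ b e) :
    Ex (fun π : Equiv.Perm V => ∑ e ∈ TS V C r, a e * b (fun i => pB π (e i))) ≤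
      (4 / Fintype.card V) ^ r * ((∑ e ∈ TS V C r, a e) * ∑ e ∈ TS V C r, b e) := by
  classical
  have h1 : ∀ π : Equiv.Perm V, ∀ e ∈ TS V C r, b (fun i => pB π (e i)) =
      ∑ e' ∈ TS V C r, b e' * ind (∀ i, pB π (e i) = e' i) := by
    intro π e he
    have hmem : (fun i => pB π (e i)) ∈ TS V C r := mem_TS.2 ((Good_pB π e).2 (mem_TS.1 he))
    rw [Finset.sum_eq_single_of_mem _ hmem]
    · rw [ind_true (fun i => rfl), mul_one]
    · intro e' _ hne
      rw [ind_false, mul_zero]
      intro h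
      exact hne (funext fun i => (h i).symm)
  calc Ex (fun π : Equiv.Perm V => ∑ e ∈ TS V C r, a e * b (fun i => pB π (e i)))
      = Ex (fun π : Equiv.Perm V => ∑ e ∈ TS V C r, ∑ e' ∈ TS V C r,
          (a e * b e') * ind (∀ i, pB π (e i) = e' i)) := by
        refine Ex_congr fun π => Finset.sum_congr rfl fun e he => ?_
        rw [h1 π e he, Finset.mul_sum]
        refine Finset.sum_congr rfl fun e' _ => ?_
        ring
    _ = ∑ e ∈ TS V C r, ∑ e' ∈ TS V C r,
          (a e * b e') * Ex (fun π : Equiv.Perm V => ind (∀ i, pB π (e i) = e' i)) := by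
        rw [Ex_sum]
        refine Finset.sum_congr rfl fun e _ => ?_
        rw [Ex_sum]
        exact Finset.sum_congr rfl fun e' _ => Ex_mul_left _ _
    _ ≤ ∑ e ∈ TS V C r, ∑ e' ∈ TS V C r, (a e * b e') * (4 / Fintype.card V) ^ r := by
        refine Finset.sum_le_sum fun e he => Finset.sum_le_sum fun e' _ => ?_
        exact mul_le_mul_of_nonneg_left (Ex_pB_eq_le hr e e' (mem_TS.1 he))
          (mul_nonneg (ha e) (hb e'))
    _ = _ := by
        rw [Finset.sum_mul_sum, mul_comm, Finset.sum_mul]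
        refine Finset.sum_congr rfl fun e _ => ?_
        rw [Finset.sum_mul]

/-- the expected number of good tuples all of whose bits are relevant -/
noncomputable def SS {ι : Type} (r : ℕ) (f : ι → Cfg V C → Prop) : ℝ :=
  ∑ e ∈ TS V C r, Ex (fun x => ind (MM f e x))

theorem SS_nonneg {ι : Type} (r : ℕ) (f : ι → Cfg V C → Prop) : 0 ≤ SS r f :=
  Finset.sum_nonneg fun _ _ => Ex_nonneg fun _ => ind_nonneg _

theorem Ex_PP_le {ι κ : Type} {r : ℕ} (hr : 2 * r ≤ Fintype.card V) (f : ι → Cfg V C → Prop)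
    (g : κ → Cfg V C → Prop) :
    Ex (fun π : Equiv.Perm V => PP r f (fun j x => g j (act π x))) ≤
      (4 / Fintype.card V) ^ r * (SS r f * SS r g) := by
  refine le_trans (le_of_eq ?_) (perm_avg hr (fun e => Ex (fun x => ind (MM f e x)))
    (fun e => Ex (fun x => ind (MM g e x))) (fun e => Ex_nonneg fun _ => ind_nonneg _)
    (fun e => Ex_nonneg fun _ => ind_nonneg _))
  refine Ex_congr fun π => ?_
  unfold PP
  refine Finset.sum_congr rfl fun e _ => ?_
  congr 1
  rw [← Ex_equiv (act π) (fun x => ind (MM g (fun i => pB π (e i)) x))]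
  exact Ex_congr fun x => ind_congr (MM_act π g e x)

end Pool.Agent.Helper704_ZO
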