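import Pool.Agent.Helper704_ZO.Level

/-!
The expected number of tuples of relevant bits for families of circuits.
-/

namespace Pool.Agent.Helper704_ZO

set_option linter.unusedSectionVars false
set_option linter.unusedVariables false

open Finset Function

section
variable {V C : Type} [Fintype V] [DecidableEq V] [Fintype C] [DecidableEq C]

theorem Rel_mono {g : Cfg V C → Prop} {F F' : Finset (Bit V C)} (h : F ⊆ F') {b : Bit V C}
    (hb : b ∈ F) {x : Cfg V C} (hr : Rel g F b x) : Rel g F' b x := by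
  obtain ⟨z, hz⟩ := hr
  refine ⟨mix F z x, ?_⟩
  have e1 : mix F' (mix F z x) x = mix F z x := by
    funext d
    by_cases hd : d ∈ F'
    · rw [mix_of_mem hd]
    · rw [mix_of_notMem hd, mix_of_notMem (fun h' => hd (h h'))]
  rw [flp_mix_of_mem (h hb), e1, ← flp_mix_of_mem hb]
  exact hz

theorem mem_of_Rel {g : Cfg V C → Prop} {F S : Finset (Bit V C)} {x : Cfg V C}
    (hS : ∀ z z' : Cfg V C, (∀ b ∈ S, z b = z' b) → (g (mix F z x) ↔ g (mix F z' x)))
    {b : Bit V C} (hr : Rel g F b x) : b ∈ S := by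
  by_contra hb
  obtain ⟨z, hz⟩ := hr
  refine hz (hS _ _ fun d hd => flp_of_ne ?_ z)
  rintro rfl
  exact hb hd

theorem sum_ind_pi {r : ℕ} (S : Finset (Bit V C)) :
    ∑ e ∈ TS V C r, ind (∀ i, e i ∈ S) ≤ (S.card : ℝ) ^ r := by
  classical
  have h1 : ∑ e ∈ TS V C r, ind (∀ i, e i ∈ S) ≤
      ∑ e : Fin r → Bit V C, ind (∀ i, e i ∈ S) :=
    Finset.sum_le_sum_of_subset_of_nonneg (Finset.subset_univ _) fun _ _ _ => ind_nonneg _
  refine h1.trans (le_of_eq ?_)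
  have h2 : ∑ e : Fin r → Bit V C, ind (∀ i, e i ∈ S) =
      ((Finset.univ.filter (fun e : Fin r → Bit V C => ∀ i, e i ∈ S)).card : ℝ) := by
    rw [Finset.card_filter]
    push_cast
    refine Finset.sum_congr rfl fun e _ => ?_
    by_cases h : ∀ i, e i ∈ S <;> simp [ind, h]
  have h3 : (Finset.univ.filter (fun e : Fin r → Bit V C => ∀ i, e i ∈ S)) =
      Fintype.piFinset (fun _ => S) := by
    ext e
    simp
  rw [h2, h3, Fintype.card_piFinset_const]
  push_cast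
  rfl

theorem card_TS_le (r : ℕ) : ((TS V C r).card : ℝ) ≤
    ((1 + Fintype.card C : ℕ) * (Fintype.card V : ℝ) ^ 2) ^ r := by
  classical
  have h1 : (TS V C r).card ≤ Fintype.card (Fin r → Bit V C) := Finset.card_le_univ _
  have h2 : Fintype.card (Fin r → Bit V C) = (Fintype.card V * Fintype.card V +
      Fintype.card C * Fintype.card V) ^ r := by
    simp
  have h3 : Fintype.card V * Fintype.card V + Fintype.card C * Fintype.card V ≤
      (1 + Fintype.card C) * Fintype.card V ^ 2 := by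
    have : Fintype.card V ≤ Fintype.card V ^ 2 := Nat.le_self_pow (by norm_num) _
    nlinarith
  have h4 : (TS V C r).card ≤ ((1 + Fintype.card C) * Fintype.card V ^ 2) ^ r := by
    rw [h2] at h1
    exact h1.trans (Nat.pow_le_pow_left h3 r)
  exact_mod_cast h4

theorem count_MM {ι : Type} [Fintype ι] {r : ℕ} (f : ι → Cfg V C → Prop)
    (U : Finset V) (x : Cfg V C) {c : ℕ} (hj : ∀ j, Jun c (f j) (KB U) x) :
    ∑ e ∈ TS V C r, ind (XX e ⊆ U) * ind (MM f e x) ≤ ((Fintype.card ι * c : ℕ) : ℝ) ^ r := by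
  classical
  choose S hSc hS using hj
  have h1 : ∀ e ∈ TS V C r, ind (XX e ⊆ U) * ind (MM f e x) ≤
      ind (∀ i, e i ∈ Finset.univ.biUnion S) := by
    intro e _
    rw [← ind_and]
    refine ind_mono ?_
    rintro ⟨hX, hM⟩ i
    obtain ⟨j, hr⟩ := hM i
    refine Finset.mem_biUnion.2 ⟨j, Finset.mem_univ j, ?_⟩
    exact mem_of_Rel (hS j) (Rel_mono (KB_mono hX) (mem_KB.2 (vt_subset_XX e i)) hr)
  refine (Finset.sum_le_sum h1).trans ((sum_ind_pi _).trans ?_)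
  have h2 : (Finset.univ.biUnion S).card ≤ Fintype.card ι * c :=
    Finset.card_biUnion_le_card_mul _ _ c fun j _ => hSc j
  have h3 : ((Finset.univ.biUnion S).card : ℝ) ≤ ((Fintype.card ι * c : ℕ) : ℝ) := by
    exact_mod_cast h2
  gcongr

theorem count_MM_any {ι : Type} {r : ℕ} (f : ι → Cfg V C → Prop) (U : Finset V) (x : Cfg V C) :
    ∑ e ∈ TS V C r, ind (XX e ⊆ U) * ind (MM f e x) ≤
      ((1 + Fintype.card C : ℕ) * (Fintype.card V : ℝ) ^ 2) ^ r := by
  have h1 : ∀ e ∈ TS V C r, ind (XX e ⊆ U) * ind (MM f e x) ≤ 1 := by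
    intro e _
    exact mul_le_one₀ (ind_le_one _) (ind_nonneg _) (ind_le_one _)
  refine (Finset.sum_le_sum h1).trans ?_
  rw [Finset.sum_const, nsmul_eq_mul, mul_one]
  exact card_TS_le r

theorem SS_le_of_junta {ι : Type} [Fintype ι] {r c : ℕ} (f : ι → Cfg V C → Prop)
    {Q : Type} [Fintype Q] [DecidableEq Q] (q0 : Q) {δ : ℝ}
    (hj : ∀ j, Ex (fun κ : V → Q => Ex (fun x : Cfg V C =>
      ind (¬ Jun c (f j) (KB (UU κ q0)) x))) ≤ δ) :
    SS r f ≤ (Fintype.card Q : ℝ) ^ (2 * r) * (((Fintype.card ι * c : ℕ) : ℝ) ^ r +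
      Fintype.card ι * δ * ((1 + Fintype.card C : ℕ) * (Fintype.card V : ℝ) ^ 2) ^ r) := by
  classical
  have hne : Nonempty Q := ⟨q0⟩
  have hQ1 : (1 : ℝ) ≤ Fintype.card Q := by exact_mod_cast Fintype.card_pos
  set B : ℝ := ((1 + Fintype.card C : ℕ) * (Fintype.card V : ℝ) ^ 2) ^ r with hB
  have hB0 : 0 ≤ B := by positivity
  -- pointwise bound
  have h1 : ∀ (κ : V → Q) (x : Cfg V C),
      ∑ e ∈ TS V C r, ind (XX e ⊆ UU κ q0) * ind (MM f e x) ≤
        ((Fintype.card ι * c : ℕ) : ℝ) ^ r +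
          ∑ j : ι, B * ind (¬ Jun c (f j) (KB (UU κ q0)) x) := by
    intro κ x
    have hnn : 0 ≤ ∑ j : ι, B * ind (¬ Jun c (f j) (KB (UU κ q0)) x) :=
      Finset.sum_nonneg fun j _ => mul_nonneg hB0 (ind_nonneg _)
    by_cases hall : ∀ j, Jun c (f j) (KB (UU κ q0)) x
    · have := count_MM (r := r) f (UU κ q0) x hall
      linarith
    · push Not at hall
      obtain ⟨j, hjj⟩ := hall
      have h2 := count_MM_any (r := r) f (UU κ q0) x
      have h3 : B ≤ ∑ j : ι, B * ind (¬ Jun c (f j) (KB (UU κ q0)) x) := by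
        calc B = B * ind (¬ Jun c (f j) (KB (UU κ q0)) x) := by rw [ind_true hjj, mul_one]
          _ ≤ _ := Finset.single_le_sum
            (f := fun j => B * ind (¬ Jun c (f j) (KB (UU κ q0)) x))
            (fun j _ => mul_nonneg hB0 (ind_nonneg _)) (Finset.mem_univ j)
      have h4 : (0 : ℝ) ≤ ((Fintype.card ι * c : ℕ) : ℝ) ^ r := by positivity
      linarith
  -- averaging over κ
  have h5 : ∀ e ∈ TS V C r, Ex (fun x => ind (MM f e x)) ≤ (Fintype.card Q : ℝ) ^ (2 * r) *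
      Ex (fun κ : V → Q => Ex (fun x : Cfg V C => ind (XX e ⊆ UU κ q0) * ind (MM f e x))) := by
    intro e _
    have h6 : Ex (fun κ : V → Q => Ex (fun x : Cfg V C => ind (XX e ⊆ UU κ q0) *
        ind (MM f e x))) = (1 / (Fintype.card Q : ℝ)) ^ (XX e).card *
          Ex (fun x => ind (MM f e x)) := by
      have : ∀ κ : V → Q, Ex (fun x : Cfg V C => ind (XX e ⊆ UU κ q0) * ind (MM f e x)) =
          ind (XX e ⊆ UU κ q0) * Ex (fun x => ind (MM f e x)) := fun κ => Ex_mul_left _ _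
      simp only [this]
      rw [Ex_mul_right, Ex_sub_UU]
    rw [h6, ← mul_assoc]
    have h7 : (1 : ℝ) ≤ (Fintype.card Q : ℝ) ^ (2 * r) *
        (1 / (Fintype.card Q : ℝ)) ^ (XX e).card := by
      rw [one_div, inv_pow, ← div_eq_mul_inv, le_div_iff₀ (by positivity), one_mul]
      exact pow_le_pow_right₀ hQ1 (card_XX_le e)
    have h8 : 0 ≤ Ex (fun x => ind (MM f e x)) := Ex_nonneg fun _ => ind_nonneg _
    nlinarith
  calc SS r f ≤ ∑ e ∈ TS V C r, (Fintype.card Q : ℝ) ^ (2 * r) *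
      Ex (fun κ : V → Q => Ex (fun x : Cfg V C => ind (XX e ⊆ UU κ q0) * ind (MM f e x))) :=
        Finset.sum_le_sum h5
    _ = (Fintype.card Q : ℝ) ^ (2 * r) * Ex (fun κ : V → Q => Ex (fun x : Cfg V C =>
          ∑ e ∈ TS V C r, ind (XX e ⊆ UU κ q0) * ind (MM f e x))) := by
        rw [← Finset.mul_sum]
        congr 1
        rw [← Ex_sum]
        exact Ex_congr fun κ => (Ex_sum _ _).symm
    _ ≤ (Fintype.card Q : ℝ) ^ (2 * r) * Ex (fun κ : V → Q => Ex (fun x : Cfg V C =>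
          ((Fintype.card ι * c : ℕ) : ℝ) ^ r +
          ∑ j : ι, B * ind (¬ Jun c (f j) (KB (UU κ q0)) x))) := by
        gcongr
        exact Ex_mono fun κ => Ex_mono fun x => h1 κ x
    _ = (Fintype.card Q : ℝ) ^ (2 * r) * (((Fintype.card ι * c : ℕ) : ℝ) ^ r +
          ∑ j : ι, B * Ex (fun κ : V → Q => Ex (fun x : Cfg V C =>
            ind (¬ Jun c (f j) (KB (UU κ q0)) x)))) := by
        congr 1
        have h9 : ∀ κ : V → Q, Ex (fun x : Cfg V C => ((Fintype.card ι * c : ℕ) : ℝ) ^ r +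
            ∑ j : ι, B * ind (¬ Jun c (f j) (KB (UU κ q0)) x)) =
            ((Fintype.card ι * c : ℕ) : ℝ) ^ r + ∑ j : ι, B *
              Ex (fun x : Cfg V C => ind (¬ Jun c (f j) (KB (UU κ q0)) x)) := by
          intro κ
          rw [Ex_add, Ex_const, Ex_sum]
          congr 1
          exact Finset.sum_congr rfl fun j _ => Ex_mul_left _ _
        simp only [h9]
        rw [Ex_add, Ex_const, Ex_sum]
        congr 1
        exact Finset.sum_congr rfl fun j _ => Ex_mul_left _ _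
    _ ≤ (Fintype.card Q : ℝ) ^ (2 * r) * (((Fintype.card ι * c : ℕ) : ℝ) ^ r +
          ∑ _j : ι, B * δ) := by
        gcongr with j _
        exact hj j
    _ = _ := by
        rw [Finset.sum_const, Finset.card_univ, nsmul_eq_mul]
        ring

end

theorem sens (C : Type) [Fintype C] [DecidableEq C] (μ ν t r k : ℕ) : ∃ (M : ℝ) (ℓ₀ : ℕ), 0 ≤ M ∧
    ∀ ℓ ≥ ℓ₀, ∀ (V : Type) [Fintype V] [DecidableEq V] (m : ℕ), m ≤ 2 ^ (μ * ℓ) →
      Fintype.card V ≤ 2 ^ (ν * (ℓ + 1)) → ∀ (ι : Type) [Fintype ι], Fintype.card ι ≤ k →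
        ∀ f : ι → Cfg V C → Prop, (∀ j, Circ m t (f j)) →
          SS r f ≤ M * (2 : ℝ) ^ (2 * r * t * ℓ) := by
  obtain ⟨c, ℓ₀, h⟩ := circ_junta C μ t (2 * ν * r)
  refine ⟨((k * c : ℕ) : ℝ) ^ r + k * ((1 + Fintype.card C : ℕ) : ℝ) ^ r * 2 ^ (2 * ν * r), ℓ₀,
    by positivity, ?_⟩
  intro ℓ hℓ V _ _ m hm hV ι _ hι f hf
  obtain ⟨Q, i₁, i₂, q0, hQ, hjun⟩ := h ℓ hℓ
  have h1 := SS_le_of_junta (r := r) f q0 (fun j => hjun V m hm (f j) (hf j))
  refine h1.trans ?_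
  have hι' : (Fintype.card ι : ℝ) ≤ k := by exact_mod_cast hι
  have hQ' : (Fintype.card Q : ℝ) ^ (2 * r) = (2 : ℝ) ^ (2 * r * t * ℓ) := by
    rw [hQ]
    push_cast
    rw [← pow_mul]
    congr 1
    ring
  have hV' : (Fintype.card V : ℝ) ≤ 2 ^ (ν * (ℓ + 1)) := by exact_mod_cast hV
  rw [hQ', mul_comm ((2 : ℝ) ^ (2 * r * t * ℓ))]
  refine mul_le_mul_of_nonneg_right (add_le_add ?_ ?_) (by positivity)
  · gcongr
  calc (Fintype.card ι : ℝ) * (1 / 2) ^ (2 * ν * r * ℓ) *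
        ((1 + Fintype.card C : ℕ) * (Fintype.card V : ℝ) ^ 2) ^ r
      ≤ k * (1 / 2) ^ (2 * ν * r * ℓ) *
        ((1 + Fintype.card C : ℕ) * ((2 : ℝ) ^ (ν * (ℓ + 1))) ^ 2) ^ r := by gcongr
    _ = k * ((1 + Fintype.card C : ℕ) : ℝ) ^ r *
        (((2 : ℝ) ^ (ν * (ℓ + 1))) ^ 2) ^ r * (1 / 2) ^ (2 * ν * r * ℓ) := by rw [mul_pow]; ring
    _ = k * ((1 + Fintype.card C : ℕ) : ℝ) ^ r * 2 ^ (2 * ν * r) *
        ((2 : ℝ) ^ (2 * ν * r * ℓ) * (1 / 2) ^ (2 * ν * r * ℓ)) := by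
        have : (((2 : ℝ) ^ (ν * (ℓ + 1))) ^ 2) ^ r = 2 ^ (2 * ν * r) * 2 ^ (2 * ν * r * ℓ) := by
          rw [← pow_mul, ← pow_mul, ← pow_add]
          congr 1
          ring
        rw [this]
        ring
    _ = k * ((1 + Fintype.card C : ℕ) : ℝ) ^ r * 2 ^ (2 * ν * r) := by
        rw [← mul_pow]
        norm_num

end Pool.Agent.Helper704_ZO
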