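import Pool.Agent.Helper704_ZO.Final
import Pool.Agent.Helper704_ZO.Lang

/-!
Translation of the sentences of Mathlib's first-order logic, and the zero-one law for them.
-/

namespace Pool.Agent.Helper704_ZO.FO

open FirstOrder Filter Topology Function
open Pool.Agent.Helper704_OI (Fml Sat fv Holds sat_congr)

variable {C V : Type}

/-- the index of the variable of a term -/
def vi {n : ℕ} : (Sig C).Term (Empty ⊕ Fin n) → ℕ
  | .var (.inl e) => Empty.elim e
  | .var (.inr i) => i
  | .func f _ => Empty.elim f

/-- the translation of atomic formulas -/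
def atm {l : ℕ} (R : Sym C l) : (Fin l → ℕ) → Fml C :=
  match R with
  | .edge => fun x => .adj (x 0) (x 1)
  | .less => fun x => .lt (x 0) (x 1)
  | .col c => fun x => .col c (x 0)

/-- the translation of formulas -/
def tr : ∀ {n : ℕ}, (Sig C).BoundedFormula Empty n → Fml C
  | _, .falsum => .neg (.exGe 0 0 (.eq 0 0))
  | _, .equal t₁ t₂ => .eq (vi t₁) (vi t₂)
  | _, .rel R ts => atm R (fun i => vi (ts i))
  | _, .imp φ ψ => .neg (.and (tr φ) (.neg (tr ψ)))
  | n, .all φ => .neg (.exGe 1 n (.neg (tr φ)))

theorem vi_lt {n : ℕ} (t : (Sig C).Term (Empty ⊕ Fin n)) : vi t < n := by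
  cases t with
  | var a =>
    cases a with
    | inl e => exact Empty.elim e
    | inr i => exact i.2
  | func f _ => exact Empty.elim f

theorem fv_tr {n : ℕ} (φ : (Sig C).BoundedFormula Empty n) : ∀ i ∈ fv (tr φ), i < n := by
  induction φ with
  | falsum => intro i hi; simp [tr, fv] at hi
  | equal t₁ t₂ =>
    intro i hi
    simp only [tr, fv, Finset.mem_insert, Finset.mem_singleton] at hi
    rcases hi with rfl | rfl
    · exact vi_lt t₁
    · exact vi_lt t₂
  | rel R ts =>
    intro i hi
    cases R with
    | edge =>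
      simp only [tr, atm, fv, Finset.mem_insert, Finset.mem_singleton] at hi
      rcases hi with rfl | rfl
      · exact vi_lt _
      · exact vi_lt _
    | less =>
      simp only [tr, atm, fv, Finset.mem_insert, Finset.mem_singleton] at hi
      rcases hi with rfl | rfl
      · exact vi_lt _
      · exact vi_lt _
    | col c =>
      simp only [tr, atm, fv, Finset.mem_singleton] at hi
      rcases hi with rfl
      exact vi_lt _
  | imp φ ψ ih1 ih2 =>
    intro i hi
    simp only [tr, fv, Finset.mem_union] at hi
    rcases hi with hi | hi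
    · exact ih1 i hi
    · exact ih2 i hi
  | @all n φ ih =>
    intro i hi
    simp only [tr, fv, Finset.mem_erase] at hi
    have := ih i hi.2
    omega

theorem realize_term (G : SimpleGraph V) (P : C → V → Prop) (r : V → V → Prop) {n : ℕ}
    (t : (Sig C).Term (Empty ⊕ Fin n)) (v : Empty → V) (xs : Fin n → V) (s : ℕ → V)
    (h : ∀ i : Fin n, xs i = s i) :
    @Language.Term.realize (Sig C) V (str G P r) _ (Sum.elim v xs) t = s (vi t) := by
  cases t with
  | var a =>
    cases a with
    | inl e => exact Empty.elim e
    | inr i => exact h i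
  | func f _ => exact Empty.elim f

theorem realize_tr (G : SimpleGraph V) (P : C → V → Prop) (r : V → V → Prop) {n : ℕ}
    (φ : (Sig C).BoundedFormula Empty n) : ∀ (v : Empty → V) (xs : Fin n → V) (s : ℕ → V),
    (∀ i : Fin n, xs i = s i) →
      (@Language.BoundedFormula.Realize (Sig C) V (str G P r) _ _ φ v xs ↔
        Sat G P r (tr φ) s) := by
  induction φ with
  | falsum =>
    intro v xs s h
    simp only [tr, Sat]
    constructor
    · intro h; exact h.elim
    · intro h; exact h ⟨∅, by simp⟩
  | equal t₁ t₂ =>
    intro v xs s h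
    simp only [tr, Sat, Language.BoundedFormula.Realize]
    rw [realize_term G P r t₁ v xs s h, realize_term G P r t₂ v xs s h]
  | rel R ts =>
    intro v xs s h
    have key : (fun i => @Language.Term.realize (Sig C) V (str G P r) _ (Sum.elim v xs) (ts i)) =
        fun i => s (vi (ts i)) := by
      funext i
      exact realize_term G P r (ts i) v xs s h
    simp only [Language.BoundedFormula.Realize]
    rw [key]
    cases R with
    | edge => exact Iff.rfl
    | less => exact Iff.rfl
    | col c => exact Iff.rfl
  | imp φ ψ ih1 ih2 =>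
    intro v xs s h
    simp only [tr, Sat, Language.BoundedFormula.Realize]
    rw [ih1 v xs s h, ih2 v xs s h]
    tauto
  | @all n φ ih =>
    intro v xs s h
    simp only [tr, Sat, Language.BoundedFormula.Realize]
    have h1 : ∀ a : V, (@Language.BoundedFormula.Realize (Sig C) V (str G P r) _ _ φ v
        (Fin.snoc xs a) ↔ Sat G P r (tr φ) (update s n a)) := by
      intro a
      refine ih v (Fin.snoc xs a) (update s n a) ?_
      intro i
      refine Fin.lastCases ?_ (fun i => ?_) i
      · simp
      · have : (i : ℕ) ≠ n := i.2.ne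
        simp [this, h i]
    simp only [h1]
    constructor
    · rintro h2 ⟨A, hA, hA'⟩
      obtain ⟨a, rfl⟩ := Finset.card_eq_one.1 hA
      exact hA' a (by simp) (h2 a)
    · intro h2 a
      by_contra h3
      exact h2 ⟨{a}, by simp, fun b hb => by rw [Finset.mem_singleton.1 hb]; exact h3⟩

theorem models_iff [Nonempty V] (G : SimpleGraph V) (P : C → V → Prop) (r : V → V → Prop)
    (φ : (Sig C).Sentence) : Models G P r φ ↔ Holds G P r (tr φ) := by
  have h1 : ∀ s : ℕ → V, (Models G P r φ ↔ Sat G P r (tr φ) s) := fun s =>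
    realize_tr G P r φ _ _ s (fun i => i.elim0)
  constructor
  · intro h s; exact (h1 s).1 h
  · intro h
    obtain ⟨v⟩ := ‹Nonempty V›
    exact (h1 fun _ => v).2 (h _)

theorem orderInvariant_tr {φ : (Sig C).Sentence} (h : OrderInvariant φ) :
    Pool.Agent.Helper704_OI.OrderInvariant (tr φ) := by
  intro n G P r r' hr hr'
  rcases Nat.eq_zero_or_pos n with h0 | h0
  · subst h0
    have : r = r' := Subsingleton.elim _ _
    rw [this]
  · have : Nonempty (Fin n) := ⟨⟨0, h0⟩⟩
    rw [← models_iff, ← models_iff]
    exact h n G P r r' hr hr'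

theorem mu_tr (φ : (Sig C).Sentence) {n : ℕ} (hn : 0 < n) :
    Pool.Agent.Helper704_OI.mu (tr φ) n = mu φ n := by
  have : Nonempty (Fin n) := ⟨⟨0, hn⟩⟩
  unfold mu Pool.Agent.Helper704_OI.mu
  simp only [models_iff]

/-- the zero-one law for order-invariant first-order logic -/
theorem zero_one_law (C : Type) [Finite C] (φ : (Sig C).Sentence) (hφ : OrderInvariant φ) :
    Tendsto (mu φ) atTop (𝓝 0) ∨ Tendsto (mu φ) atTop (𝓝 1) := by
  have hfv : fv (tr φ) = ∅ := by
    rw [Finset.eq_empty_iff_forall_notMem]
    intro i hi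
    exact absurd (fv_tr φ i hi) (Nat.not_lt_zero i)
  have hev : ∀ᶠ n in atTop, Pool.Agent.Helper704_OI.mu (tr φ) n = mu φ n := by
    filter_upwards [eventually_gt_atTop 0] with n hn using mu_tr φ hn
  rcases Pool.Agent.Helper704_ZO.zero_one_law C (tr φ) hfv (orderInvariant_tr hφ) with h | h
  · exact Or.inl ((tendsto_congr' hev).1 h)
  · exact Or.inr ((tendsto_congr' hev).1 h)

end Pool.Agent.Helper704_ZO.FO
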